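import Mathlib

/-!
# Dyadic blocks and relations with the hexagon property
-/

namespace Pool.Agent.TH695.BC

/-- the block of size `2 ^ s` containing `x` -/
def bl (s x : ℕ) : ℕ := x / 2 ^ s

lemma bl_zero (x : ℕ) : bl 0 x = x := by simp [bl]

lemma bl_succ (s x : ℕ) : bl (s + 1) x = bl s x / 2 := by
  unfold bl; rw [pow_succ, Nat.div_div_eq_div_mul]

lemma bl_mono (s : ℕ) {x y : ℕ} (h : x ≤ y) : bl s x ≤ bl s y := Nat.div_le_div_right h

lemma lt_of_bl_lt {s x y : ℕ} (h : bl s x < bl s y) : x < y := by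
  by_contra hc
  have := bl_mono s (not_lt.mp hc)
  omega

/-- equal blocks stay equal at larger scales -/
lemma bl_eq_of_le {s t x y : ℕ} (hst : s ≤ t) (h : bl s x = bl s y) : bl t x = bl t y := by
  induction t, hst using Nat.le_induction with
  | base => exact h
  | succ t _ ih => rw [bl_succ, bl_succ, ih]

/-- the order of blocks at a larger scale is inherited by the blocks of a smaller scale -/
lemma bl_lt_of_le {s t x y : ℕ} (hst : s ≤ t) (h : bl t x < bl t y) : bl s x < bl s y := by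
  by_contra hc
  have h1 : bl s y ≤ bl s x := not_lt.mp hc
  have h2 : bl t y ≤ bl t x := by
    induction t, hst using Nat.le_induction with
    | base => exact h1
    | succ t ht ih =>
      rw [bl_succ, bl_succ]
      apply Nat.div_le_div_right
      by_contra hc2
      have := not_le.mp hc2
      exact absurd (ih this) (by omega)
  omega

/-- blocks are convex -/
lemma bl_between {s x y z t : ℕ} (h1 : x ≤ y) (h2 : y ≤ z) (hx : bl s x = t) (hz : bl s z = t) :
    bl s y = t := by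
  have := bl_mono s h1
  have := bl_mono s h2
  omega

lemma bl_top {L x : ℕ} (h : x < 2 ^ L) : bl L x = 0 := Nat.div_eq_of_lt h

/-- `x` lies in the sibling of the block of `u` at scale `i` -/
def Sib (i u x : ℕ) : Prop := bl i x ≠ bl i u ∧ bl (i + 1) x = bl (i + 1) u

lemma Sib.symm {i u x : ℕ} (h : Sib i u x) : Sib i x u := ⟨h.1.symm, h.2.symm⟩

lemma Sib.right {i u x : ℕ} (h : Sib i u x) (hp : bl i u % 2 = 0) : bl i x = bl i u + 1 := by
  have h1 := h.1
  have h2 := h.2
  rw [bl_succ, bl_succ] at h2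
  omega

lemma Sib.left {i u x : ℕ} (h : Sib i u x) (hp : bl i u % 2 = 1) : bl i x + 1 = bl i u := by
  have h1 := h.1
  have h2 := h.2
  rw [bl_succ, bl_succ] at h2
  omega

lemma Sib.between {i u x y z : ℕ} (h1 : Sib i u x) (h2 : Sib i u z) (hxy : x ≤ y) (hyz : y ≤ z) :
    Sib i u y := by
  have e1 : bl i x = bl i z := by
    rcases Nat.mod_two_eq_zero_or_one (bl i u) with hp | hp
    · rw [h1.right hp, h2.right hp]
    · have := h1.left hp; have := h2.left hp; omega
  have e2 := bl_between hxy hyz rfl e1.symm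
  refine ⟨by rw [e2]; exact h1.1, ?_⟩
  exact bl_between hxy hyz h1.2 h2.2

/-- two points in the sibling block are in the same block -/
lemma Sib.same {i u x z : ℕ} (h1 : Sib i u x) (h2 : Sib i u z) : bl i x = bl i z := by
  rcases Nat.mod_two_eq_zero_or_one (bl i u) with hp | hp
  · rw [h1.right hp, h2.right hp]
  · have := h1.left hp; have := h2.left hp; omega

lemma Sib.congr {i u u' x : ℕ} (h : Sib i u x) (hu : bl i u' = bl i u) : Sib i u' x := by
  refine ⟨by rw [hu]; exact h.1, ?_⟩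
  rw [bl_succ i u', hu, ← bl_succ]; exact h.2

lemma Sib.congr' {i u x x' : ℕ} (h : Sib i u x) (hx : bl i x' = bl i x) : Sib i u x' := by
  refine ⟨by rw [hx]; exact h.1, ?_⟩
  rw [bl_succ i x', hx, ← bl_succ]; exact h.2

/-- every two different points are separated at some level -/
lemma exists_sib {L u v : ℕ} (hu : u < 2 ^ L) (hv : v < 2 ^ L) (huv : u ≠ v) :
    ∃ i, i < L ∧ Sib i u v := by
  classical
  have hex : ∃ s, bl s u = bl s v := ⟨L, by rw [bl_top hu, bl_top hv]⟩
  set s := Nat.find hex with hs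
  have h1 : bl s u = bl s v := Nat.find_spec hex
  have h2 : s ≤ L := Nat.find_min' hex (by rw [bl_top hu, bl_top hv])
  have h0 : s ≠ 0 := by
    intro h
    rw [h, bl_zero, bl_zero] at h1
    exact huv h1
  refine ⟨s - 1, by omega, ?_, ?_⟩
  · intro h
    exact Nat.find_min hex (show s - 1 < Nat.find hex by omega) h.symm
  · have : s - 1 + 1 = s := by omega
    rw [this]; exact h1.symm

/-- the hexagon property of a relation on the natural numbers -/
structure Hex (R : ℕ → ℕ → Prop) : Prop where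
  symm : ∀ x y, R x y → R y x
  irr : ∀ x, ¬ R x x
  h0 : ∀ a b c d e f, a < b → b < c → c < d → d < e → e < f →
    R a c → R a e → R b d → R d f → R a d
  h1 : ∀ a b c d e f, a < b → b < c → c < d → d < e → e < f →
    R a e → R b d → R b f → R c e → R b e
  h2 : ∀ a b c d e f, a < b → b < c → c < d → d < e → e < f →
    R a c → R b f → R c e → R d f → R c f

variable {R : ℕ → ℕ → Prop}

/-- `x` lies in the hull of the neighbours of `u` in the sibling block at scale `i` -/
def inI (R : ℕ → ℕ → Prop) (i u x : ℕ) : Prop :=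
  (∃ y, Sib i u y ∧ R u y ∧ y ≤ x) ∧ (∃ y, Sib i u y ∧ R u y ∧ x ≤ y)

lemma inI.sib {i u x : ℕ} (h : inI R i u x) : Sib i u x := by
  obtain ⟨⟨y, h1, -, h2⟩, ⟨z, h3, -, h4⟩⟩ := h
  exact h1.between h3 h2 h4

lemma inI_of_adj {i u x : ℕ} (h : Sib i u x) (hR : R u x) : inI R i u x :=
  ⟨⟨x, h, hR, le_rfl⟩, ⟨x, h, hR, le_rfl⟩⟩

lemma inI.between {i u x y z : ℕ} (h1 : inI R i u x) (h2 : inI R i u z) (hxy : x ≤ y)
    (hyz : y ≤ z) : inI R i u y := by
  obtain ⟨⟨a, ha1, ha2, ha3⟩, -⟩ := h1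
  obtain ⟨-, ⟨b, hb1, hb2, hb3⟩⟩ := h2
  exact ⟨⟨a, ha1, ha2, by omega⟩, ⟨b, hb1, hb2, by omega⟩⟩

/-- mutual membership in the hulls implies adjacency -/
lemma Hex.adj (hx : Hex R) {i u v : ℕ} (h1 : inI R i u v) (h2 : inI R i v u) : R u v := by
  have hs := h1.sib
  obtain ⟨⟨z, hz1, hz2, hz3⟩, ⟨z', hz1', hz2', hz3'⟩⟩ := h1
  obtain ⟨⟨y, hy1, hy2, hy3⟩, ⟨y', hy1', hy2', hy3'⟩⟩ := h2
  rcases eq_or_lt_of_le hz3 with e | hz
  · rw [← e]; exact hz2
  rcases eq_or_lt_of_le hz3' with e | hz'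
  · rw [e]; exact hz2'
  rcases eq_or_lt_of_le hy3 with e | hy
  · rw [← e]; exact hx.symm _ _ hy2
  rcases eq_or_lt_of_le hy3' with e | hy'
  · rw [e]; exact hx.symm _ _ hy2'
  have eu : bl i y = bl i u := hy1.same hs.symm
  have eu' : bl i y' = bl i u := hy1'.same hs.symm
  have ev : bl i z = bl i v := hz1.same hs
  have ev' : bl i z' = bl i v := hz1'.same hs
  rcases lt_or_gt_of_ne hs.1 with h | h
  · -- v left of u
    have h3 : z' < y := lt_of_bl_lt (s := i) (by omega)
    exact hx.symm _ _ (hx.h1 z v z' y u y' hz hz' h3 hy hy' (hx.symm _ _ hz2) hy2 hy2'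
      (hx.symm _ _ hz2'))
  · have h3 : y' < z := lt_of_bl_lt (s := i) (by omega)
    exact hx.h1 y u y' z v z' hy hy' h3 hz hz' (hx.symm _ _ hy2) hz2 hz2' (hx.symm _ _ hy2')

/-- position between the block of `u` at scale `k` and the sibling block at scale `i` -/
def innerGap (i k u y : ℕ) : Prop :=
  bl i y = bl i u ∧ ((bl i u % 2 = 0 ∧ bl k u < bl k y) ∨ (bl i u % 2 = 1 ∧ bl k y < bl k u))

/-- position on the other side, between the sibling block at scale `i` and the block of `u` at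
scale `k` -/
def outerGap (i k u y : ℕ) : Prop :=
  (bl i u % 2 = 0 ∧ (bl k y < bl k u ∨ bl (i + 1) u < bl (i + 1) y)) ∨
  (bl i u % 2 = 1 ∧ (bl k u < bl k y ∨ bl (i + 1) y < bl (i + 1) u))

/-- `u` has neighbours in both gaps -/
def Long (R : ℕ → ℕ → Prop) (i k u : ℕ) : Prop :=
  k ≤ i ∧ (∃ y, R u y ∧ innerGap i k u y) ∧ (∃ y, R u y ∧ outerGap i k u y)

/-- a neighbour of `u` in the sibling block exists -/
def Lev (R : ℕ → ℕ → Prop) (i u : ℕ) : Prop := ∃ y, Sib i u y ∧ R u y

/-- the interval property of long points -/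
lemma Hex.interval (hx : Hex R) {i k v u1 u u3 : ℕ} (hk : k ≤ i) (hs : Sib i v u)
    (h1 : bl k u1 = bl k u) (h3 : bl k u3 = bl k u) (h12 : u1 < u) (h23 : u < u3)
    (hR1 : R v u1) (hR3 : R v u3) (hlong : Long R i k u) : R v u := by
  obtain ⟨-, ⟨y, hy1, hy2⟩, ⟨y', hy1', hy2'⟩⟩ := hlong
  have hs' := hs.symm
  have e1 : bl i u1 = bl i u := bl_eq_of_le hk h1
  have e3 : bl i u3 = bl i u := bl_eq_of_le hk h3
  obtain ⟨hy3, hy4⟩ := hy2
  rcases hy4 with ⟨hp, hy4⟩ | ⟨hp, hy4⟩
  · -- sibling block on the right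
    have hv := hs'.right hp
    have a1 : u3 < y := lt_of_bl_lt (s := k) (by omega)
    have a2 : y < v := lt_of_bl_lt (s := i) (by omega)
    rcases hy2' with ⟨-, hb⟩ | ⟨hb, -⟩
    · rcases hb with hb | hb
      · have a3 : y' < u1 := lt_of_bl_lt (s := k) (by omega)
        exact hx.symm _ _ (hx.h2 y' u1 u u3 y v a3 h12 h23 a1 a2 (hx.symm _ _ hy1')
          (hx.symm _ _ hR1) hy1 (hx.symm _ _ hR3))
      · have a3 : v < y' := by
          have := hs.2
          exact lt_of_bl_lt (s := i + 1) (by omega)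
        exact hx.symm _ _ (hx.h1 u1 u u3 y v y' h12 h23 a1 a2 a3 (hx.symm _ _ hR1) hy1 hy1'
          (hx.symm _ _ hR3))
    · omega
  · -- sibling block on the left
    have hv := hs'.left hp
    have a1 : y < u1 := lt_of_bl_lt (s := k) (by omega)
    have a2 : v < y := lt_of_bl_lt (s := i) (by omega)
    rcases hy2' with ⟨hb, -⟩ | ⟨-, hb⟩
    · omega
    · rcases hb with hb | hb
      · have a3 : u3 < y' := lt_of_bl_lt (s := k) (by omega)
        exact hx.h0 v y u1 u u3 y' a2 a1 h12 h23 a3 hR1 hR3 (hx.symm _ _ hy1) hy1'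
      · have a3 : y' < v := by
          have := hs.2
          exact lt_of_bl_lt (s := i + 1) (by omega)
        exact hx.h1 y' v y u1 u u3 a3 a2 a1 h12 h23 (hx.symm _ _ hy1') hR1 hR3
          (hx.symm _ _ hy1)

end Pool.Agent.TH695.BC
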