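import Pool.Agent.TH695.BC.Topo

/-!
# Chords of a simple polygon
-/

namespace Pool.Agent.TH695.BC

open Vis124 Finset Topology Filter

variable {n : ℕ} {v : Fin n → ℝ × ℝ} {P : Set (ℝ × ℝ)}

/-- the vertices, indexed cyclically by the natural numbers -/
def vx (v : Fin n → ℝ × ℝ) (hn : 0 < n) (i : ℕ) : ℝ × ℝ := v ⟨i % n, Nat.mod_lt i hn⟩

lemma vx_add (hn : 0 < n) (i : ℕ) : vx v hn (i + n) = vx v hn i := by
  unfold vx
  congr 1
  apply Fin.ext
  simp

lemma vx_eq (h : IsSimplePolygon v P) (hn : 0 < n) {i j : ℕ} (he : vx v hn i = vx v hn j) :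
    i % n = j % n := by
  have := h.injective he
  exact congrArg Fin.val this

lemma rot_mod (hn : 0 < n) (i : ℕ) :
    finRotate n ⟨i % n, Nat.mod_lt i hn⟩ = ⟨(i + 1) % n, Nat.mod_lt _ hn⟩ := by
  apply Fin.ext
  have h1 : ((finRotate n ⟨i % n, Nat.mod_lt i hn⟩ : Fin n) : ℕ)
      = if i % n + 1 < n then i % n + 1 else 0 := sc_val
  rw [h1]
  have h2 := Nat.mod_lt i hn
  have h3 : (i + 1) % n = (i % n + 1) % n := by rw [Nat.mod_add_mod]
  show _ = (i + 1) % n
  rw [h3]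
  split_ifs with h4
  · rw [Nat.mod_eq_of_lt h4]
  · have : i % n + 1 = n := by omega
    rw [this, Nat.mod_self]

lemma vx_succ (hn : 0 < n) (i : ℕ) :
    v (finRotate n ⟨i % n, Nat.mod_lt i hn⟩) = vx v hn (i + 1) := by
  rw [rot_mod hn]; rfl

lemma edge_mod (hn : 0 < n) (i : ℕ) :
    edge v ⟨i % n, Nat.mod_lt i hn⟩ = segment ℝ (vx v hn i) (vx v hn (i + 1)) := by
  unfold edge
  rw [vx_succ (v := v) hn i]; rfl

lemma seg_subset (h : IsSimplePolygon v P) (hn : 0 < n) (i : ℕ) :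
    segment ℝ (vx v hn i) (vx v hn (i + 1)) ⊆ P := by
  rw [← edge_mod]
  exact (Set.subset_iUnion (edge v) _).trans (curve_subset h)

lemma vx_mem_curve (hn : 0 < n) (i : ℕ) : vx v hn i ∈ curve v :=
  Set.mem_iUnion.2 ⟨_, vertex_mem_edge _⟩

/-- two different edges meet in common endpoints only -/
lemma seg_inter (h : IsSimplePolygon v P) (hn : 0 < n) {i j : ℕ} (hij : i % n ≠ j % n)
    {z : ℝ × ℝ} (hi : z ∈ segment ℝ (vx v hn i) (vx v hn (i + 1)))
    (hj : z ∈ segment ℝ (vx v hn j) (vx v hn (j + 1))) :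
    (z = vx v hn i ∨ z = vx v hn (i + 1)) ∧ (z = vx v hn j ∨ z = vx v hn (j + 1)) := by
  rw [← edge_mod] at hi hj
  have h1 := h.simple ⟨i % n, Nat.mod_lt i hn⟩ ⟨j % n, Nat.mod_lt j hn⟩
    (fun he => hij (congrArg Fin.val he)) ⟨hi, hj⟩
  rw [vx_succ (v := v) hn i, vx_succ (v := v) hn j] at h1
  exact h1

lemma curve_mem (hn : 0 < n) (p : ℕ) {z : ℝ × ℝ} (hz : z ∈ curve v) :
    ∃ i, p ≤ i ∧ i < p + n ∧ z ∈ segment ℝ (vx v hn i) (vx v hn (i + 1)) := by
  obtain ⟨k, hk⟩ := Set.mem_iUnion.mp hz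
  induction p with
  | zero =>
    refine ⟨k, Nat.zero_le _, by have := k.2; omega, ?_⟩
    rw [← edge_mod]
    have : (⟨(k : ℕ) % n, Nat.mod_lt _ hn⟩ : Fin n) = k := by
      apply Fin.ext; exact Nat.mod_eq_of_lt k.2
    rw [this]; exact hk
  | succ p ih =>
    obtain ⟨i, h1, h2, h3⟩ := ih
    rcases h1.eq_or_lt with h4 | h4
    · refine ⟨i + n, by omega, by omega, ?_⟩
      have : i + n + 1 = i + 1 + n := by ring
      rw [this, vx_add, vx_add]; exact h3
    · exact ⟨i, by omega, by omega, h3⟩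

/-- congruence bookkeeping -/
lemma mod_ne {i j : ℕ} (h1 : i < j) (h2 : j < i + n) : i % n ≠ j % n := by
  intro he
  have h3 : n ∣ j - i := (Nat.modEq_iff_dvd' h1.le).mp he
  have := Nat.le_of_dvd (by omega) h3
  omega

/-- a point of the curve other than `vx p`, `vx q` is on one of the two chains only -/
lemma one_off (h : IsSimplePolygon v P) (hn : 0 < n) {p q : ℕ}
    {z : ℝ × ℝ} (h1 : z ≠ vx v hn p) (h2 : z ≠ vx v hn q) :
    (∀ i ∈ Ico p q, z ∉ segment ℝ (vx v hn i) (vx v hn (i + 1))) ∨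
    (∀ i ∈ Ico q (p + n), z ∉ segment ℝ (vx v hn i) (vx v hn (i + 1))) := by
  by_contra hc
  push Not at hc
  obtain ⟨⟨i, hi, hzi⟩, ⟨j, hj, hzj⟩⟩ := hc
  rw [mem_Ico] at hi hj
  have hij : i % n ≠ j % n := mod_ne (by omega) (by omega)
  obtain ⟨a1, a2⟩ := seg_inter h hn hij hzi hzj
  rcases a1 with a1 | a1 <;> rcases a2 with a2 | a2
  · exact hij (vx_eq h hn (a1.symm.trans a2))
  · by_cases hj1 : j + 1 = p + n
    · apply h1
      rw [a2, hj1, vx_add]
    · exact mod_ne (n := n) (i := i) (j := j + 1) (by omega) (by omega)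
        (vx_eq h hn (a1.symm.trans a2))
  · by_cases hj1 : i + 1 = j
    · apply h2
      rw [a2]
      congr 1; omega
    · exact mod_ne (n := n) (i := i + 1) (j := j) (by omega) (by omega)
        (vx_eq h hn (a1.symm.trans a2))
  · exact mod_ne (n := n) (i := i + 1) (j := j + 1) (by omega) (by omega)
        (vx_eq h hn (a1.symm.trans a2))

/-- a vertex strictly inside one chain is not on the other chain -/
lemma vertex_off (h : IsSimplePolygon v P) (hn : 0 < n) {q r m : ℕ} (h1 : r < q)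
    (h2 : m < r + n) :
    ∀ i ∈ Ico q m, vx v hn r ∉ segment ℝ (vx v hn i) (vx v hn (i + 1)) := by
  intro i hi hm
  rw [mem_Ico] at hi
  have hr : vx v hn r ∈ segment ℝ (vx v hn r) (vx v hn (r + 1)) := left_mem_segment _ _ _
  have hir : r % n ≠ i % n := mod_ne (by omega) (by omega)
  rcases (seg_inter h hn hir hr hm).2 with a | a
  · exact hir (vx_eq h hn a)
  · exact mod_ne (n := n) (i := r) (j := i + 1) (by omega) (by omega) (vx_eq h hn a)

/-! ### The two closed curves of a chord -/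

/-- endpoint function of the closed curve of the chain from `p` to `q` and the chord -/
def tq (v : Fin n → ℝ × ℝ) (hn : 0 < n) (p q i : ℕ) : ℝ × ℝ :=
  if i = q then vx v hn p else vx v hn (i + 1)

/-- winding sum of the chain from `p` to `q` closed by the chord -/
noncomputable def Wc (v : Fin n → ℝ × ℝ) (hn : 0 < n) (p q : ℕ) (x : ℝ × ℝ) : ℝ :=
  Wn (Ico p (q + 1)) (vx v hn) (tq v hn p q) x

lemma sum_tq {A : Type} [AddCommMonoid A] (hn : 0 < n) {p q : ℕ} (hpq : p ≤ q)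
    (g : (ℝ × ℝ) → (ℝ × ℝ) → A) :
    ∑ i ∈ Ico p (q + 1), g (vx v hn i) (tq v hn p q i)
      = ∑ i ∈ Ico p q, g (vx v hn i) (vx v hn (i + 1)) + g (vx v hn q) (vx v hn p) := by
  rw [sum_Ico_succ_top hpq]
  congr 1
  · apply sum_congr rfl
    intro i hi
    rw [mem_Ico] at hi
    unfold tq
    rw [if_neg (by omega)]
  · unfold tq; rw [if_pos rfl]

lemma isCyc_c (hn : 0 < n) {p q : ℕ} (hpq : p ≤ q) :
    IsCyc (Ico p (q + 1)) (vx v hn) (tq v hn p q) := by
  intro A _ g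
  rw [sum_tq hn hpq fun _ b => g b]
  rw [sum_Ico_add' (fun i => g (vx v hn i)) p q 1]
  rw [sum_eq_sum_Ico_succ_bot (by omega), add_comm]

lemma Wc_eq (hn : 0 < n) {p q : ℕ} (hpq : p ≤ q) (x : ℝ × ℝ) :
    Wc v hn p q x = ∑ i ∈ Ico p q, ang (vx v hn i) (vx v hn (i + 1)) x
      + ang (vx v hn q) (vx v hn p) x :=
  sum_tq hn hpq fun a b => ang a b x

lemma sum_bdry (hn : 0 < n) (p : ℕ) (x : ℝ × ℝ) :
    ∑ i ∈ Ico p (p + n), ang (vx v hn i) (vx v hn (i + 1)) x
      = Wn (univ : Finset (Fin n)) v (fun k => v (finRotate n k)) x := by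
  induction p with
  | zero =>
    rw [zero_add, ← range_eq_Ico, sum_range]
    unfold Wn
    apply sum_congr rfl
    intro k _
    have h1 : (⟨(k : ℕ) % n, Nat.mod_lt _ hn⟩ : Fin n) = k := by
      apply Fin.ext; exact Nat.mod_eq_of_lt k.2
    rw [← vx_succ (v := v) hn k, h1]
    unfold vx
    rw [h1]
  | succ p ih =>
    rw [← ih]
    have h1 : p + 1 + n = p + n + 1 := by ring
    rw [h1, sum_Ico_succ_top (by omega), sum_eq_sum_Ico_succ_bot (show p < p + n by omega)]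
    have h2 : p + n + 1 = p + 1 + n := by ring
    rw [vx_add, h2, vx_add, add_comm]

lemma Wc_add (hn : 0 < n) {p q : ℕ} (hpq : p ≤ q) (hqn : q ≤ p + n) {x : ℝ × ℝ}
    (hx : x ∉ segment ℝ (vx v hn p) (vx v hn q)) :
    Wc v hn p q x + Wc v hn q (p + n) x
      = Wn (univ : Finset (Fin n)) v (fun k => v (finRotate n k)) x := by
  rw [Wc_eq hn hpq, Wc_eq hn hqn, vx_add, ← sum_bdry hn p x, ← sum_Ico_consecutive _ hpq hqn,
    ang_swap hx]
  ring

/-- the curve of the chord lies in the polygon -/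
lemma cyc_subset (h : IsSimplePolygon v P) (hn : 0 < n) {p q : ℕ}
    (hS : segment ℝ (vx v hn p) (vx v hn q) ⊆ P) :
    ∀ i ∈ Ico p (q + 1), segment ℝ (vx v hn i) (tq v hn p q i) ⊆ P := by
  intro i _
  unfold tq
  split_ifs with hi
  · subst hi; rw [segment_symm]; exact hS
  · exact seg_subset h hn i

lemma Wc_ext (h : IsSimplePolygon v P) (hn : 0 < n) {p q : ℕ} (hpq : p ≤ q)
    (hS : segment ℝ (vx v hn p) (vx v hn q) ⊆ P) {x : ℝ × ℝ} (hx : x ∉ P) :
    Wc v hn p q x = 0 :=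
  W_ext h (isCyc_c hn hpq) (cyc_subset h hn hS) hx

lemma off_cyc (hn : 0 < n) {p q : ℕ} {z : ℝ × ℝ}
    (hzS : z ∉ segment ℝ (vx v hn p) (vx v hn q))
    (hoff : ∀ i ∈ Ico p q, z ∉ segment ℝ (vx v hn i) (vx v hn (i + 1))) :
    ∀ i ∈ Ico p (q + 1), z ∉ segment ℝ (vx v hn i) (tq v hn p q i) := by
  intro i hi
  rw [mem_Ico] at hi
  unfold tq
  split_ifs with hi2
  · subst hi2; rw [segment_symm]; exact hzS
  · exact hoff i (mem_Ico.mpr ⟨hi.1, by omega⟩)

/-- near a point of the curve which is not on the closed curve of the chord, the winding sum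
vanishes -/
lemma near_off (h : IsSimplePolygon v P) (hn : 0 < n) {p q : ℕ} (hpq : p ≤ q)
    (hS : segment ℝ (vx v hn p) (vx v hn q) ⊆ P) {z : ℝ × ℝ} (hz : z ∈ curve v)
    (hzS : z ∉ segment ℝ (vx v hn p) (vx v hn q))
    (hoff : ∀ i ∈ Ico p q, z ∉ segment ℝ (vx v hn i) (vx v hn (i + 1))) :
    ∃ δ > 0, ∀ x ∈ Metric.ball z δ, Wc v hn p q x = 0 := by
  obtain ⟨δ, hδ, hb⟩ := W_local (isCyc_c hn hpq) (off_cyc hn hzS hoff)
  refine ⟨δ, hδ, ?_⟩
  rw [← h.boundary, frontier_eq_closure_inter_closure] at hz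
  obtain ⟨y, hy, hd⟩ := Metric.mem_closure_iff.1 hz.2 δ hδ
  have h1 := hb y (by rw [Metric.mem_ball, dist_comm]; exact hd)
  have h2 := Wc_ext h hn hpq hS hy
  intro x hx
  have h3 := hb x hx
  unfold Wc at h2 ⊢
  rw [h3, ← h1, h2]

/-- the curve of the chord and the open polygon minus the chord -/
lemma int_off (h : IsSimplePolygon v P) (hn : 0 < n) {x : ℝ × ℝ} (hx : x ∈ interior P) (i : ℕ) :
    x ∉ segment ℝ (vx v hn i) (vx v hn (i + 1)) := by
  intro hm
  rw [← edge_mod] at hm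
  have : x ∈ frontier P := by rw [h.boundary]; exact Set.mem_iUnion.2 ⟨_, hm⟩
  exact this.2 hx

/-- shooting at a point of the curve -/
lemma shoot (h : IsSimplePolygon v P) (hn : 0 < n) {p q : ℕ} (hpq : p ≤ q)
    (hS : segment ℝ (vx v hn p) (vx v hn q) ⊆ P) {x u : ℝ × ℝ} {ts : ℝ} (hts : 0 < ts)
    (hint : ∀ t : ℝ, 0 ≤ t → t < ts → x + t • u ∈ interior P)
    (hray : ∀ t : ℝ, 0 ≤ t → x + t • u ∉ segment ℝ (vx v hn p) (vx v hn q))
    (hz : x + ts • u ∈ curve v)
    (hoff : ∀ i ∈ Ico p q, x + ts • u ∉ segment ℝ (vx v hn i) (vx v hn (i + 1))) :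
    Wc v hn p q x = 0 := by
  obtain ⟨δ, hδ, hb⟩ := near_off h hn hpq hS hz (hray ts hts.le) hoff
  set S' : Set (ℝ × ℝ) := (fun t : ℝ => x + t • u) '' Set.Ico 0 ts with hS'
  have hc : IsPreconnected S' := isPreconnected_Ico.image _ (by fun_prop)
  have hcont : Continuous fun t : ℝ => x + t • u := by fun_prop
  have hnear : ∀ᶠ t in 𝓝 ts, x + t • u ∈ Metric.ball (x + ts • u) δ :=
    hcont.continuousAt (Metric.ball_mem_nhds _ hδ)
  obtain ⟨ε, hε, he⟩ := Metric.eventually_nhds_iff.mp hnear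
  set t0 := max (ts / 2) (ts - ε / 2) with ht0
  have h0 : 0 < t0 := lt_of_lt_of_le (by linarith) (le_max_left _ _)
  have h1 : t0 < ts := max_lt (by linarith) (by linarith)
  have h2 : ts - ε / 2 ≤ t0 := le_max_right _ _
  have h3 : x + t0 • u ∈ Metric.ball (x + ts • u) δ := by
    apply he
    rw [Real.dist_eq, abs_lt]
    constructor <;> linarith
  have h4 := hb _ h3
  rw [← h4]
  unfold Wc
  apply W_const (isCyc_c hn hpq) hc _ ⟨0, ⟨le_rfl, hts⟩, by simp⟩ ⟨t0, ⟨h0.le, h1⟩, rfl⟩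
  intro i hi
  rw [Set.disjoint_left]
  rintro _ ⟨t, ⟨ht1, ht2⟩, rfl⟩
  exact off_cyc hn (hray t ht1) (fun i _ => int_off h hn (hint t ht1 ht2) i) i hi

/-- the first point of the curve on a ray from an interior point -/
lemma exists_hit (h : IsSimplePolygon v P) {x u : ℝ × ℝ} (hx : x ∈ interior P) (hu : u ≠ 0) :
    ∃ ts : ℝ, 0 < ts ∧ (∀ t : ℝ, 0 ≤ t → t < ts → x + t • u ∈ interior P) ∧
      x + ts • u ∈ curve v := by
  have hcont : Continuous fun t : ℝ => x + t • u := by fun_prop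
  set T : Set ℝ := Set.Ici 0 ∩ (fun t : ℝ => x + t • u) ⁻¹' curve v with hT
  have hTc : IsClosed T := isClosed_Ici.inter (isCompact_curve.isClosed.preimage hcont)
  have hTb : BddBelow T := ⟨0, fun t ht => ht.1⟩
  have hTne : T.Nonempty := by
    by_contra hne
    rw [Set.not_nonempty_iff_eq_empty] at hne
    have hd : Disjoint ((fun t : ℝ => x + t • u) '' Set.Ici 0) (curve v) := by
      rw [Set.disjoint_left]
      rintro _ ⟨t, ht, rfl⟩ hm
      have : t ∈ T := ⟨ht, hm⟩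
      rw [hne] at this; exact this
    have hsub := absorbs_int h _ (isPreconnected_Ici.image _ hcont.continuousOn) hd
      ⟨x, ⟨0, Set.self_mem_Ici, by simp⟩, hx⟩
    obtain ⟨R, hR⟩ := h.compact.isBounded.exists_norm_le
    have hu0 : 0 < ‖u‖ := norm_pos_iff.mpr hu
    have hR0 : 0 ≤ R := (norm_nonneg x).trans (hR x (interior_subset hx))
    set t : ℝ := (R + ‖x‖ + 1) / ‖u‖ with ht
    have ht0 : 0 ≤ t := by positivity
    have h1 := hR _ (interior_subset (hsub ⟨t, ht0, rfl⟩))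
    have h2 : ‖t • u‖ ≤ ‖x + t • u‖ + ‖x‖ := by
      have := norm_sub_le (x + t • u) x
      rwa [add_sub_cancel_left] at this
    rw [norm_smul, Real.norm_of_nonneg ht0, ht, div_mul_cancel₀ _ hu0.ne'] at h2
    simp only at h1
    rw [← ht] at h2
    linarith
  have hts := hTc.csInf_mem hTne hTb
  set ts := sInf T with hts'
  have hlt : ∀ t : ℝ, 0 ≤ t → t < ts → x + t • u ∉ curve v := by
    intro t h0 h1 hm
    exact absurd (csInf_le hTb (show t ∈ T from ⟨h0, hm⟩)) (not_le.mpr h1)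
  have hxc : x ∉ curve v := fun hm => by rw [← h.boundary] at hm; exact hm.2 hx
  have hpos : 0 < ts := by
    rcases (show 0 ≤ ts from hts.1).lt_or_eq with h1 | h1
    · exact h1
    · exfalso
      have := hts.2
      rw [← h1] at this
      simp only [Set.mem_preimage, zero_smul, add_zero] at this
      exact hxc this
  refine ⟨ts, hpos, ?_, hts.2⟩
  have hd : Disjoint ((fun t : ℝ => x + t • u) '' Set.Ico 0 ts) (curve v) := by
    rw [Set.disjoint_left]
    rintro _ ⟨t, ⟨ht, ht'⟩, rfl⟩ hm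
    exact hlt t ht ht' hm
  have hsub := absorbs_int h _ (isPreconnected_Ico.image _ hcont.continuousOn) hd
      ⟨x, ⟨0, ⟨le_rfl, hpos⟩, by simp⟩, hx⟩
  intro t h0 h1
  exact hsub ⟨t, ⟨h0, h1⟩, rfl⟩

/-- a ray pointing away from a point of a convex set does not meet the set -/
lemma ray_away {S : Set (ℝ × ℝ)} (hS : Convex ℝ S) {x y : ℝ × ℝ} (hy : y ∈ S) (hx : x ∉ S)
    {t : ℝ} (ht : 0 ≤ t) : x + t • (x - y) ∉ S := by
  intro hm
  apply hx
  have h1 : x = (1 / (1 + t)) • (x + t • (x - y)) + (t / (1 + t)) • y := by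
    have : (1 + t) ≠ 0 := by positivity
    ext
    · simp; field_simp; ring
    · simp; field_simp; ring
  rw [h1]
  apply hS hm hy (by positivity) (by positivity)
  field_simp

end Pool.Agent.TH695.BC
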