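import Pool.Agent.TH695.BC.Total

/-!
# Covering sets of a graph and the lower bound for graphs with a planted product of half graphs
-/

namespace Pool.Agent.TH695.BC

open Finset

/-- A covering set of a graph on `n` vertices: a finite family of cliques (given by their vertex
sets) and of bicliques (given by their two sides, disjoint and nonempty, with all edges between
them present), such that every edge of the graph lies in a member of the family. -/
structure CoveringSet {n : ℕ} (G : SimpleGraph (Fin n)) where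
  /-- the vertex sets of the cliques of the family -/
  cliques : Finset (Finset (Fin n))
  /-- the pairs of sides of the bicliques of the family -/
  bicliques : Finset (Finset (Fin n) × Finset (Fin n))
  clique_adj : ∀ C ∈ cliques, ∀ u ∈ C, ∀ v ∈ C, u ≠ v → G.Adj u v
  biclique_disjoint : ∀ S ∈ bicliques, Disjoint S.1 S.2
  biclique_nonempty : ∀ S ∈ bicliques, S.1.Nonempty ∧ S.2.Nonempty
  biclique_adj : ∀ S ∈ bicliques, ∀ u ∈ S.1, ∀ v ∈ S.2, G.Adj u v
  cover : ∀ u v, G.Adj u v → (∃ C ∈ cliques, u ∈ C ∧ v ∈ C) ∨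
    ∃ S ∈ bicliques, (u ∈ S.1 ∧ v ∈ S.2) ∨ (v ∈ S.1 ∧ u ∈ S.2)

/-- The total number of vertex names listed by a covering set. -/
def CoveringSet.size {n : ℕ} {G : SimpleGraph (Fin n)} (C : CoveringSet G) : ℕ :=
  ∑ c ∈ C.cliques, c.card + ∑ S ∈ C.bicliques, (S.1.card + S.2.card)

/-- The bit count of a covering set: each listed vertex name uses `⌈log₂ n⌉` bits. -/
def CoveringSet.bits {n : ℕ} {G : SimpleGraph (Fin n)} (C : CoveringSet G) : ℕ :=
  Nat.clog 2 n * C.size

/-- The minimum bit count of a covering set of `G`. -/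
noncomputable def beta {n : ℕ} (G : SimpleGraph (Fin n)) : ℕ :=
  sInf {b | ∃ C : CoveringSet G, b = C.bits}

section Planted

variable {n m : ℕ} (U V : ℕ × ℕ → Fin n)

/-- preimage of a vertex set -/
def pre (m : ℕ) (U : ℕ × ℕ → Fin n) (X : Finset (Fin n)) : Finset (ℕ × ℕ) :=
  (range m ×ˢ range m).filter fun p => U p ∈ X

lemma pre_card_add (hU : Set.InjOn U (range m ×ˢ range m : Finset (ℕ × ℕ)))
    (hV : Set.InjOn V (range m ×ˢ range m : Finset (ℕ × ℕ)))
    (hd : ∀ p ∈ range m ×ˢ range m, ∀ q ∈ range m ×ˢ range m, U p ≠ V q)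
    (X : Finset (Fin n)) : (pre m U X).card + (pre m V X).card ≤ X.card := by
  classical
  have h1 : ((pre m U X).image U).card = (pre m U X).card := by
    apply card_image_of_injOn
    intro p hp q hq h
    rw [mem_coe, pre, mem_filter] at hp hq
    exact hU (mem_coe.mpr hp.1) (mem_coe.mpr hq.1) h
  have h2 : ((pre m V X).image V).card = (pre m V X).card := by
    apply card_image_of_injOn
    intro p hp q hq h
    rw [mem_coe, pre, mem_filter] at hp hq
    exact hV (mem_coe.mpr hp.1) (mem_coe.mpr hq.1) h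
  have h3 : Disjoint ((pre m U X).image U) ((pre m V X).image V) := by
    rw [disjoint_left]
    intro a ha hb
    rw [mem_image] at ha hb
    obtain ⟨p, hp, rfl⟩ := ha
    obtain ⟨q, hq, hqe⟩ := hb
    rw [pre, mem_filter] at hp hq
    exact hd p hp.1 q hq.1 hqe.symm
  have h4 : ((pre m U X).image U) ∪ ((pre m V X).image V) ⊆ X := by
    intro a ha
    rw [mem_union, mem_image, mem_image] at ha
    rcases ha with ⟨p, hp, rfl⟩ | ⟨p, hp, rfl⟩ <;>
    · rw [pre, mem_filter] at hp
      exact hp.2
  rw [← h1, ← h2, ← card_union_of_disjoint h3]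
  exact card_le_card h4

/-- weight of the pairs covered by `X × Y` -/
noncomputable def Q (m : ℕ) (U V : ℕ × ℕ → Fin n) (X Y : Finset (Fin n)) : ℝ :=
  ∑ p ∈ range m ×ˢ range m, ∑ q ∈ range m ×ˢ range m,
    if U p ∈ X ∧ V q ∈ Y then W m p q else 0

lemma Q_le (X Y : Finset (Fin n))
    (h : ∀ p ∈ range m ×ˢ range m, ∀ q ∈ range m ×ˢ range m, U p ∈ X → V q ∈ Y → rel m p q) :
    Q m U V X Y ≤ 8 * (((pre m U X).card : ℝ) + (pre m V Y).card) := by
  have e : Q m U V X Y = ∑ p ∈ pre m U X, ∑ q ∈ pre m V Y, W m p q := by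
    unfold Q pre
    rw [sum_filter]
    refine sum_congr rfl fun p _ => ?_
    by_cases hp : U p ∈ X
    · simp only [hp, true_and, if_true]
      rw [sum_filter]
    · simp [hp]
  rw [e]
  apply biclique_weight m _ _ (filter_subset _ _) (filter_subset _ _)
  intro p hp q hq
  have hp' := mem_filter.mp hp
  have hq' := mem_filter.mp hq
  exact h p hp'.1 q hq'.1 hp'.2 hq'.2

/-- Every covering set of a graph with a planted product of two half graphs is large. -/
theorem size_ge_of_planted (hm : 3 ≤ m) (G : SimpleGraph (Fin n))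
    (hU : Set.InjOn U (range m ×ˢ range m : Finset (ℕ × ℕ)))
    (hV : Set.InjOn V (range m ×ˢ range m : Finset (ℕ × ℕ)))
    (hd : ∀ p ∈ range m ×ˢ range m, ∀ q ∈ range m ×ˢ range m, U p ≠ V q)
    (hadj : ∀ p ∈ range m ×ˢ range m, ∀ q ∈ range m ×ˢ range m,
      (G.Adj (U p) (V q) ↔ rel m p q)) (C : CoveringSet G) :
    ((m : ℝ) * (Real.log m - 1)) ^ 2 ≤ 8 * (C.size : ℝ) := by
  classical
  refine (total_weight_ge m hm).trans ?_
  have h1 : ∑ p ∈ range m ×ˢ range m, ∑ q ∈ range m ×ˢ range m, W m p q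
      ≤ ∑ c ∈ C.cliques, Q m U V c c
        + ∑ S ∈ C.bicliques, (Q m U V S.1 S.2 + Q m U V S.2 S.1) := by
    have e1 : ∑ c ∈ C.cliques, Q m U V c c = ∑ p ∈ range m ×ˢ range m,
        ∑ q ∈ range m ×ˢ range m, ∑ c ∈ C.cliques,
          if U p ∈ c ∧ V q ∈ c then W m p q else 0 := by
      unfold Q
      rw [sum_comm]
      refine sum_congr rfl fun p _ => ?_
      rw [sum_comm]
    have e2 : ∑ S ∈ C.bicliques, (Q m U V S.1 S.2 + Q m U V S.2 S.1)
        = ∑ p ∈ range m ×ˢ range m, ∑ q ∈ range m ×ˢ range m, ∑ S ∈ C.bicliques,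
          ((if U p ∈ S.1 ∧ V q ∈ S.2 then W m p q else 0)
            + (if U p ∈ S.2 ∧ V q ∈ S.1 then W m p q else 0)) := by
      unfold Q
      simp only [← sum_add_distrib]
      rw [sum_comm]
      refine sum_congr rfl fun p _ => ?_
      rw [sum_comm]
    rw [e1, e2, ← sum_add_distrib]
    apply sum_le_sum
    intro p hp
    rw [← sum_add_distrib]
    apply sum_le_sum
    intro q hq
    have n1 : 0 ≤ ∑ c ∈ C.cliques, (if U p ∈ c ∧ V q ∈ c then W m p q else 0) :=
      sum_nonneg fun c _ => by split_ifs <;> simp [W_nonneg]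
    have n2 : 0 ≤ ∑ S ∈ C.bicliques,
          ((if U p ∈ S.1 ∧ V q ∈ S.2 then W m p q else 0)
            + (if U p ∈ S.2 ∧ V q ∈ S.1 then W m p q else 0)) :=
      sum_nonneg fun c _ => add_nonneg (by split_ifs <;> simp [W_nonneg])
        (by split_ifs <;> simp [W_nonneg])
    by_cases hr : rel m p q
    · rcases C.cover _ _ ((hadj p hp q hq).mpr hr) with ⟨c, hc, hpc, hqc⟩ | ⟨S, hS, hS'⟩
      · have h2 : W m p q ≤ ∑ c ∈ C.cliques, (if U p ∈ c ∧ V q ∈ c then W m p q else 0) := by
          have := single_le_sum (s := C.cliques)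
            (f := fun c => if U p ∈ c ∧ V q ∈ c then W m p q else 0)
            (fun c _ => by split_ifs <;> simp [W_nonneg]) hc
          simpa [hpc, hqc] using this
        linarith
      · have h2 : W m p q ≤ ∑ S ∈ C.bicliques,
            ((if U p ∈ S.1 ∧ V q ∈ S.2 then W m p q else 0)
            + (if U p ∈ S.2 ∧ V q ∈ S.1 then W m p q else 0)) := by
          have h3 := single_le_sum (s := C.bicliques)
            (f := fun S => (if U p ∈ S.1 ∧ V q ∈ S.2 then W m p q else 0)
            + (if U p ∈ S.2 ∧ V q ∈ S.1 then W m p q else 0))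
            (fun c _ => add_nonneg (by split_ifs <;> simp [W_nonneg])
              (by split_ifs <;> simp [W_nonneg])) hS
          refine le_trans ?_ h3
          rcases hS' with ⟨ha, hb⟩ | ⟨ha, hb⟩
          · rw [if_pos ⟨ha, hb⟩]
            have : 0 ≤ (if U p ∈ S.2 ∧ V q ∈ S.1 then W m p q else 0) := by
              split_ifs <;> simp [W_nonneg]
            linarith
          · rw [if_pos (show U p ∈ S.2 ∧ V q ∈ S.1 from ⟨hb, ha⟩)]
            have : 0 ≤ (if U p ∈ S.1 ∧ V q ∈ S.2 then W m p q else 0) := by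
              split_ifs <;> simp [W_nonneg]
            linarith
        linarith
    · have : W m p q = 0 := by unfold W; rw [if_neg hr]
      rw [this] at n1 n2 ⊢
      linarith
  refine h1.trans ?_
  have h2 : ∀ c ∈ C.cliques, Q m U V c c ≤ 8 * (c.card : ℝ) := by
    intro c hc
    have h3 := Q_le (m := m) U V c c (fun p hp q hq h4 h5 =>
      (hadj p hp q hq).mp (C.clique_adj c hc _ h4 _ h5 (hd p hp q hq)))
    have h4 := pre_card_add U V hU hV hd c
    have h5 : ((pre m U c).card : ℝ) + (pre m V c).card ≤ c.card := by exact_mod_cast h4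
    linarith
  have h3 : ∀ S ∈ C.bicliques, Q m U V S.1 S.2 + Q m U V S.2 S.1
      ≤ 8 * ((S.1.card : ℝ) + S.2.card) := by
    intro S hS
    have h4 := Q_le (m := m) U V S.1 S.2 (fun p hp q hq h4 h5 =>
      (hadj p hp q hq).mp (C.biclique_adj S hS _ h4 _ h5))
    have h5 := Q_le (m := m) U V S.2 S.1 (fun p hp q hq h4 h5 =>
      (hadj p hp q hq).mp ((C.biclique_adj S hS _ h5 _ h4).symm))
    have h6 := pre_card_add U V hU hV hd S.1
    have h7 := pre_card_add U V hU hV hd S.2
    have h8 : ((pre m U S.1).card : ℝ) + (pre m V S.1).card ≤ S.1.card := by exact_mod_cast h6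
    have h9 : ((pre m U S.2).card : ℝ) + (pre m V S.2).card ≤ S.2.card := by exact_mod_cast h7
    linarith
  have h4 := sum_le_sum h2
  have h5 := sum_le_sum h3
  unfold CoveringSet.size
  push_cast
  rw [mul_add, mul_sum, mul_sum]
  linarith

end Planted

end Pool.Agent.TH695.BC
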