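import Pool.Agent.TH695.BC.MonoPoly
import Pool.Agent.TH695.BC.Cover

/-!
# The double comb: a simple polygon whose visibility graph contains a product of half graphs
-/

namespace Pool.Agent.TH695.BC

open Set Vis124

/-- visibility in a monotone polygon -/
lemma seg_region {L : ℕ} {G H : ℕ → ℝ} (a b : ℕ) (hab : a < b) (hb : b ≤ L) (ya yb : ℝ) :
    segment ℝ ((a : ℝ), ya) ((b : ℝ), yb) ⊆ region L (pl G L) (pl H L) ↔
      ∀ k : ℕ, a ≤ k → k ≤ b → G k ≤ ya + (k - a) / (b - a) * (yb - ya) ∧
        ya + (k - a) / (b - a) * (yb - ya) ≤ H k := by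
  have hab' : (a : ℝ) < b := by exact_mod_cast hab
  have hb' : (b : ℝ) ≤ L := by exact_mod_cast hb
  constructor
  · intro h k h1 h2
    have h1' : (a : ℝ) ≤ k := by exact_mod_cast h1
    have h2' : (k : ℝ) ≤ b := by exact_mod_cast h2
    have h3 : (((k : ℝ), ya + (k - a) / (b - a) * (yb - ya)) : ℝ × ℝ) ∈
        segment ℝ ((a : ℝ), ya) ((b : ℝ), yb) := by
      rw [mem_seg hab']
      exact ⟨h1', h2', rfl⟩
    have h4 := h h3
    obtain ⟨-, -, h5, h6⟩ := h4
    simp only at h5 h6
    rw [pl_nat G L k (by omega)] at h5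
    rw [pl_nat H L k (by omega)] at h6
    exact ⟨h5, h6⟩
  · intro h p hp
    rw [mem_seg hab'] at hp
    obtain ⟨h1, h2, h3⟩ := hp
    obtain ⟨k, hk1, hk2, hk3, hk4⟩ := exists_unit a b hab p.1 h1 h2
    have e1 := h k hk1 hk2.le
    have e2 := h (k + 1) (by omega) hk2
    have hba : 0 < (b : ℝ) - a := by linarith
    refine ⟨(Nat.cast_nonneg a).trans h1, by linarith, ?_, ?_⟩
    · rw [pl_eq G L k (by omega) p.1 hk3 hk4, h3]
      obtain ⟨f1, -⟩ := e1
      obtain ⟨f2, -⟩ := e2
      push_cast at f2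
      have e3 : ya + (p.1 - a) / (b - a) * (yb - ya) =
          (1 - (p.1 - k)) * (ya + (k - a) / (b - a) * (yb - ya)) +
          (p.1 - k) * (ya + (k + 1 - a) / (b - a) * (yb - ya)) := by
        field_simp
        ring
      rw [e3]
      have e4 : G k + (p.1 - k) * (G (k + 1) - G k) =
          (1 - (p.1 - k)) * G k + (p.1 - k) * G (k + 1) := by ring
      rw [e4]
      apply add_le_add
      · exact mul_le_mul_of_nonneg_left f1 (by linarith)
      · exact mul_le_mul_of_nonneg_left f2 (by linarith)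
    · rw [pl_eq H L k (by omega) p.1 hk3 hk4, h3]
      obtain ⟨-, f1⟩ := e1
      obtain ⟨-, f2⟩ := e2
      push_cast at f2
      have e3 : ya + (p.1 - a) / (b - a) * (yb - ya) =
          (1 - (p.1 - k)) * (ya + (k - a) / (b - a) * (yb - ya)) +
          (p.1 - k) * (ya + (k + 1 - a) / (b - a) * (yb - ya)) := by
        field_simp
        ring
      rw [e3]
      have e4 : H k + (p.1 - k) * (H (k + 1) - H k) =
          (1 - (p.1 - k)) * H k + (p.1 - k) * H (k + 1) := by ring
      rw [e4]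
      apply add_le_add
      · exact mul_le_mul_of_nonneg_left f1 (by linarith)
      · exact mul_le_mul_of_nonneg_left f2 (by linarith)

/-- the blocking parameter of the tooth `i` -/
def cc (m i : ℕ) : ℕ := 2 * (m * (m - i % m))

/-- the reciprocal depth of the lip of the tooth `i` -/
noncomputable def den (m i : ℕ) : ℝ := 6 * (m : ℝ) ^ 2 - cc m i - 2 * i

/-- heights of the upper comb -/
noncomputable def upH (m x : ℕ) : ℝ :=
  if x % 2 = 0 then 1 else if x < 2 * m ^ 2 then 1 - 1 / den m (x / 2) else 2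

/-- heights of the lower comb -/
noncomputable def loG (m x : ℕ) : ℝ :=
  if x ≤ 6 * m ^ 2 then 1 - upH m (6 * m ^ 2 - x) else if x % 2 = 0 then 0 else -1

lemma cc_le (m i : ℕ) : cc m i ≤ 2 * m ^ 2 := by
  unfold cc
  have h : m * (m - i % m) ≤ m * m := Nat.mul_le_mul_left m (Nat.sub_le _ _)
  nlinarith

lemma den_ge (m i : ℕ) (hi : i < m ^ 2) : 2 * (m : ℝ) ^ 2 ≤ den m i := by
  unfold den
  have h1 : ((cc m i : ℕ) : ℝ) ≤ 2 * (m : ℝ) ^ 2 := by exact_mod_cast cc_le m i
  have h2 : (i : ℝ) ≤ (m : ℝ) ^ 2 := by exact_mod_cast hi.le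
  linarith

lemma upH_even (m x : ℕ) (h : x % 2 = 0) : upH m x = 1 := by
  unfold upH; rw [if_pos h]

lemma upH_ge_half (m x : ℕ) (hm : 1 ≤ m) : 1 / 2 ≤ upH m x := by
  unfold upH
  split_ifs with h1 h2
  · norm_num
  · have h3 := den_ge m (x / 2) (by omega)
    have h4 : (1 : ℝ) ≤ m := by exact_mod_cast hm
    have h5 : 2 ≤ den m (x / 2) := by nlinarith
    have h6 : 1 / den m (x / 2) ≤ 1 / 2 := one_div_le_one_div_of_le (by norm_num) h5
    linarith
  · norm_num

lemma upH_ge_one (m x : ℕ) (hx : 2 * m ^ 2 ≤ x) : 1 ≤ upH m x := by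
  unfold upH
  rw [if_neg (by omega : ¬ x < 2 * m ^ 2)]
  split_ifs <;> norm_num

lemma loG_le_half (m x : ℕ) (hm : 1 ≤ m) : loG m x ≤ 1 / 2 := by
  unfold loG
  split_ifs with h1 h2
  · have := upH_ge_half m (6 * m ^ 2 - x) hm
    linarith
  · norm_num
  · norm_num

lemma loG_le_zero (m x : ℕ) (hx : x < 2 * m ^ 2) : loG m x ≤ 0 := by
  unfold loG
  rw [if_pos (by omega)]
  have := upH_ge_one m (6 * m ^ 2 - x) (by omega)
  linarith

/-- the exact visibility condition at the lips of one comb -/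
lemma comb_cond (m i j : ℕ) (hi : i < m ^ 2) (hj : j < m ^ 2) (d : ℝ)
    (hd : d = 6 * (m : ℝ) ^ 2 - 2 * j - 2 * i) :
    (∀ k : ℕ, 2 * i ≤ k → k ≤ 6 * m ^ 2 - 2 * j → 1 - ((k : ℝ) - 2 * i) / d ≤ upH m k)
      ↔ cc m i ≤ 2 * j := by
  have hi' : (i : ℝ) + 1 ≤ (m : ℝ) ^ 2 := by exact_mod_cast hi
  have hj' : (j : ℝ) + 1 ≤ (m : ℝ) ^ 2 := by exact_mod_cast hj
  have hi0 : (0 : ℝ) ≤ i := Nat.cast_nonneg i
  have hj0 : (0 : ℝ) ≤ j := Nat.cast_nonneg j
  have hm1 : 1 ≤ m := by
    rcases Nat.eq_zero_or_pos m with h | h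
    · subst h; simp at hi
    · exact h
  have hm1' : (1 : ℝ) ≤ m := by exact_mod_cast hm1
  have hd0 : 0 < d := by rw [hd]; nlinarith
  constructor
  · intro h
    have h1 := h (2 * i + 1) (by omega) (by omega)
    have e : upH m (2 * i + 1) = 1 - 1 / den m i := by
      unfold upH
      rw [if_neg (by omega), if_pos (by omega)]
      have : (2 * i + 1) / 2 = i := by omega
      rw [this]
    rw [e] at h1
    push_cast at h1
    have e2 : (2 * (i : ℝ) + 1 - 2 * i) = 1 := by ring
    rw [e2] at h1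
    have hden : 0 < den m i := by
      have := den_ge m i hi
      nlinarith
    have h2 : 1 / den m i ≤ 1 / d := by linarith
    have h3 : d ≤ den m i := (one_div_le_one_div hden hd0).mp h2
    unfold den at h3
    rw [hd] at h3
    have h4 : ((cc m i : ℕ) : ℝ) ≤ ((2 * j : ℕ) : ℝ) := by push_cast; linarith
    exact_mod_cast h4
  · intro h k hk1 hk2
    have hk1' : 2 * (i : ℝ) ≤ k := by exact_mod_cast hk1
    have hle1 : 1 - ((k : ℝ) - 2 * i) / d ≤ 1 := by
      have : 0 ≤ ((k : ℝ) - 2 * i) / d := div_nonneg (by linarith) hd0.le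
      linarith
    by_cases hp : k % 2 = 0
    · rw [upH_even m k hp]; exact hle1
    · by_cases hk3 : k < 2 * m ^ 2
      · unfold upH
        rw [if_neg hp, if_pos hk3]
        obtain ⟨l, hl⟩ : ∃ l, k = 2 * l + 1 := ⟨k / 2, by omega⟩
        subst hl
        have hll : (2 * l + 1) / 2 = l := by omega
        rw [hll]
        have hlm : l < m ^ 2 := by omega
        have hdl := den_ge m l hlm
        have hdl0 : 0 < den m l := by nlinarith
        rcases Nat.lt_or_ge i l with h5 | h5
        · have h6 : (i : ℝ) + 1 ≤ l := by exact_mod_cast h5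
          have h7 : 1 / den m l ≤ 3 / d := by
            rw [div_le_div_iff₀ hdl0 hd0]
            rw [hd]
            linarith
          have h8 : 3 / d ≤ (((2 * l + 1 : ℕ) : ℝ) - 2 * i) / d := by
            apply div_le_div_of_nonneg_right _ hd0.le
            push_cast
            linarith
          linarith
        · have h6 : l = i := by omega
          subst h6
          have h7 : (((2 * l + 1 : ℕ) : ℝ) - 2 * l) = 1 := by push_cast; ring
          rw [h7]
          have h8 : ((cc m l : ℕ) : ℝ) ≤ 2 * j := by exact_mod_cast h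
          have h9 : d ≤ den m l := by unfold den; rw [hd]; linarith
          have := one_div_le_one_div_of_le hd0 h9
          linarith
      · have := upH_ge_one m k (by omega)
        linarith

end Pool.Agent.TH695.BC
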