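import Pool.Agent.TH695.BC.Side

/-!
# Orientation of the vertices seen from a point of a chord
-/

namespace Pool.Agent.TH695.BC

open Vis124 Finset Topology Filter

variable {n : ℕ} {v : Fin n → ℝ × ℝ} {P : Set (ℝ × ℝ)}

/-- near each of its points, the polygon is the complement of a sector (or everything) -/
lemma local_cone (h : IsSimplePolygon v P) {σ : ℝ} (hσ : σ = 1 ∨ σ = -1)
    (hint : ∀ k, Ev v (interior P) σ k) (hext : ∀ k, Ev v Pᶜ (-σ) k) {Y : ℝ × ℝ} (hY : Y ∈ P) :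
    ∃ E : Set (ℝ × ℝ), (E = ∅ ∨ ∃ w u, E = Sec (-σ) w u) ∧
      ∃ δ > 0, ∀ z : ℝ × ℝ, ‖z‖ < δ → (Y + z ∈ P ↔ z ∉ E) := by
  have hσ2 : σ ^ 2 = 1 := by rcases hσ with rfl | rfl <;> norm_num
  have hσ2' : (-σ) ^ 2 = 1 := by rcases hσ with rfl | rfl <;> norm_num
  by_cases hYi : Y ∈ interior P
  · obtain ⟨δ, hδ, hb⟩ := Metric.mem_nhds_iff.mp (mem_interior_iff_mem_nhds.mp hYi)
    refine ⟨∅, Or.inl rfl, δ, hδ, fun z hz => ?_⟩
    refine ⟨fun _ => Set.notMem_empty _, fun _ => ?_⟩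
    apply hb
    rwa [Metric.mem_ball, dist_eq_norm, add_sub_cancel_left]
  have vert : ∀ k, Y = v k → ∃ E : Set (ℝ × ℝ), (E = ∅ ∨ ∃ w u, E = Sec (-σ) w u) ∧
      ∃ δ > 0, ∀ z : ℝ × ℝ, ‖z‖ < δ → (Y + z ∈ P ↔ z ∉ E) := by
    intro k hk
    obtain ⟨δ1, hδ1, e1⟩ := hint k
    obtain ⟨δ2, hδ2, e2⟩ := hext k
    obtain ⟨δ3, hδ3, e3⟩ := near_vertex h k
    refine ⟨Sec (-σ) (wd v k) (ud v k), Or.inr ⟨_, _, rfl⟩, min δ1 (min δ2 δ3),
      lt_min hδ1 (lt_min hδ2 hδ3), fun z hz => ?_⟩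
    rw [hk]
    constructor
    · intro hm hz2
      exact e2 z hz2 (lt_of_lt_of_le hz ((min_le_right _ _).trans (min_le_left _ _))) hm
    · intro hz2
      rcases e3 z (lt_of_lt_of_le hz ((min_le_right _ _).trans (min_le_right _ _)))
        with (h4 | h4) | h4
      · rcases hσ with rfl | rfl
        · exact interior_subset (e1 z h4 (lt_of_lt_of_le hz (min_le_left _ _)))
        · rw [neg_neg] at hz2; exact absurd h4 hz2
      · rcases hσ with rfl | rfl
        · exact absurd h4 hz2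
        · exact interior_subset (e1 z h4 (lt_of_lt_of_le hz (min_le_left _ _)))
      · exact curve_subset h h4
  have hYc : Y ∈ curve v := by
    rw [← h.boundary, frontier, (isClosed_P h).closure_eq]
    exact ⟨hY, hYi⟩
  obtain ⟨l, hl⟩ := Set.mem_iUnion.mp hYc
  rw [edge_eq] at hl
  obtain ⟨a, ha0, ha1, hYa⟩ := hl
  rcases ha0.eq_or_lt with h0 | h0
  · apply vert l
    rw [hYa, ← h0, zero_smul, add_zero]
  rcases ha1.eq_or_lt with h1 | h1
  · apply vert (sc l)
    rw [hYa, h1, one_smul]; unfold wd; abel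
  -- relative interior of an edge
  have hn2 := norm2_pos (wd_ne h l)
  set w := wd v l with hw
  obtain ⟨δ1, hδ1, s1⟩ := strip_ev h (absorbs_int h) hσ2 (hint l) (a1 := a / 2)
    (a2 := (a + 1) / 2) (by linarith) (by linarith) (by linarith)
  obtain ⟨δ2, hδ2, s2⟩ := strip_ev h (absorbs_ext h) hσ2' (hext l) (a1 := a / 2)
    (a2 := (a + 1) / 2) (by linarith) (by linarith) (by linarith)
  set N := w.1 ^ 2 + w.2 ^ 2 with hN
  have hNne : N ≠ 0 := hn2.ne'
  -- coordinates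
  set fa : ℝ × ℝ → ℝ := fun z => (w.1 * z.1 + w.2 * z.2) / N with hfa
  set fb : ℝ × ℝ → ℝ := fun z => cr w z / N with hfb
  have hca : Continuous fa := by rw [hfa]; fun_prop
  have hcb : Continuous fb := by
    rw [hfb]; unfold cr; fun_prop
  have hdec : ∀ z : ℝ × ℝ, z = fa z • w + fb z • rot w := by
    intro z
    ext
    · simp only [Prod.fst_add, Prod.smul_fst, smul_eq_mul, rot, hfa, hfb]
      field_simp
      rw [hN]; unfold cr; ring
    · simp only [Prod.snd_add, Prod.smul_snd, smul_eq_mul, rot, hfa, hfb]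
      field_simp
      rw [hN]; unfold cr; ring
  have hm : 0 < min (a / 2) ((1 - a) / 2) := lt_min (by linarith) (by linarith)
  have n1 : ∀ᶠ z in 𝓝 (0 : ℝ × ℝ), |fa z| < min (a / 2) ((1 - a) / 2) := by
    have h5 : Tendsto (fun z => |fa z|) (𝓝 0) (𝓝 (|fa 0|)) := (hca.abs.tendsto 0)
    have h6 : |fa 0| = 0 := by simp [hfa]
    rw [h6] at h5
    exact h5.eventually_lt_const hm
  have n2 : ∀ᶠ z in 𝓝 (0 : ℝ × ℝ), |fb z| < min δ1 δ2 := by
    have h5 : Tendsto (fun z => |fb z|) (𝓝 0) (𝓝 (|fb 0|)) := (hcb.abs.tendsto 0)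
    have h6 : |fb 0| = 0 := by simp [hfb, cr]
    rw [h6] at h5
    exact h5.eventually_lt_const (lt_min hδ1 hδ2)
  obtain ⟨δ, hδ, hb⟩ := Metric.eventually_nhds_iff.mp (n1.and n2)
  have hE : ∀ z, z ∈ Sec (-σ) w (-w) ↔ 0 < -σ * cr w z := by
    intro z
    have e1 : cr w (-w) = 0 := by simp [cr]; ring
    have e2 : cr z (-w) = cr w z := by simp [cr]; ring
    unfold Sec
    rw [Set.mem_ofPred_eq, e1, e2]
    simp
  refine ⟨Sec (-σ) w (-w), Or.inr ⟨_, _, rfl⟩, δ, hδ, fun z hz => ?_⟩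
  obtain ⟨g1, g2⟩ := hb (show dist z 0 < δ by rwa [dist_zero_right])
  have g1' := abs_lt.mp g1
  have m1 : min (a / 2) ((1 - a) / 2) ≤ a / 2 := min_le_left _ _
  have m2 : min (a / 2) ((1 - a) / 2) ≤ (1 - a) / 2 := min_le_right _ _
  have r1 : a / 2 ≤ a + fa z := by linarith [g1'.1]
  have r2 : a + fa z ≤ (a + 1) / 2 := by linarith [g1'.2]
  have hpt : Y + z = v l + (a + fa z) • w + fb z • rot w := by
    conv_lhs => rw [hYa, hdec z]
    rw [add_smul]; abel
  rw [hE z]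
  have hsgn : -σ * cr w z = -(σ * fb z) * N := by
    simp only [hfb]; field_simp
  rw [hsgn, hpt]
  rcases lt_trichotomy (σ * fb z) 0 with hc | hc | hc
  · have hb2 : |fb z| = -(σ * fb z) := by
      rcases hσ with rfl | rfl
      · rw [one_mul] at hc ⊢; exact abs_of_neg hc
      · have : 0 < fb z := by linarith
        rw [abs_of_pos this]; ring
    have h6 := s2 (a + fa z) (-(σ * fb z)) r1 r2 (by linarith) (by
      rw [← hb2]; exact lt_of_lt_of_le g2 (min_le_right _ _))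
    have h7 : -(σ * fb z) * -σ = fb z := by
      have : -(σ * fb z) * -σ = σ ^ 2 * fb z := by ring
      rw [this, hσ2, one_mul]
    rw [h7] at h6
    constructor
    · intro hm; exact absurd hm h6
    · intro hm
      exact absurd (mul_pos (by linarith) hn2) hm
  · have h6 : fb z = 0 := by
      rcases mul_eq_zero.mp hc with h7 | h7
      · rcases hσ with rfl | rfl <;> norm_num at h7
      · exact h7
    rw [h6]
    simp only [mul_zero, neg_zero, zero_mul, lt_irrefl, not_false_iff, iff_true, zero_smul,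
      add_zero]
    apply curve_subset h
    refine Set.mem_iUnion.2 ⟨l, ?_⟩
    rw [edge_eq]
    exact ⟨a + fa z, by linarith, by linarith, rfl⟩
  · have hb2 : |fb z| = σ * fb z := by
      rcases hσ with rfl | rfl
      · rw [one_mul] at hc ⊢; exact abs_of_pos hc
      · have : fb z < 0 := by linarith
        rw [abs_of_neg this]; ring
    have h6 := s1 (a + fa z) (σ * fb z) r1 r2 hc (by
      rw [← hb2]; exact lt_of_lt_of_le g2 (min_le_left _ _))
    have h7 : σ * fb z * σ = fb z := by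
      have : σ * fb z * σ = σ ^ 2 * fb z := by ring
      rw [this, hσ2, one_mul]
    rw [h7] at h6
    constructor
    · intro _ hm
      have := mul_pos hc hn2
      linarith
    · intro _; exact interior_subset h6

lemma cone_smul {E : Set (ℝ × ℝ)} {c : ℝ} (hE : E = ∅ ∨ ∃ w u, E = Sec c w u) {t : ℝ}
    (ht : 0 < t) {z : ℝ × ℝ} (hz : z ∈ E) : t • z ∈ E := by
  rcases hE with rfl | ⟨w, u, rfl⟩
  · exact absurd hz (Set.notMem_empty _)
  · exact smul_mem_sec ht hz

/-- the line of `l` and the ray of `D` avoid the sector: one of the two cones between them also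
avoids the sector -/
lemma cone_avoid {E : Set (ℝ × ℝ)} {c : ℝ} (hE : E = ∅ ∨ ∃ w u, E = Sec c w u) {D l : ℝ × ℝ}
    (hD : D ∉ E) (hl : l ∉ E) (hl' : -l ∉ E) :
    ∃ s : ℝ, (s = 1 ∨ s = -1) ∧ ∀ α β : ℝ, 0 < α → 0 ≤ β → α • D + β • (s • l) ∉ E := by
  rcases hE with rfl | ⟨w, u, rfl⟩
  · exact ⟨1, Or.inl rfl, fun _ _ _ _ => Set.notMem_empty _⟩
  have f1 : ∀ α β s : ℝ, c * cr w (α • D + β • (s • l)) = α * (c * cr w D) + β * s * (c * cr w l) := by
    intro α β s; simp [cr]; ring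
  have f2 : ∀ α β s : ℝ, c * cr (α • D + β • (s • l)) u = α * (c * cr D u) + β * s * (c * cr l u) := by
    intro α β s; simp [cr]; ring
  rcases lt_or_ge 0 (c * cr w u) with hA | hA
  · by_contra hcon
    push Not at hcon
    obtain ⟨α1, β1, hα1, hβ1, m1⟩ := hcon 1 (Or.inl rfl)
    obtain ⟨α2, β2, hα2, hβ2, m2⟩ := hcon (-1) (Or.inr rfl)
    have k1 : 0 < c * cr w (α1 • D + β1 • ((1 : ℝ) • l)) ∧
        0 < c * cr (α1 • D + β1 • ((1 : ℝ) • l)) u := by
      rcases m1 with ⟨-, a, b⟩ | ⟨a, -⟩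
      · exact ⟨a, b⟩
      · exact absurd hA (not_lt.mpr a)
    have k2 : 0 < c * cr w (α2 • D + β2 • ((-1 : ℝ) • l)) ∧
        0 < c * cr (α2 • D + β2 • ((-1 : ℝ) • l)) u := by
      rcases m2 with ⟨-, a, b⟩ | ⟨a, -⟩
      · exact ⟨a, b⟩
      · exact absurd hA (not_lt.mpr a)
    rw [f1, f2] at k1 k2
    apply hD
    left
    have aux : ∀ X L : ℝ, 0 < α1 * X + β1 * 1 * L → 0 < α2 * X + β2 * -1 * L → 0 < X := by
      intro X L q1 q2
      by_contra hX
      have hX' : X ≤ 0 := not_lt.mp hX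
      have q3 : 0 < β1 * L := by nlinarith
      have q4 : 0 < -(β2 * L) := by nlinarith
      rcases lt_or_ge 0 L with hL | hL
      · have := mul_nonneg hβ2 hL.le
        linarith
      · have := mul_nonneg hβ1 (neg_nonneg.mpr hL)
        linarith
    exact ⟨hA, aux _ _ k1.1 k2.1, aux _ _ k1.2 k2.2⟩
  · refine ⟨1, Or.inl rfl, ?_⟩
    intro α β hα hβ hm
    have nD : ¬ (0 < c * cr w D ∨ 0 < c * cr D u) := fun hh => hD (Or.inr ⟨hA, hh⟩)
    have nl : ¬ (0 < c * cr w l ∨ 0 < c * cr l u) := fun hh => hl (Or.inr ⟨hA, hh⟩)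
    push Not at nD nl
    rcases hm with ⟨a, -⟩ | ⟨-, a⟩
    · exact absurd a (not_lt.mpr hA)
    · rw [f1, f2] at a
      rcases a with a | a
      · have := mul_nonneg hα.le (neg_nonneg.mpr nD.1)
        have := mul_nonneg hβ (neg_nonneg.mpr nl.1)
        linarith
      · have := mul_nonneg hα.le (neg_nonneg.mpr nD.2)
        have := mul_nonneg hβ (neg_nonneg.mpr nl.2)
        linarith

end Pool.Agent.TH695.BC
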