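import Pool.Agent.TH695.BC.Blocks

/-!
# Counting levels and scales
-/

namespace Pool.Agent.TH695.BC

open Finset Classical

variable {R : ℕ → ℕ → Prop}

lemma inner_lev {i i' k u : ℕ} (hk : k ≤ i) (h : i < i') (hp : bl i u % 2 = bl i' u % 2)
    (hl : Lev R i u) : ∃ y, R u y ∧ innerGap i' k u y := by
  obtain ⟨y, hy, hR⟩ := hl
  refine ⟨y, hR, bl_eq_of_le (by omega : i + 1 ≤ i') hy.2, ?_⟩
  rcases Nat.mod_two_eq_zero_or_one (bl i u) with h0 | h1
  · left
    have := hy.right h0
    exact ⟨by omega, bl_lt_of_le hk (by omega)⟩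
  · right
    have := hy.left h1
    exact ⟨by omega, bl_lt_of_le hk (by omega)⟩

lemma outer_lev {i i' k u : ℕ} (h : i < i') (hp : bl i u % 2 = bl i' u % 2)
    (hl : Lev R i' u) : ∃ y, R u y ∧ outerGap i k u y := by
  obtain ⟨y, hy, hR⟩ := hl
  refine ⟨y, hR, ?_⟩
  rcases Nat.mod_two_eq_zero_or_one (bl i u) with h0 | h1
  · left
    have := hy.right (by omega)
    exact ⟨h0, Or.inr (bl_lt_of_le (by omega : i + 1 ≤ i') (by omega))⟩
  · right
    have := hy.left (by omega)
    exact ⟨h1, Or.inr (bl_lt_of_le (by omega : i + 1 ≤ i') (by omega))⟩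

/-- levels at which `u` is not long at scale `k` -/
noncomputable def Zs (R : ℕ → ℕ → Prop) (L k u : ℕ) : Finset ℕ :=
  (range L).filter fun i => k ≤ i ∧ Lev R i u ∧ ¬ Long R i k u

lemma card_Zs (L k u : ℕ) : (Zs R L k u).card ≤ 4 := by
  set A : ℕ → Finset ℕ := fun p => (range L).filter fun i => k ≤ i ∧ Lev R i u ∧
    bl i u % 2 = p ∧ ¬ ∃ y, R u y ∧ innerGap i k u y with hA
  set B : ℕ → Finset ℕ := fun p => (range L).filter fun i => k ≤ i ∧ Lev R i u ∧
    bl i u % 2 = p ∧ ¬ ∃ y, R u y ∧ outerGap i k u y with hB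
  have hAc : ∀ p, (A p).card ≤ 1 := by
    intro p
    rw [card_le_one]
    intro i hi j hj
    rw [hA] at hi hj
    simp only [mem_filter] at hi hj
    by_contra hne
    rcases lt_or_gt_of_ne hne with h | h
    · exact hj.2.2.2.2 (inner_lev hi.2.1 h (by omega) hi.2.2.1)
    · exact hi.2.2.2.2 (inner_lev hj.2.1 h (by omega) hj.2.2.1)
  have hBc : ∀ p, (B p).card ≤ 1 := by
    intro p
    rw [card_le_one]
    intro i hi j hj
    rw [hB] at hi hj
    simp only [mem_filter] at hi hj
    by_contra hne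
    rcases lt_or_gt_of_ne hne with h | h
    · exact hi.2.2.2.2 (outer_lev h (by omega) hj.2.2.1)
    · exact hj.2.2.2.2 (outer_lev h (by omega) hi.2.2.1)
  have hsub : Zs R L k u ⊆ (A 0 ∪ A 1) ∪ (B 0 ∪ B 1) := by
    intro i hi
    rw [Zs, mem_filter] at hi
    obtain ⟨h0, h1, h2, h3⟩ := hi
    rw [hA, hB]
    simp only [mem_union, mem_filter]
    unfold Long at h3
    have h4 : (¬ ∃ y, R u y ∧ innerGap i k u y) ∨ (¬ ∃ y, R u y ∧ outerGap i k u y) := by
      by_contra hc
      push Not at hc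
      exact h3 ⟨h1, hc.1, hc.2⟩
    rcases Nat.mod_two_eq_zero_or_one (bl i u) with hp | hp <;> rcases h4 with h4 | h4 <;> tauto
  have c1 := card_le_card hsub
  have c2 := card_union_le (A 0 ∪ A 1) (B 0 ∪ B 1)
  have c3 := card_union_le (A 0) (A 1)
  have c4 := card_union_le (B 0) (B 1)
  have := hAc 0
  have := hAc 1
  have := hBc 0
  have := hBc 1
  omega

/-- the pairs of a level and a scale that a vertex pays for -/
noncomputable def bad (R : ℕ → ℕ → Prop) (L u : ℕ) : Finset (ℕ × ℕ) :=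
  (range L ×ˢ range L).filter fun p => p.2 ≤ p.1 ∧ Lev R p.1 u ∧ ¬ Long R p.1 (p.2 + 1) u

lemma card_bad (L u : ℕ) : (bad R L u).card ≤ 5 * L := by
  have hsub : bad R L u ⊆ ((range L).image fun i => (i, i)) ∪
      ((range L).biUnion fun m => (Zs R L (m + 1) u).image fun i => (i, m)) := by
    intro p hp
    rw [bad, mem_filter, mem_product, mem_range, mem_range] at hp
    obtain ⟨⟨h1, h2⟩, h3, h4, h5⟩ := hp
    rw [mem_union, mem_image, mem_biUnion]
    rcases eq_or_lt_of_le h3 with h | h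
    · left
      exact ⟨p.1, mem_range.mpr h1, Prod.ext rfl h.symm⟩
    · right
      refine ⟨p.2, mem_range.mpr h2, ?_⟩
      rw [mem_image]
      refine ⟨p.1, ?_, rfl⟩
      rw [Zs, mem_filter, mem_range]
      exact ⟨h1, h, h4, h5⟩
  refine (card_le_card hsub).trans ((card_union_le _ _).trans ?_)
  have c1 : ((range L).image fun i => (i, i)).card ≤ L := by
    refine card_image_le.trans ?_
    rw [card_range]
  have c2 : ((range L).biUnion fun m => (Zs R L (m + 1) u).image fun i => (i, m)).card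
      ≤ 4 * L := by
    refine card_biUnion_le.trans ?_
    calc ∑ m ∈ range L, ((Zs R L (m + 1) u).image fun i => (i, m)).card
        ≤ ∑ m ∈ range L, 4 := sum_le_sum fun m _ => card_image_le.trans (card_Zs _ _ _)
      _ = 4 * L := by rw [sum_const, card_range, smul_eq_mul, mul_comm]
  omega

end Pool.Agent.TH695.BC
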