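import Pool.Agent.TH695.BC.Straight

/-!
# The function `f` and its lower bound
-/

namespace Pool.Agent.TH695.BC

open Set Vis124

/-- `f n`: the largest value of `beta (G)` over the visibility graphs `G` of simple polygons with
`n` vertices (no angle of the polygon being straight). -/
noncomputable def f (n : ℕ) : ℕ :=
  sSup {b | ∃ (v : Fin n → ℝ × ℝ) (P : Set (ℝ × ℝ)), IsSimplePolygon v P ∧ NoStraight v ∧
    b = beta (visGraph v P)}

lemma f_bddAbove (n : ℕ) :
    BddAbove {b | ∃ (v : Fin n → ℝ × ℝ) (P : Set (ℝ × ℝ)), IsSimplePolygon v P ∧ NoStraight v ∧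
      b = beta (visGraph v P)} := by
  have h : {b | ∃ (v : Fin n → ℝ × ℝ) (P : Set (ℝ × ℝ)), IsSimplePolygon v P ∧ NoStraight v ∧
      b = beta (visGraph v P)} ⊆ Set.range (fun G : SimpleGraph (Fin n) => beta G) := by
    rintro b ⟨v, P, -, -, rfl⟩
    exact ⟨_, rfl⟩
  exact (Set.finite_range _).bddAbove.mono h

/-- the covering set by single edges -/
noncomputable def trivialCover {n : ℕ} (G : SimpleGraph (Fin n)) : CoveringSet G := by
  classical
  exact
  { cliques := Finset.univ.filter fun C => ∀ u ∈ C, ∀ v ∈ C, u ≠ v → G.Adj u v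
    bicliques := ∅
    clique_adj := fun C hC => (Finset.mem_filter.mp hC).2
    biclique_disjoint := fun S hS => by simp at hS
    biclique_nonempty := fun S hS => by simp at hS
    biclique_adj := fun S hS => by simp at hS
    cover := fun u v h => by
      left
      refine ⟨{u, v}, ?_, by simp, by simp⟩
      rw [Finset.mem_filter]
      refine ⟨Finset.mem_univ _, ?_⟩
      intro a ha b hb hab
      rw [Finset.mem_insert, Finset.mem_singleton] at ha hb
      rcases ha with rfl | rfl <;> rcases hb with rfl | rfl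
      · exact (hab rfl).elim
      · exact h
      · exact h.symm
      · exact (hab rfl).elim }

lemma le_beta {n : ℕ} {G : SimpleGraph (Fin n)} {x : ℝ}
    (h : ∀ C : CoveringSet G, x ≤ (C.bits : ℝ)) : x ≤ (beta G : ℝ) := by
  have hne : {b | ∃ C : CoveringSet G, b = C.bits}.Nonempty := ⟨_, trivialCover G, rfl⟩
  obtain ⟨C, hC⟩ := Nat.sInf_mem hne
  unfold beta
  rw [hC]
  exact h C

/-- **Lower bound.** -/
theorem lower_bound :
    ∃ c : ℝ, 0 < c ∧ ∃ n₀ : ℕ, ∀ n : ℕ, n₀ ≤ n → c * n * Real.log n ^ 3 ≤ (f n : ℝ) := by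
  refine ⟨1 / 8192, by norm_num, 2 ^ 20, ?_⟩
  intro n hn
  -- parameters
  set L := (n - 1) / 2 with hLdef
  set m := Nat.sqrt ((L - 1) / 6) with hmdef
  have hnL : n = 2 * L + 2 ∨ n = 2 * L + 1 := by omega
  have hm1 : m * m ≤ (L - 1) / 6 := Nat.sqrt_le _
  have hm2 : (L - 1) / 6 < (m + 1) * (m + 1) := Nat.lt_succ_sqrt _
  have hm3 : L - 1 < 6 * ((m + 1) * (m + 1)) := by omega
  have hm16 : 16 ≤ m := by
    by_contra hcon
    have h1 : m + 1 ≤ 16 := by omega
    have h2 : (m + 1) * (m + 1) ≤ 16 * 16 := Nat.mul_le_mul h1 h1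
    omega
  have hnm : n ≤ 64 * (m * m) := by
    have h1 : (m + 1) * (m + 1) ≤ 2 * (m * m) := by nlinarith
    have h2 : 16 * 16 ≤ m * m := Nat.mul_le_mul hm16 hm16
    omega
  have hL : 6 * m ^ 2 + 1 ≤ L := by
    have h2 : 16 * 16 ≤ m * m := Nat.mul_le_mul hm16 hm16
    have : m ^ 2 = m * m := sq m
    omega
  -- the polygon
  have hpoly := (heights_comb n L m (by omega) hL hnL).isSimplePolygon
  have hns := comb_noStraight n L m (by omega) hL hnL
  set v := mv n L (tG n L m) (tH n L m) with hv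
  set P := region L (pl (tG n L m) L) (pl (tH n L m) L) with hP
  have hf : beta (visGraph v P) ≤ f n := le_csSup (f_bddAbove n) ⟨v, P, hpoly, hns, rfl⟩
  have hf' : (beta (visGraph v P) : ℝ) ≤ f n := by exact_mod_cast hf
  refine le_trans (le_beta fun C => ?_) hf'
  have hsize := size_comb (by omega) hL hnL (by omega : 3 ≤ m) C
  -- logarithms
  have hn1 : (2 : ℝ) ^ 20 ≤ n := by exact_mod_cast hn
  have hnpos : (0 : ℝ) < n := by linarith [show (0 : ℝ) < 2 ^ 20 by norm_num]
  have hmr : (16 : ℝ) ≤ m := by exact_mod_cast hm16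
  have hnm' : (n : ℝ) ≤ 64 * ((m : ℝ) * m) := by exact_mod_cast hnm
  have hl2 : Real.log 2 ≤ 0.6931471808 := Real.log_two_lt_d9.le
  have hl2' : 0.6931471803 ≤ Real.log 2 := Real.log_two_gt_d9.le
  have hlogn : 13 ≤ Real.log n := by
    have h1 : Real.log (2 ^ 20) ≤ Real.log n := Real.log_le_log (by positivity) hn1
    rw [Real.log_pow] at h1
    push_cast at h1
    linarith
  have hlogm : Real.log n ≤ 6 * Real.log 2 + 2 * Real.log m := by
    have h1 : Real.log n ≤ Real.log (64 * ((m : ℝ) * m)) := Real.log_le_log hnpos hnm'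
    rw [Real.log_mul (by norm_num) (by positivity), Real.log_mul (by positivity) (by positivity)]
      at h1
    have h2 : Real.log 64 = 6 * Real.log 2 := by
      rw [show (64 : ℝ) = 2 ^ 6 by norm_num, Real.log_pow]; push_cast; ring
    rw [h2] at h1
    linarith
  have hlm : Real.log n / 4 ≤ Real.log m - 1 := by linarith
  have h1 : ((n : ℝ) / 64) * (Real.log n / 4) ^ 2 ≤ ((m : ℝ) * (Real.log m - 1)) ^ 2 := by
    rw [mul_pow]
    apply mul_le_mul
    · nlinarith
    · exact pow_le_pow_left₀ (by linarith) hlm 2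
    · positivity
    · positivity
  have h2 : (n : ℝ) * Real.log n ^ 2 / 8192 ≤ (C.size : ℝ) := by
    have h3 : ((n : ℝ) / 64) * (Real.log n / 4) ^ 2 = (n : ℝ) * Real.log n ^ 2 / 1024 := by ring
    rw [h3] at h1
    linarith
  have h3 : Real.log n ≤ (Nat.clog 2 n : ℝ) := by
    have h4 : n ≤ 2 ^ Nat.clog 2 n := Nat.le_pow_clog (by norm_num) n
    have h5 : (n : ℝ) ≤ (2 : ℝ) ^ Nat.clog 2 n := by exact_mod_cast h4
    have h6 : Real.log n ≤ Real.log ((2 : ℝ) ^ Nat.clog 2 n) := Real.log_le_log hnpos h5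
    rw [Real.log_pow] at h6
    have h7 : (0 : ℝ) ≤ (Nat.clog 2 n : ℝ) := Nat.cast_nonneg _
    nlinarith
  unfold CoveringSet.bits
  push_cast
  have h8 : Real.log n * ((n : ℝ) * Real.log n ^ 2 / 8192) ≤ (Nat.clog 2 n : ℝ) * C.size := by
    apply mul_le_mul h3 h2
    · positivity
    · exact Nat.cast_nonneg _
  refine le_trans (le_of_eq ?_) h8
  ring

end Pool.Agent.TH695.BC
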