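import Pool.Agent.TH695.BC.Labels
import Pool.Agent.TH695.BC.Cover

/-!
# Graphs with the hexagon property have covering sets of size `O(n log² n)`
-/

namespace Pool.Agent.TH695.BC

open Finset Classical

variable {R : ℕ → ℕ → Prop}

lemma Hex.cover2 (hx : Hex R) {L i k u v : ℕ} (hi : i < L) (hk : k ≤ i) (hs : Sib i u v)
    (hR : R u v) (h1 : Long R i k u) (h2 : ¬ Long R i (k + 1) u) (h3 : ¬ Long R i (k + 1) v)
    (h4 : ¬ blockIn R i v k (bl k u)) : ∃ l, l ∈ L2 R L u ∧ l ∈ L3 R L v := by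
  set p : ℕ → Prop := fun s => ∀ x, bl s x = bl s u → LQ R i k x → R v x with hp
  have hp0 : p 0 := by
    intro x hx1 _
    rw [bl_zero, bl_zero] at hx1
    rw [hx1]; exact hx.symm _ _ hR
  set s := Nat.findGreatest p k with hsdef
  have hsk : s ≤ k := Nat.findGreatest_le k
  have hps : p s := Nat.findGreatest_spec (Nat.zero_le k) hp0
  have hmax : s = k ∨ ¬ p (s + 1) := by
    rcases eq_or_lt_of_le hsk with h | h
    · exact Or.inl h
    · right
      exact Nat.findGreatest_is_greatest (show s < s + 1 by omega) (by omega)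
  refine ⟨(i, k, s, bl s u), mem_L2 hi ?_, mem_L3 hx hi ?_⟩
  · exact ⟨hsk, hk, rfl, ⟨h1, h2⟩, ⟨v, hs, hR⟩⟩
  · refine ⟨hsk, hk, ?_, hps, h3, u, rfl, ⟨h1, h2⟩, ?_, ?_, ?_⟩
    · intro x hx1
      exact hs.symm.congr' (bl_eq_of_le (hsk.trans hk) hx1)
    · exact ⟨u, rfl, inI_of_adj hs.symm (hx.symm _ _ hR)⟩
    · unfold blockIn at h4
      push Not at h4
      exact h4
    · rcases hmax with h | h
      · exact Or.inl h
      · right
        rw [hp] at h
        push Not at h
        obtain ⟨x, hx1, hx2, hx3⟩ := h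
        exact ⟨x, by rw [hx1, bl_succ], hx2, hx3⟩

/-- every edge is covered -/
theorem Hex.covered (hx : Hex R) {L u v : ℕ} (hu : u < 2 ^ L) (hv : v < 2 ^ L) (hR : R u v) :
    (∃ l, l ∈ L1 R L u ∧ swp l ∈ L1 R L v) ∨ (∃ l, l ∈ L2 R L u ∧ l ∈ L3 R L v) ∨
      (∃ l, l ∈ L2 R L v ∧ l ∈ L3 R L u) := by
  have huv : u ≠ v := fun h => hx.irr u (by rw [← h] at hR; exact hR)
  obtain ⟨i, hi, hs⟩ := exists_sib hu hv huv
  have hRs := hx.symm _ _ hR
  have in1 : inI R i v u := inI_of_adj hs.symm hRs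
  have in2 : inI R i u v := inI_of_adj hs hR
  -- maximal blocks
  have key : ∀ a b : ℕ, Sib i a b → inI R i b a → ∃ α, α ≤ i ∧ blockIn R i b α (bl α a) ∧
      (∃ x, bl (α + 1) x = bl α a / 2 ∧ ¬ inI R i b x) ∧
      ∀ s, α < s → s ≤ i → ¬ blockIn R i b s (bl s a) := by
    intro a b hab hin
    set p : ℕ → Prop := fun s => blockIn R i b s (bl s a) with hp
    have hp0 : p 0 := by
      intro x hx1
      rw [bl_zero, bl_zero] at hx1
      rw [hx1]; exact hin
    obtain ⟨g, hg1, hg2, hg3⟩ : ∃ g, g ≤ i ∧ p g ∧ ∀ s, g < s → s ≤ i → ¬ p s :=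
      ⟨Nat.findGreatest p i, Nat.findGreatest_le i,
        Nat.findGreatest_spec (Nat.zero_le i) hp0,
        fun s hs1 hs2 => Nat.findGreatest_is_greatest hs1 hs2⟩
    refine ⟨g, hg1, hg2, ?_, hg3⟩
    rcases eq_or_lt_of_le hg1 with h | h
    · refine ⟨b, ?_, ?_⟩
      · rw [h, ← bl_succ]; exact hab.2
      · intro hc
        exact hc.sib.1 rfl
    · have h2 : ¬ blockIn R i b (g + 1) (bl (g + 1) a) := hg3 (g + 1) (by omega) (by omega)
      unfold blockIn at h2
      push Not at h2
      obtain ⟨x, hx1, hx2⟩ := h2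
      exact ⟨x, by rw [hx1, bl_succ], hx2⟩
  obtain ⟨α, hα, ha1, ha2, ha3⟩ := key u v hs in1
  obtain ⟨β, hβ, hb1, hb2, hb3⟩ := key v u hs.symm in2
  by_cases hL : Long R i (max α β + 1) u ∨ Long R i (max α β + 1) v
  · right
    set p : ℕ → Prop := fun k => Long R i k u ∨ Long R i k v with hp
    have hle : max α β + 1 ≤ i := by
      rcases hL with h | h
      · exact h.1
      · exact h.1
    set k := Nat.findGreatest p i with hk
    have hki : k ≤ i := Nat.findGreatest_le i
    have hmk : max α β + 1 ≤ k := Nat.le_findGreatest hle hL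
    have hpk : p k := Nat.findGreatest_spec hle hL
    have hpk1 : ¬ p (k + 1) := by
      rcases eq_or_lt_of_le hki with h | h
      · rintro (h2 | h2)
        · have := h2.1; omega
        · have := h2.1; omega
      · exact Nat.findGreatest_is_greatest (Nat.lt_succ_self _) (by omega)
    rw [hp] at hpk1
    push Not at hpk1
    rcases hpk with h | h
    · left
      exact hx.cover2 hi hki hs hR h hpk1.1 hpk1.2 (ha3 k (by omega) hki)
    · right
      exact hx.cover2 hi hki hs.symm hRs h hpk1.2 hpk1.1 (hb3 k (by omega) hki)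
  · left
    push Not at hL
    refine ⟨(i, α, bl α u, β, bl β v), mem_L1 hi ?_, mem_L1 hi ?_⟩
    · exact ⟨hα, hβ, rfl, hb1, hb2, hL.1⟩
    · refine ⟨hβ, hα, rfl, ha1, ha2, ?_⟩
      simp only [swp]
      rw [max_comm]
      exact hL.2

/-- a covering set from labels -/
theorem cover_of_labels {n : ℕ} {G : SimpleGraph (Fin n)} {ι : Type} [DecidableEq ι]
    (LA LB : Fin n → Finset ι)
    (h1 : ∀ u v l, l ∈ LA u → l ∈ LB v → G.Adj u v)
    (h2 : ∀ u v, G.Adj u v → (∃ l, l ∈ LA u ∧ l ∈ LB v) ∨ ∃ l, l ∈ LA v ∧ l ∈ LB u) :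
    ∃ C : CoveringSet G, C.size ≤ ∑ u, ((LA u).card + (LB u).card) := by
  classical
  set all : Finset ι := univ.biUnion LA with hall
  set SA : ι → Finset (Fin n) := fun l => univ.filter fun u => l ∈ LA u with hSA
  set SB : ι → Finset (Fin n) := fun l => univ.filter fun u => l ∈ LB u with hSB
  set good : Finset ι := all.filter fun l => (SA l).Nonempty ∧ (SB l).Nonempty with hgood
  refine ⟨{ cliques := ∅
            bicliques := good.image fun l => (SA l, SB l)
            clique_adj := fun C hC => by simp at hC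
            biclique_disjoint := ?_
            biclique_nonempty := ?_
            biclique_adj := ?_
            cover := ?_ }, ?_⟩
  · intro S hS
    rw [mem_image] at hS
    obtain ⟨l, hl, rfl⟩ := hS
    rw [disjoint_left]
    intro a ha hb
    simp only [hSA, hSB, mem_filter, mem_univ, true_and] at ha hb
    exact (h1 a a l ha hb).ne rfl
  · intro S hS
    rw [mem_image] at hS
    obtain ⟨l, hl, rfl⟩ := hS
    exact (mem_filter.mp hl).2
  · intro S hS
    rw [mem_image] at hS
    obtain ⟨l, hl, rfl⟩ := hS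
    intro u hu v hv
    simp only [hSA, hSB, mem_filter, mem_univ, true_and] at hu hv
    exact h1 u v l hu hv
  · intro u v huv
    right
    have key : ∀ a b l, l ∈ LA a → l ∈ LB b →
        (SA l, SB l) ∈ good.image (fun l => (SA l, SB l)) ∧ a ∈ SA l ∧ b ∈ SB l := by
      intro a b l ha hb
      have ma : a ∈ SA l := by simp only [hSA, mem_filter, mem_univ, true_and]; exact ha
      have mb : b ∈ SB l := by simp only [hSB, mem_filter, mem_univ, true_and]; exact hb
      refine ⟨mem_image_of_mem _ ?_, ma, mb⟩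
      rw [hgood, mem_filter]
      exact ⟨mem_biUnion.mpr ⟨a, mem_univ a, ha⟩, ⟨a, ma⟩, ⟨b, mb⟩⟩
    rcases h2 u v huv with ⟨l, ha, hb⟩ | ⟨l, ha, hb⟩
    · obtain ⟨k1, k2, k3⟩ := key u v l ha hb
      exact ⟨_, k1, Or.inl ⟨k2, k3⟩⟩
    · obtain ⟨k1, k2, k3⟩ := key v u l ha hb
      exact ⟨_, k1, Or.inr ⟨k2, k3⟩⟩
  · unfold CoveringSet.size
    simp only [sum_empty, zero_add]
    have e1 : ∑ S ∈ good.image (fun l => (SA l, SB l)), (S.1.card + S.2.card)
        ≤ ∑ l ∈ good, ((SA l).card + (SB l).card) := by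
      rw [← sum_fiberwise_of_maps_to (s := good) (t := good.image (fun l => (SA l, SB l)))
        (g := fun l => (SA l, SB l)) (fun l hl => mem_image_of_mem _ hl)]
      apply sum_le_sum
      intro S hS
      rw [mem_image] at hS
      obtain ⟨l, hl, rfl⟩ := hS
      have := single_le_sum (s := good.filter fun l' => (SA l', SB l') = (SA l, SB l))
        (f := fun l => (SA l).card + (SB l).card) (fun _ _ => Nat.zero_le _)
        (mem_filter.mpr ⟨hl, rfl⟩)
      exact this
    have e2 : ∑ l ∈ good, ((SA l).card + (SB l).card)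
        ≤ ∑ l ∈ all ∪ univ.biUnion LB, ((SA l).card + (SB l).card) :=
      sum_le_sum_of_subset ((filter_subset _ _).trans subset_union_left)
    have e3 : ∑ l ∈ all ∪ univ.biUnion LB, ((SA l).card + (SB l).card)
        = ∑ u, ((LA u).card + (LB u).card) := by
      rw [sum_add_distrib, sum_add_distrib]
      congr 1
      · have h3 : ∀ u, (LA u).card = ∑ l ∈ all ∪ univ.biUnion LB, if l ∈ LA u then 1 else 0 := by
          intro u
          rw [sum_boole, filter_mem_eq_inter, inter_eq_right.mpr]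
          · simp
          · exact (subset_biUnion_of_mem LA (mem_univ u)).trans subset_union_left
        simp only [h3, hSA, card_filter]
        rw [sum_comm]
      · have h3 : ∀ u, (LB u).card = ∑ l ∈ all ∪ univ.biUnion LB, if l ∈ LB u then 1 else 0 := by
          intro u
          rw [sum_boole, filter_mem_eq_inter, inter_eq_right.mpr]
          · simp
          · exact (subset_biUnion_of_mem LB (mem_univ u)).trans subset_union_right
        simp only [h3, hSB, card_filter]
        rw [sum_comm]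
    exact e1.trans (e2.trans e3.le)

/-- adjacency of a graph on `Fin n` as a relation on the natural numbers -/
def relOf {n : ℕ} (G : SimpleGraph (Fin n)) (x y : ℕ) : Prop :=
  ∃ (hx : x < n) (hy : y < n), G.Adj ⟨x, hx⟩ ⟨y, hy⟩

/-- **Upper bound for graphs with the hexagon property.** -/
theorem exists_cover {n : ℕ} (G : SimpleGraph (Fin n)) (hx : Hex (relOf G)) :
    ∃ C : CoveringSet G, C.size ≤ 75 * n * Nat.clog 2 n ^ 2 := by
  classical
  set L := Nat.clog 2 n with hL
  have hn : n ≤ 2 ^ L := Nat.le_pow_clog (by norm_num) n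
  have hiff : ∀ u v : Fin n, relOf G u v ↔ G.Adj u v := by
    intro u v
    constructor
    · rintro ⟨h1, h2, h3⟩; exact h3
    · intro h; exact ⟨u.2, v.2, h⟩
  set LA : Fin n → Finset ((ℕ × ℕ × ℕ × ℕ × ℕ) ⊕ (ℕ × ℕ × ℕ × ℕ)) :=
    fun u => (L1 (relOf G) L u).disjSum (L2 (relOf G) L u) with hLA
  set LB : Fin n → Finset ((ℕ × ℕ × ℕ × ℕ × ℕ) ⊕ (ℕ × ℕ × ℕ × ℕ)) :=
    fun v => ((L1 (relOf G) L v).image swp).disjSum (L3 (relOf G) L v) with hLB
  have k1 : ∀ u v l, l ∈ LA u → l ∈ LB v → G.Adj u v := by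
    intro u v l hl1 hl2
    rw [← hiff]
    rcases l with l | l
    · rw [hLA] at hl1
      rw [hLB] at hl2
      simp only [inl_mem_disjSum] at hl1 hl2
      rw [mem_image] at hl2
      obtain ⟨l', hl', rfl⟩ := hl2
      have a1 := (mem_filter.mp hl1).2
      have a2 := (mem_filter.mp hl').2
      exact hx.scheme1 a1 (by rw [swp_swp]; exact a2)
    · rw [hLA] at hl1
      rw [hLB] at hl2
      simp only [inr_mem_disjSum] at hl1 hl2
      have a1 := (mem_filter.mp hl1).2
      have a2 := (mem_filter.mp hl2).2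
      exact hx.symm _ _ (scheme2 a1 a2)
  have k2 : ∀ u v, G.Adj u v → (∃ l, l ∈ LA u ∧ l ∈ LB v) ∨ ∃ l, l ∈ LA v ∧ l ∈ LB u := by
    intro u v huv
    rw [← hiff] at huv
    rcases hx.covered (lt_of_lt_of_le u.2 hn) (lt_of_lt_of_le v.2 hn) huv with
      ⟨l, h1, h2⟩ | ⟨l, h1, h2⟩ | ⟨l, h1, h2⟩
    · left
      refine ⟨Sum.inl l, ?_, ?_⟩
      · rw [hLA]; simp only [inl_mem_disjSum]; exact h1
      · rw [hLB]; simp only [inl_mem_disjSum]; rw [mem_image]; exact ⟨swp l, h2, swp_swp l⟩
    · left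
      refine ⟨Sum.inr l, ?_, ?_⟩
      · rw [hLA]; simp only [inr_mem_disjSum]; exact h1
      · rw [hLB]; simp only [inr_mem_disjSum]; exact h2
    · right
      refine ⟨Sum.inr l, ?_, ?_⟩
      · rw [hLA]; simp only [inr_mem_disjSum]; exact h1
      · rw [hLB]; simp only [inr_mem_disjSum]; exact h2
  obtain ⟨C, hC⟩ := cover_of_labels (G := G) LA LB k1 k2
  refine ⟨C, hC.trans ?_⟩
  have h5 : ∀ u : Fin n, (LA u).card + (LB u).card ≤ 75 * L ^ 2 := by
    intro u
    rw [hLA, hLB]
    simp only [card_disjSum]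
    have h1 := card_L1 (R := relOf G) L u
    have h2 := card_L2 (R := relOf G) L u
    have h3 := card_L3 (R := relOf G) L u
    have h4 : ((L1 (relOf G) L u).image swp).card ≤ _ := card_image_le
    omega
  calc _ ≤ ∑ u : Fin n, 75 * L ^ 2 := sum_le_sum fun u _ => h5 u
    _ = 75 * n * L ^ 2 := by rw [sum_const, card_univ, Fintype.card_fin, smul_eq_mul]; ring

end Pool.Agent.TH695.BC
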