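import Pool.Agent.TH695.BC.Hexagon
import Pool.Agent.TH695.BC.Upper

/-!
# Visibility graphs of simple polygons have the hexagon property
-/

namespace Pool.Agent.TH695.BC

open Vis124 Finset Topology Filter

variable {n : ℕ} {v : Fin n → ℝ × ℝ} {P : Set (ℝ × ℝ)}

lemma online {B E X : ℝ × ℝ} {P : Set (ℝ × ℝ)} (hBE : B ≠ E) (hX : cr (E - B) (X - B) = 0)
    (h1 : segment ℝ B X ⊆ P) (h2 : segment ℝ X E ⊆ P) : segment ℝ B E ⊆ P := by
  obtain ⟨t, ht⟩ := parallel (sub_ne_zero.mpr hBE.symm) hX
  have hXe : X = B + t • (E - B) := by rw [← ht]; abel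
  intro y hy
  rw [seg_param] at hy
  obtain ⟨s, hs0, hs1, rfl⟩ := hy
  rcases le_or_gt s t with hst | hst
  · apply h1
    rw [seg_param]
    rcases hs0.eq_or_lt with h0 | h0
    · exact ⟨0, le_rfl, zero_le_one, by rw [← h0, zero_smul, zero_smul]⟩
    · have ht0 : 0 < t := lt_of_lt_of_le h0 hst
      refine ⟨s / t, by positivity, by rw [div_le_one ht0]; exact hst, ?_⟩
      rw [ht, smul_smul, div_mul_cancel₀ _ ht0.ne']
  · apply h2
    rw [seg_param]
    have ht1 : 0 < 1 - t := by linarith
    refine ⟨(s - t) / (1 - t), div_nonneg (by linarith) ht1.le,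
      by rw [div_le_one ht1]; linarith, ?_⟩
    have h3 : E - X = (1 - t) • (E - B) := by rw [hXe]; module
    rw [h3, smul_smul, div_mul_cancel₀ _ ht1.ne', hXe]
    module

/-- **The hexagon property.** If `a < b < c < d < e < f` are vertices in boundary order, `b` sees
`d` and `f`, and `e` sees `a` and `c`, then `b` sees `e`. -/
theorem hexagon (h : IsSimplePolygon v P) (hn : 0 < n) {a b c d e f : ℕ} (hab : a < b)
    (hbc : b < c) (hcd : c < d) (hde : d < e) (hef : e < f) (hfn : f < a + n)
    (h1 : segment ℝ (vx v hn b) (vx v hn d) ⊆ P) (h2 : segment ℝ (vx v hn b) (vx v hn f) ⊆ P)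
    (h3 : segment ℝ (vx v hn e) (vx v hn a) ⊆ P) (h4 : segment ℝ (vx v hn e) (vx v hn c) ⊆ P) :
    segment ℝ (vx v hn b) (vx v hn e) ⊆ P := by
  obtain ⟨σ, hσ, hint, hext⟩ := oriented h
  have h3' : segment ℝ (vx v hn a) (vx v hn e) ⊆ P := by rw [segment_symm]; exact h3
  have h4' : segment ℝ (vx v hn c) (vx v hn e) ⊆ P := by rw [segment_symm]; exact h4
  obtain ⟨X1, hX1a, hX1b⟩ := crossing h hn hab (hbc.trans (hcd.trans hde)) hef hfn h3' h2
  obtain ⟨X2, hX2a, hX2b⟩ := crossing h hn hbc hcd hde (by omega) h1 h4'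
  have nAF : vx v hn a ≠ vx v hn f := fun he => mod_ne (n := n) (by omega) (by omega) (vx_eq h hn he)
  have nCD : vx v hn c ≠ vx v hn d := fun he => mod_ne (n := n) (by omega) (by omega) (vx_eq h hn he)
  have nBE : vx v hn b ≠ vx v hn e := fun he => mod_ne (n := n) (by omega) (by omega) (vx_eq h hn he)
  set A := vx v hn a with hA
  set B := vx v hn b with hB
  set C := vx v hn c with hC
  set D := vx v hn d with hD
  set E := vx v hn e with hE
  set F := vx v hn f with hF
  have sBX1 : segment ℝ B X1 ⊆ P :=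
    ((convex_segment B F).segment_subset (left_mem_segment _ _ _) hX1b).trans h2
  have sEX1 : segment ℝ E X1 ⊆ P :=
    ((convex_segment A E).segment_subset (right_mem_segment _ _ _) hX1a).trans h3'
  have sBX2 : segment ℝ B X2 ⊆ P :=
    ((convex_segment B D).segment_subset (left_mem_segment _ _ _) hX2a).trans h1
  have sEX2 : segment ℝ E X2 ⊆ P :=
    ((convex_segment C E).segment_subset (right_mem_segment _ _ _) hX2b).trans h4'
  have sX1E : segment ℝ X1 E ⊆ P := by rw [segment_symm]; exact sEX1
  have sX2E : segment ℝ X2 E ⊆ P := by rw [segment_symm]; exact sEX2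
  by_contra hno
  obtain ⟨x, hx, hxP⟩ := Set.not_subset.mp hno
  set κ1 := cr (E - B) (X1 - B) with hκ1
  set κ2 := cr (E - B) (X2 - B) with hκ2
  have k1 : κ1 ≠ 0 := fun h0 => hno (online nBE h0 sBX1 sX1E)
  have k2 : κ2 ≠ 0 := fun h0 => hno (online nBE h0 sBX2 sX2E)
  have X1B : X1 ≠ B := by
    intro he; apply k1; rw [hκ1, he]; simp [cr]
  have X1E : X1 ≠ E := by
    intro he; apply k1; rw [hκ1, he]; exact cr_self _
  have X2B : X2 ≠ B := by
    intro he; apply k2; rw [hκ2, he]; simp [cr]
  have X2E : X2 ≠ E := by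
    intro he; apply k2; rw [hκ2, he]; exact cr_self _
  have p1 : 0 < σ * κ1 := by
    by_cases hXF : X1 = F
    · have hXA : X1 ≠ A := fun he => nAF (he.symm.trans hXF)
      have ho := mem_openSegment_of_ne_left_right hXA.symm X1E.symm hX1a
      obtain ⟨t, ht0, ht1, hte⟩ := seg_param.mp hX1a
      have hk : κ1 = -((1 - t) * cr (E - A) (B - A)) := by
        rw [hκ1, hte]; simp [cr]; ring
      have hcr : cr (E - A) (B - A) ≠ 0 := by
        intro h0; apply k1; rw [hk, h0]; ring
      have h5 := (side h hn hσ hint hext (hab.trans (hbc.trans (hcd.trans hde))) (by omega) h3' ho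
        (r := b) sBX1 hcr).1 hab (hbc.trans (hcd.trans hde))
      have ht : t ≠ 1 := by
        intro h0; apply k1; rw [hk, h0]; ring
      have ht' : 0 < 1 - t := by
        rcases ht1.lt_or_eq with h6 | h6
        · linarith
        · exact absurd h6 ht
      have h6 := mul_pos ht' (neg_pos.mpr h5)
      have h7 : σ * κ1 = (1 - t) * -(σ * cr (E - A) (B - A)) := by rw [hk]; ring
      rw [h7]; exact h6
    · have ho := mem_openSegment_of_ne_left_right X1B.symm (Ne.symm hXF) hX1b
      obtain ⟨t, ht0, ht1, hte⟩ := seg_param.mp hX1b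
      have hk : κ1 = -(t * cr (F - B) (E - B)) := by
        rw [hκ1, hte]; simp [cr]; ring
      have hcr : cr (F - B) (E - B) ≠ 0 := by
        intro h0; apply k1; rw [hk, h0]; ring
      have h5 := (side h hn hσ hint hext (p := b) (q := f) (by omega) (by omega) h2 ho
        (r := e) sEX1 hcr).1 (by omega) hef
      have ht : t ≠ 0 := by
        intro h0; apply k1; rw [hk, h0]; ring
      have ht' : 0 < t := lt_of_le_of_ne ht0 (Ne.symm ht)
      have h6 := mul_pos ht' (neg_pos.mpr h5)
      have h7 : σ * κ1 = t * -(σ * cr (F - B) (E - B)) := by rw [hk]; ring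
      rw [h7]; exact h6
  have p2 : σ * κ2 < 0 := by
    by_cases hXD : X2 = D
    · have hXC : X2 ≠ C := fun he => nCD (he.symm.trans hXD)
      have ho := mem_openSegment_of_ne_left_right hXC.symm X2E.symm hX2b
      obtain ⟨t, ht0, ht1, hte⟩ := seg_param.mp hX2b
      have hk : κ2 = -((1 - t) * cr (E - C) (B - C)) := by
        rw [hκ2, hte]; simp [cr]; ring
      have hcr : cr (E - C) (B - C) ≠ 0 := by
        intro h0; apply k2; rw [hk, h0]; ring
      have hbn : vx v hn (b + n) = B := vx_add hn b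
      have h5 := (side h hn hσ hint hext (p := c) (q := e) (by omega) (by omega) h4' ho
        (r := b + n) (by rw [hbn]; exact sBX2) (by rw [hbn]; exact hcr)).2 (by omega) (by omega)
      rw [hbn] at h5
      have ht : t ≠ 1 := by
        intro h0; apply k2; rw [hk, h0]; ring
      have ht' : 0 < 1 - t := by
        rcases ht1.lt_or_eq with h6 | h6
        · linarith
        · exact absurd h6 ht
      have h6 := mul_pos ht' h5
      have h7 : σ * κ2 = -((1 - t) * (σ * cr (E - C) (B - C))) := by rw [hk]; ring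
      rw [h7]; linarith
    · have ho := mem_openSegment_of_ne_left_right X2B.symm (Ne.symm hXD) hX2a
      obtain ⟨t, ht0, ht1, hte⟩ := seg_param.mp hX2a
      have hk : κ2 = -(t * cr (D - B) (E - B)) := by
        rw [hκ2, hte]; simp [cr]; ring
      have hcr : cr (D - B) (E - B) ≠ 0 := by
        intro h0; apply k2; rw [hk, h0]; ring
      have h5 := (side h hn hσ hint hext (p := b) (q := d) (by omega) (by omega) h1 ho
        (r := e) sEX2 hcr).2 hde (by omega)
      have ht : t ≠ 0 := by
        intro h0; apply k2; rw [hk, h0]; ring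
      have ht' : 0 < t := lt_of_le_of_ne ht0 (Ne.symm ht)
      have h6 := mul_pos ht' h5
      have h7 : σ * κ2 = -(t * (σ * cr (D - B) (E - B))) := by rw [hk]; ring
      rw [h7]; linarith
  -- the quadrilateral winds around `x`
  obtain ⟨s, hs0, hs1, hxe⟩ := seg_param.mp hx
  have hs0' : 0 < s := by
    rcases hs0.eq_or_lt with h5 | h5
    · exfalso; apply hxP
      rw [hxe, ← h5, zero_smul, add_zero]; exact h1 (left_mem_segment _ _ _)
    · exact h5
  have hs1' : 0 < 1 - s := by
    rcases hs1.lt_or_eq with h5 | h5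
    · linarith
    · exfalso; apply hxP
      rw [hxe, h5, one_smul, add_sub_cancel]; exact h3 (left_mem_segment _ _ _)
  have hcyc : IsCyc (univ : Finset (Fin 4)) ![B, X1, E, X2] ![X1, E, X2, B] := by
    intro G _ g
    rw [Fin.sum_univ_four, Fin.sum_univ_four]
    simp
    abel
  have hW := W_ext h hcyc (by
    intro i _
    fin_cases i
    · exact sBX1
    · exact sX1E
    · exact sEX2
    · show segment ℝ X2 B ⊆ P
      rw [segment_symm]; exact sBX2) hxP
  unfold Wn at hW
  rw [Fin.sum_univ_four] at hW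
  have hW' : ang B X1 x + ang X1 E x + ang E X2 x + ang X2 B x = 0 := hW
  have c1 : cr (X1 - B) (x - B) = -(s * κ1) := by
    rw [hxe, hκ1]; simp [cr]; ring
  have c2 : cr (E - X1) (x - X1) = -((1 - s) * κ1) := by
    rw [hxe, hκ1]; simp [cr]; ring
  have c3 : cr (X2 - E) (x - E) = (1 - s) * κ2 := by
    rw [hxe, hκ2]; simp [cr]; ring
  have c4 : cr (B - X2) (x - X2) = s * κ2 := by
    rw [hxe, hκ2]; simp [cr]; ring
  rcases hσ with rfl | rfl
  · rw [one_mul] at p1 p2
    have q1 := ang_neg (p := B) (q := X1) (x := x) (by rw [c1]; have := mul_pos hs0' p1; linarith)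
    have q2 := ang_neg (p := X1) (q := E) (x := x) (by rw [c2]; have := mul_pos hs1' p1; linarith)
    have q3 := ang_neg (p := E) (q := X2) (x := x) (by rw [c3]; exact mul_neg_of_pos_of_neg hs1' p2)
    have q4 := ang_neg (p := X2) (q := B) (x := x) (by rw [c4]; exact mul_neg_of_pos_of_neg hs0' p2)
    linarith
  · have p1' : κ1 < 0 := by linarith
    have p2' : 0 < κ2 := by linarith
    have q1 := ang_pos (p := B) (q := X1) (x := x) (by
      rw [c1]; have := mul_pos hs0' (neg_pos.mpr p1'); linarith)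
    have q2 := ang_pos (p := X1) (q := E) (x := x) (by
      rw [c2]; have := mul_pos hs1' (neg_pos.mpr p1'); linarith)
    have q3 := ang_pos (p := E) (q := X2) (x := x) (by rw [c3]; exact mul_pos hs1' p2')
    have q4 := ang_pos (p := X2) (q := B) (x := x) (by rw [c4]; exact mul_pos hs0' p2')
    linarith

/-- visibility graphs have the hexagon property -/
theorem hex_visGraph (h : IsSimplePolygon v P) : Hex (relOf (visGraph v P)) := by
  have hn : 0 < n := by have := h.three_le; omega
  have hv : ∀ x (hx : x < n), vx v hn x = v ⟨x, hx⟩ := by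
    intro x hx
    unfold vx
    congr 1
    apply Fin.ext
    exact Nat.mod_eq_of_lt hx
  have hlt : ∀ x y, relOf (visGraph v P) x y → x < n ∧ y < n := by
    rintro x y ⟨hx, hy, -⟩; exact ⟨hx, hy⟩
  have hseg : ∀ x y, relOf (visGraph v P) x y → segment ℝ (vx v hn x) (vx v hn y) ⊆ P := by
    rintro x y ⟨hx, hy, -, h2⟩
    rw [hv x hx, hv y hy]; exact h2
  have hseg' : ∀ x y, relOf (visGraph v P) x y → segment ℝ (vx v hn y) (vx v hn x) ⊆ P := by
    intro x y hxy
    rw [segment_symm]; exact hseg x y hxy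
  have hmk : ∀ x y, x < y → y < n → segment ℝ (vx v hn x) (vx v hn y) ⊆ P →
      relOf (visGraph v P) x y := by
    intro x y hxy hy hs
    have hx : x < n := by omega
    refine ⟨hx, hy, ?_, ?_⟩
    · intro he
      have := congrArg Fin.val he
      simp only at this
      omega
    · rw [hv x hx, hv y hy] at hs; exact hs
  refine ⟨?_, ?_, ?_, ?_, ?_⟩
  · rintro x y ⟨hx, hy, h2⟩
    exact ⟨hy, hx, h2.symm⟩
  · rintro x ⟨hx, hy, h2⟩
    exact h2.1 rfl
  · intro a b c d e f hab hbc hcd hde hef r1 r2 r3 r4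
    obtain ⟨-, hf⟩ := hlt _ _ r4
    apply hmk a d (by omega) (by omega)
    have := hexagon h hn (a := f) (b := a + n) (c := b + n) (d := c + n) (e := d + n) (f := e + n)
      (by omega) (by omega) (by omega) (by omega) (by omega) (by omega)
      (by rw [vx_add, vx_add]; exact hseg _ _ r1) (by rw [vx_add, vx_add]; exact hseg _ _ r2)
      (by rw [vx_add]; exact hseg _ _ r4) (by rw [vx_add, vx_add]; exact hseg' _ _ r3)
    rwa [vx_add, vx_add] at this
  · intro a b c d e f hab hbc hcd hde hef r1 r2 r3 r4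
    obtain ⟨-, hf⟩ := hlt _ _ r3
    apply hmk b e (by omega) (by omega)
    exact hexagon h hn hab hbc hcd hde hef (by omega) (hseg _ _ r2) (hseg _ _ r3)
      (hseg' _ _ r1) (hseg' _ _ r4)
  · intro a b c d e f hab hbc hcd hde hef r1 r2 r3 r4
    obtain ⟨-, hf⟩ := hlt _ _ r2
    apply hmk c f (by omega) (by omega)
    exact hexagon h hn (a := b) (b := c) (c := d) (d := e) (e := f) (f := a + n)
      hbc hcd hde hef (by omega) (by omega)
      (hseg _ _ r3) (by rw [vx_add]; exact hseg' _ _ r1) (hseg' _ _ r2) (hseg' _ _ r4)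

end Pool.Agent.TH695.BC
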