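import Pool.Agent.TH695.BC.Cone

/-!
# The hexagon property of simple polygons
-/

namespace Pool.Agent.TH695.BC

open Vis124 Finset Topology Filter

variable {n : ℕ} {v : Fin n → ℝ × ℝ} {P : Set (ℝ × ℝ)}

/-- If the vertex `r` sees a relatively inner point of the chord from `p` to `q`, then the side of
the chord on which it lies is determined by its position in the boundary order. -/
theorem side (h : IsSimplePolygon v P) (hn : 0 < n) {σ : ℝ} (hσ : σ = 1 ∨ σ = -1)
    (hint : ∀ k, Ev v (interior P) σ k) (hext : ∀ k, Ev v Pᶜ (-σ) k)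
    {p q : ℕ} (hpq : p < q) (hqn : q < p + n) (hS : segment ℝ (vx v hn p) (vx v hn q) ⊆ P)
    {Y : ℝ × ℝ} (hY : Y ∈ openSegment ℝ (vx v hn p) (vx v hn q)) {r : ℕ}
    (hr : segment ℝ (vx v hn r) Y ⊆ P)
    (hcr : cr (vx v hn q - vx v hn p) (vx v hn r - vx v hn p) ≠ 0) :
    (p < r → r < q → σ * cr (vx v hn q - vx v hn p) (vx v hn r - vx v hn p) < 0) ∧
    (q < r → r < p + n → 0 < σ * cr (vx v hn q - vx v hn p) (vx v hn r - vx v hn p)) := by
  set A := vx v hn p with hA
  set B := vx v hn q with hB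
  set R := vx v hn r with hR
  set l := B - A with hl
  set κ := cr l (R - A) with hκ
  obtain ⟨θ', θ, hθ', hθ, hθθ, hYe⟩ := hY
  have hθ1 : θ < 1 := by linarith
  have hYA : Y = A + θ • l := by
    rw [← hYe, hl]
    have : θ' = 1 - θ := by linarith
    rw [this]; module
  have hYS : Y ∈ segment ℝ A B := ⟨θ', θ, hθ'.le, hθ.le, hθθ, hYe⟩
  have hYP : Y ∈ P := hS hYS
  set D := R - Y with hD
  have hcrD : cr l D = κ := by
    rw [hD, hYA, hκ]; simp [cr]; ring
  have hl0 : l ≠ 0 := by
    intro h0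
    apply hcr
    rw [hκ, h0]; simp [cr]
  have hD0 : D ≠ 0 := by
    intro h0
    rw [h0] at hcrD
    apply hcr
    rw [← hcrD]; simp [cr]
  have hlA : ∀ x : ℝ × ℝ, x ∈ segment ℝ A B → cr l (x - A) = 0 := by
    rintro x ⟨a, b, -, -, hab, rfl⟩
    have : a = 1 - b := by linarith
    rw [this, hl]; simp [cr]; ring
  obtain ⟨E, hE, δ, hδ, hloc⟩ := local_cone h hσ hint hext hYP
  -- a small number
  set N := ‖D‖ + ‖l‖ with hN
  have hN0 : 0 < N := by
    have := norm_pos_iff.mpr hD0
    have := norm_nonneg l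
    rw [hN]; linarith
  set ρ : ℝ := min (min θ (1 - θ)) (δ / (2 * N)) with hρ
  have hρ0 : 0 < ρ := lt_min (lt_min hθ (by linarith)) (by positivity)
  have hρ1 : ρ ≤ θ := (min_le_left _ _).trans (min_le_left _ _)
  have hρ2 : ρ ≤ 1 - θ := (min_le_left _ _).trans (min_le_right _ _)
  have hρ3 : ρ * N < δ := by
    have h1 : ρ ≤ δ / (2 * N) := min_le_right _ _
    rw [le_div_iff₀ (by positivity)] at h1
    linarith
  have hsmall : ∀ a b : ℝ, |a| ≤ ρ → |b| ≤ ρ → ‖a • D + b • l‖ < δ := by
    intro a b ha hb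
    calc ‖a • D + b • l‖ ≤ ‖a • D‖ + ‖b • l‖ := norm_add_le _ _
      _ = |a| * ‖D‖ + |b| * ‖l‖ := by rw [norm_smul, norm_smul, Real.norm_eq_abs, Real.norm_eq_abs]
      _ ≤ ρ * ‖D‖ + ρ * ‖l‖ := add_le_add (mul_le_mul_of_nonneg_right ha (norm_nonneg _))
          (mul_le_mul_of_nonneg_right hb (norm_nonneg _))
      _ = ρ * N := by rw [hN]; ring
      _ < δ := hρ3
  have abρ : |ρ| ≤ ρ := (abs_of_pos hρ0).le
  have ab0 : |(0 : ℝ)| ≤ ρ := by rw [abs_zero]; exact hρ0.le
  have eD : D ∉ E := by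
    intro hm
    have h1 := cone_smul hE hρ0 hm
    have h2 := (hloc (ρ • D) (by have := hsmall ρ 0 abρ ab0; rwa [zero_smul, add_zero] at this)).mp
      (hr (by
        refine ⟨ρ, 1 - ρ, hρ0.le, by linarith, by ring, ?_⟩
        rw [hD]; module))
    exact h2 h1
  have el : l ∉ E := by
    intro hm
    have h1 := cone_smul hE hρ0 hm
    have h2 := (hloc (ρ • l) (by have := hsmall 0 ρ ab0 abρ; rwa [zero_smul, zero_add] at this)).mp
      (hS (by
        refine ⟨1 - (θ + ρ), θ + ρ, by linarith, by linarith, by ring, ?_⟩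
        rw [hYA, hl]; module))
    exact h2 h1
  have el' : -l ∉ E := by
    intro hm
    have h1 := cone_smul hE hρ0 hm
    have h2 := (hloc (ρ • -l) (by
      have := hsmall 0 (-ρ) ab0 (by rw [abs_neg]; exact abρ)
      rw [zero_smul, zero_add, neg_smul] at this
      rwa [smul_neg])).mp
      (hS (by
        refine ⟨1 - (θ - ρ), θ - ρ, by linarith, by linarith, by ring, ?_⟩
        rw [hYA, hl]; module))
    exact h2 h1
  obtain ⟨s, hs, havoid⟩ := cone_avoid hE eD el el'
  have hs1 : |s| = 1 := by rcases hs with rfl | rfl <;> simp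
  have hs0 : s ≠ 0 := by rcases hs with rfl | rfl <;> norm_num
  have hinP : ∀ a b : ℝ, 0 < a → a ≤ ρ → 0 ≤ b → b ≤ ρ → Y + (a • D + b • (s • l)) ∈ P := by
    intro a b ha ha' hb hb'
    rw [hloc]
    · exact havoid a b ha hb
    · rw [smul_smul]
      apply hsmall
      · rw [abs_of_pos ha]; exact ha'
      · rw [abs_mul, hs1, mul_one, abs_of_nonneg hb]; exact hb'
  have hcrp : ∀ a b : ℝ, cr l (Y + (a • D + b • (s • l)) - A) = a * κ := by
    intro a b
    rw [← hcrD, hYA]; simp [cr]; ring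
  -- the connected set
  set K : Set (ℝ × ℝ) := (fun c : ℝ × ℝ => Y + (c.1 • D + c.2 • (s • l))) ''
    (Set.Ioc 0 ρ ×ˢ Set.Icc 0 ρ) with hK
  set L : Set (ℝ × ℝ) := (fun a : ℝ => Y + (a • D + (0 : ℝ) • (s • l))) '' Set.Ioc 0 1 with hL
  have hKc : IsPreconnected K :=
    (isPreconnected_Ioc.prod isPreconnected_Icc).image _ (by fun_prop)
  have hLc : IsPreconnected L := isPreconnected_Ioc.image _ (by fun_prop)
  have hρle1 : ρ ≤ 1 := by linarith
  have hKL : IsPreconnected (K ∪ L) := by
    apply IsPreconnected.union (Y + (ρ • D + (0 : ℝ) • (s • l))) _ _ hKc hLc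
    · exact ⟨(ρ, 0), ⟨⟨hρ0, le_rfl⟩, ⟨le_rfl, hρ0.le⟩⟩, rfl⟩
    · exact ⟨ρ, ⟨hρ0, hρle1⟩, rfl⟩
  have hKLP : K ∪ L ⊆ P := by
    rintro x (⟨⟨a, b⟩, ⟨⟨h1, h2⟩, ⟨h3, h4⟩⟩, rfl⟩ | ⟨a, ⟨h1, h2⟩, rfl⟩)
    · exact hinP a b h1 h2 h3 h4
    · apply hr
      refine ⟨a, 1 - a, h1.le, by linarith, by ring, ?_⟩
      rw [hD]; module
  have hKLS : Disjoint (K ∪ L) (segment ℝ A B) := by
    rw [Set.disjoint_left]
    rintro x (⟨⟨a, b⟩, ⟨⟨h1, h2⟩, ⟨h3, h4⟩⟩, rfl⟩ | ⟨a, ⟨h1, h2⟩, rfl⟩) hx
    · have := hlA _ hx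
      simp only at this
      rw [hcrp] at this
      rcases mul_eq_zero.mp this with h5 | h5
      · exact h1.ne' h5
      · exact hcr h5
    · have := hlA _ hx
      rw [hcrp] at this
      rcases mul_eq_zero.mp this with h5 | h5
      · exact h1.ne' h5
      · exact hcr h5
  have hRmem : R ∈ K ∪ L := by
    right
    refine ⟨1, ⟨one_pos, le_rfl⟩, ?_⟩
    simp only [hD]; module
  have hRS : R ∉ segment ℝ A B := fun hm => hcr (hlA _ hm)
  -- inner points of the cone
  have hinI : ∀ a : ℝ, 0 < a → a < ρ → Y + (a • D + a • (s • l)) ∈ interior P := by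
    intro a ha0 ha1
    set fα : ℝ × ℝ → ℝ := fun z => cr (s • l) (z - Y) / cr (s • l) D with hfα
    set fβ : ℝ × ℝ → ℝ := fun z => cr (z - Y) D / cr (s • l) D with hfβ
    have hne : cr (s • l) D ≠ 0 := by
      rw [cr_smul_left, hcrD]; exact mul_ne_zero hs0 hcr
    have c1 : Continuous fα := by rw [hfα]; unfold cr; fun_prop
    have c2 : Continuous fβ := by rw [hfβ]; unfold cr; fun_prop
    have hopen : IsOpen {z : ℝ × ℝ | (0 < fα z ∧ fα z < ρ) ∧ (0 < fβ z ∧ fβ z < ρ)} := by
      apply IsOpen.inter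
      · exact (isOpen_Ioo (a := (0 : ℝ)) (b := ρ)).preimage c1
      · exact (isOpen_Ioo (a := (0 : ℝ)) (b := ρ)).preimage c2
    apply interior_maximal _ hopen
    · show (0 < fα _ ∧ fα _ < ρ) ∧ (0 < fβ _ ∧ fβ _ < ρ)
      have e1 : fα (Y + (a • D + a • (s • l))) = a := by
        simp only [hfα]
        rw [div_eq_iff hne]
        simp [cr]; ring
      have e2 : fβ (Y + (a • D + a • (s • l))) = a := by
        simp only [hfβ]
        rw [div_eq_iff hne]
        simp [cr]; ring
      rw [e1, e2]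
      exact ⟨⟨ha0, ha1⟩, ⟨ha0, ha1⟩⟩
    · rintro z ⟨⟨z1, z2⟩, ⟨z3, z4⟩⟩
      have h1 := cramer hne (z - Y)
      have h2 : z = Y + (fα z • D + fβ z • (s • l)) := by
        have h3 : z = Y + (z - Y) := by abel
        conv_lhs => rw [h3, h1]
        simp only [hfα, hfβ]
        abel
      rw [h2]
      exact hinP _ _ z1 z2.le z3.le z4.le
  -- the jump
  have hpi := Real.pi_pos
  have hYp : Y ≠ A := by
    intro he
    rw [he] at hYA
    have : θ • l = 0 := by simpa using hYA.symm
    rcases smul_eq_zero.mp this with h1 | h1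
    · exact hθ.ne' h1
    · exact hl0 h1
  have hYq : Y ≠ B := by
    intro he
    rw [he] at hYA
    have : (1 - θ) • l = 0 := by
      have h2 : (1 - θ) • l = B - (A + θ • l) := by rw [hl]; module
      rw [h2, ← hYA, sub_self]
    rcases smul_eq_zero.mp this with h1 | h1
    · linarith
    · exact hl0 h1
  have hYo : Y ∈ openSegment ℝ A B := ⟨θ', θ, hθ', hθ, hθθ, hYe⟩
  have hAB : A ≠ B := fun he => hl0 (by rw [hl, he, sub_self])
  -- jumps of the two sums
  have hjump : (∃ δ' > 0, ∀ a ∈ Metric.ball Y δ', ∀ b ∈ Metric.ball Y δ',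
      cr l (a - A) < 0 → 0 < cr l (b - A) → Wc v hn p q a - Wc v hn p q b = 2 * Real.pi) ∨
      (∃ δ' > 0, ∀ a ∈ Metric.ball Y δ', ∀ b ∈ Metric.ball Y δ',
      cr l (a - A) < 0 → 0 < cr l (b - A) →
        Wc v hn q (p + n) b - Wc v hn q (p + n) a = 2 * Real.pi) := by
    rcases one_off h hn (p := p) (q := q) hYp hYq with hoff | hoff
    · left
      obtain ⟨δ', hδ', hj⟩ := W_jump (isCyc_c (v := v) hn hpq.le) (i0 := q)
        (mem_Ico.mpr ⟨hpq.le, by omega⟩) (z := Y) (by
          unfold tq; rw [if_pos rfl, openSegment_symm]; exact hYo) (by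
          unfold tq; rw [if_pos rfl]; exact hAB.symm) (by
          intro i hi hiq
          rw [mem_Ico] at hi
          unfold tq; rw [if_neg hiq]
          exact hoff i (mem_Ico.mpr ⟨hi.1, by omega⟩))
      refine ⟨δ', hδ', fun a ha b hb h1 h2 => ?_⟩
      have e : ∀ x : ℝ × ℝ, cr (tq v hn p q q - vx v hn q) (x - vx v hn q) = -cr l (x - A) := by
        intro x
        unfold tq
        rw [if_pos rfl, ← hA, ← hB, hl]; simp [cr]; ring
      exact hj a ha b hb (by rw [e]; linarith) (by rw [e]; linarith)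
    · right
      obtain ⟨δ', hδ', hj⟩ := W_jump (isCyc_c (v := v) hn (p := q) (q := p + n) hqn.le)
        (i0 := p + n) (mem_Ico.mpr ⟨hqn.le, by omega⟩) (z := Y) (by
          unfold tq; rw [if_pos rfl, vx_add]; exact hYo) (by
          unfold tq; rw [if_pos rfl, vx_add]; exact hAB) (by
          intro i hi hiq
          rw [mem_Ico] at hi
          unfold tq; rw [if_neg hiq]
          exact hoff i (mem_Ico.mpr ⟨hi.1, by omega⟩))
      refine ⟨δ', hδ', fun a ha b hb h1 h2 => ?_⟩
      have e : ∀ x : ℝ × ℝ, cr (tq v hn q (p + n) (p + n) - vx v hn (p + n))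
          (x - vx v hn (p + n)) = cr l (x - A) := by
        intro x
        unfold tq
        rw [if_pos rfl, vx_add]
      exact hj b hb a ha (by rw [e]; exact h2) (by rw [e]; exact h1)
  -- the interior point on the side of `R` and a point on the other side
  have hpts : ∀ δ' > 0, ∃ x ∈ Metric.ball Y δ', ∃ y ∈ Metric.ball Y δ', x ∈ interior P ∧
      x ∈ K ∪ L ∧ 0 < cr l (x - A) * κ ∧ cr l (y - A) * κ < 0 ∧ (y ∈ interior P ∨ y ∉ P) := by
    intro δ' hδ'
    have hxe : ∃ a : ℝ, 0 < a ∧ a < ρ ∧ Y + (a • D + a • (s • l)) ∈ Metric.ball Y δ' := by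
      have hcont : Continuous fun a : ℝ => Y + (a • D + a • (s • l)) := by fun_prop
      have hn : ∀ᶠ a in 𝓝 (0 : ℝ), Y + (a • D + a • (s • l)) ∈ Metric.ball Y δ' := by
        apply hcont.continuousAt
        simpa using Metric.ball_mem_nhds Y hδ'
      obtain ⟨ε, hε, he⟩ := Metric.eventually_nhds_iff.mp hn
      refine ⟨min (ρ / 2) (ε / 2), lt_min (by linarith) (by linarith),
        lt_of_le_of_lt (min_le_left _ _) (by linarith), he ?_⟩
      rw [dist_zero_right, Real.norm_of_nonneg (le_min (by linarith) (by linarith))]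
      exact lt_of_le_of_lt (min_le_right _ _) (by linarith)
    obtain ⟨a, ha0, ha1, hab⟩ := hxe
    have hκ2 : 0 < κ * κ := mul_self_pos.mpr hcr
    refine ⟨_, hab, ?_⟩
    -- the open set on the other side
    set U : Set (ℝ × ℝ) := Metric.ball Y δ' ∩ {y | cr l (y - A) * κ < 0} with hU
    have hUo : IsOpen U := by
      apply Metric.isOpen_ball.inter
      apply isOpen_lt _ continuous_const
      unfold cr; fun_prop
    have hUne : U.Nonempty := by
      refine ⟨Y - (a • D + a • (s • l)), ?_, ?_⟩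
      · rw [Metric.mem_ball, dist_eq_norm] at hab ⊢
        rw [add_sub_cancel_left] at hab
        rwa [sub_sub_cancel_left, norm_neg]
      · show cr l (Y - (a • D + a • (s • l)) - A) * κ < 0
        have : cr l (Y - (a • D + a • (s • l)) - A) = -(a * κ) := by
          rw [← hcrD, hYA]; simp [cr]; ring
        rw [this]
        have := mul_pos ha0 hκ2
        nlinarith
    have hnot : ¬ U ⊆ frontier P := by
      intro hsub
      have h1 := interior_maximal hsub hUo
      rw [interior_frontier (isClosed_P h)] at h1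
      obtain ⟨y, hy⟩ := hUne
      exact h1 hy
    obtain ⟨y, hyU, hyf⟩ := Set.not_subset.mp hnot
    refine ⟨y, hyU.1, hinI a ha0 ha1, Or.inl ⟨(a, a), ⟨⟨ha0, ha1.le⟩, ⟨ha0.le, ha1.le⟩⟩, rfl⟩,
      ?_, hyU.2, ?_⟩
    · rw [hcrp]
      have := mul_pos ha0 hκ2
      linarith
    · by_cases hyP : y ∈ P
      · left
        by_contra hyi
        apply hyf
        rw [frontier, (isClosed_P h).closure_eq]
        exact ⟨hyP, hyi⟩
      · exact Or.inr hyP
  -- values
  have hval : ∀ y : ℝ × ℝ, cr l (y - A) ≠ 0 → (y ∈ interior P ∨ y ∉ P) →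
      (Wc v hn p q y + Wc v hn q (p + n) y = σ * (2 * Real.pi) ∧
        (Wc v hn p q y = σ * (2 * Real.pi) ∨ Wc v hn p q y = 0)) ∨
      (Wc v hn p q y = 0 ∧ Wc v hn q (p + n) y = 0) := by
    intro y hy hyy
    have hyS : y ∉ segment ℝ A B := fun hm => hy (hlA _ hm)
    rcases hyy with h1 | h1
    · left
      exact ⟨sum_in h hn hσ hint hext hpq hqn h1 hyS, dich h hn hσ hint hext hpq hqn hS h1 hyS⟩
    · right
      exact ⟨Wc_ext h hn hpq.le hS h1, Wc_ext h hn hqn.le (hS' hn hS) h1⟩
  have hside : ∀ x ∈ K ∪ L, x ∈ interior P →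
      (p < r → r < q → Wc v hn p q x = σ * (2 * Real.pi)) ∧
      (q < r → r < p + n → Wc v hn p q x = 0) := by
    intro x hx hxi
    have hxS := Set.disjoint_left.mp hKLS hx
    have hd := dich h hn hσ hint hext hpq hqn hS hxi hxS
    constructor
    · intro h1 h2
      have h3 := vertex1 h hn hσ hint hext hpq hqn hS h1 h2 hRS
      rcases hd with h4 | h4
      · exact h4
      · exfalso
        rcases conn h hn hσ hint hext hpq hqn hS hKL hKLP hKLS with h5 | h5
        · rcases sep h hn hσ hint hext hpq hqn hS (hKLP hx) hxS with h6 | h6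
          · exact h6 (h5 hx)
          · exact h6 (subset_closure ⟨hxi, hxS, h4⟩)
        · exact h3 (h5 hRmem)
    · intro h1 h2
      have h3 := vertex2 h hn hσ hint hext hpq hqn hS h1 h2 hRS
      rcases hd with h4 | h4
      · exfalso
        rcases conn h hn hσ hint hext hpq hqn hS hKL hKLP hKLS with h5 | h5
        · exact h3 (h5 hRmem)
        · rcases sep h hn hσ hint hext hpq hqn hS (hKLP hx) hxS with h6 | h6
          · exact h6 (subset_closure ⟨hxi, hxS, h4⟩)
          · exact h6 (h5 hx)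
      · exact h4
  -- conclusion
  rcases hjump with ⟨δ', hδ', hj⟩ | ⟨δ', hδ', hj⟩
  · obtain ⟨x, hxb, y, hyb, hxi, hxK, hx1, hy1, hyy⟩ := hpts δ' hδ'
    have hxn : cr l (x - A) ≠ 0 := by intro h0; rw [h0, zero_mul] at hx1; exact lt_irrefl _ hx1
    have hyn : cr l (y - A) ≠ 0 := by intro h0; rw [h0, zero_mul] at hy1; exact lt_irrefl _ hy1
    have vx' := hval x hxn (Or.inl hxi)
    have vy := hval y hyn hyy
    have hsd := hside x hxK hxi
    rcases lt_or_gt_of_ne hcr with hk | hk
    · have hx2 : cr l (x - A) < 0 := by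
        by_contra hh
        have := mul_nonneg (not_lt.mp hh) (neg_nonneg.mpr hk.le)
        linarith
      have hy2 : 0 < cr l (y - A) := by
        by_contra hh
        have := mul_nonneg (neg_nonneg.mpr (not_lt.mp hh)) (neg_nonneg.mpr hk.le)
        linarith
      have hjj := hj x hxb y hyb hx2 hy2
      constructor
      · intro h1 h2
        have h3 := hsd.1 h1 h2
        rcases hσ with rfl | rfl
        · linarith
        · exfalso
          rcases vy with ⟨-, h4 | h4⟩ | ⟨h4, -⟩ <;> linarith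
      · intro h1 h2
        have h3 := hsd.2 h1 h2
        rcases hσ with rfl | rfl
        · exfalso
          rcases vy with ⟨-, h4 | h4⟩ | ⟨h4, -⟩ <;> linarith
        · linarith
    · have hx2 : 0 < cr l (x - A) := by
        by_contra hh
        have := mul_nonneg (neg_nonneg.mpr (not_lt.mp hh)) hk.le
        linarith
      have hy2 : cr l (y - A) < 0 := by
        by_contra hh
        have := mul_nonneg (not_lt.mp hh) hk.le
        linarith
      have hjj := hj y hyb x hxb hy2 hx2
      constructor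
      · intro h1 h2
        have h3 := hsd.1 h1 h2
        rcases hσ with rfl | rfl
        · exfalso
          rcases vy with ⟨-, h4 | h4⟩ | ⟨h4, -⟩ <;> linarith
        · linarith
      · intro h1 h2
        have h3 := hsd.2 h1 h2
        rcases hσ with rfl | rfl
        · linarith
        · exfalso
          rcases vy with ⟨-, h4 | h4⟩ | ⟨h4, -⟩ <;> linarith
  · obtain ⟨x, hxb, y, hyb, hxi, hxK, hx1, hy1, hyy⟩ := hpts δ' hδ'
    have hxn : cr l (x - A) ≠ 0 := by intro h0; rw [h0, zero_mul] at hx1; exact lt_irrefl _ hx1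
    have hyn : cr l (y - A) ≠ 0 := by intro h0; rw [h0, zero_mul] at hy1; exact lt_irrefl _ hy1
    have vy := hval y hyn hyy
    have hsd := hside x hxK hxi
    have hxsum := sum_in h hn hσ hint hext hpq hqn hxi (Set.disjoint_left.mp hKLS hxK)
    rcases lt_or_gt_of_ne hcr with hk | hk
    · have hx2 : cr l (x - A) < 0 := by
        by_contra hh
        have := mul_nonneg (not_lt.mp hh) (neg_nonneg.mpr hk.le)
        linarith
      have hy2 : 0 < cr l (y - A) := by
        by_contra hh
        have := mul_nonneg (neg_nonneg.mpr (not_lt.mp hh)) (neg_nonneg.mpr hk.le)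
        linarith
      have hjj := hj x hxb y hyb hx2 hy2
      constructor
      · intro h1 h2
        have h3 := hsd.1 h1 h2
        rcases hσ with rfl | rfl
        · linarith
        · exfalso
          rcases vy with ⟨h5, h4 | h4⟩ | ⟨h4, h5⟩ <;> linarith
      · intro h1 h2
        have h3 := hsd.2 h1 h2
        rcases hσ with rfl | rfl
        · exfalso
          rcases vy with ⟨h5, h4 | h4⟩ | ⟨h4, h5⟩ <;> linarith
        · linarith
    · have hx2 : 0 < cr l (x - A) := by
        by_contra hh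
        have := mul_nonneg (neg_nonneg.mpr (not_lt.mp hh)) hk.le
        linarith
      have hy2 : cr l (y - A) < 0 := by
        by_contra hh
        have := mul_nonneg (not_lt.mp hh) hk.le
        linarith
      have hjj := hj y hyb x hxb hy2 hx2
      constructor
      · intro h1 h2
        have h3 := hsd.1 h1 h2
        rcases hσ with rfl | rfl
        · exfalso
          rcases vy with ⟨h5, h4 | h4⟩ | ⟨h4, h5⟩ <;> linarith
        · linarith
      · intro h1 h2
        have h3 := hsd.2 h1 h2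
        rcases hσ with rfl | rfl
        · linarith
        · exfalso
          rcases vy with ⟨h5, h4 | h4⟩ | ⟨h4, h5⟩ <;> linarith

end Pool.Agent.TH695.BC
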