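import Mathlib

/-!
# A two-dimensional Hilbert-type inequality for bicliques of a product of half graphs
-/

namespace Pool.Agent.TH695.BC

open Finset

/-- increments of the square root -/
lemma sqrt_step (Y : ℝ) (hY : 1 ≤ Y) :
    1 / Real.sqrt Y ≤ 2 * (Real.sqrt Y - Real.sqrt (Y - 1)) := by
  have h0 : 0 < Real.sqrt Y := Real.sqrt_pos.mpr (by linarith)
  have h1 : 0 ≤ Real.sqrt (Y - 1) := Real.sqrt_nonneg _
  have h2 : Real.sqrt Y ^ 2 = Y := Real.sq_sqrt (by linarith)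
  have h3 : Real.sqrt (Y - 1) ^ 2 = Y - 1 := Real.sq_sqrt (by linarith)
  rw [div_le_iff₀ h0]
  nlinarith [sq_nonneg (Real.sqrt Y - Real.sqrt (Y - 1))]

lemma inv_sqrt_step (Y : ℝ) (hY : 1 < Y) :
    1 / (Y * Real.sqrt Y) ≤ 2 * (1 / Real.sqrt (Y - 1) - 1 / Real.sqrt Y) := by
  have h0 : 0 < Real.sqrt Y := Real.sqrt_pos.mpr (by linarith)
  have h1 : 0 < Real.sqrt (Y - 1) := Real.sqrt_pos.mpr (by linarith)
  have h2 : Real.sqrt Y ^ 2 = Y := Real.sq_sqrt (by linarith)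
  have h3 : Real.sqrt (Y - 1) ^ 2 = Y - 1 := Real.sq_sqrt (by linarith)
  set a := Real.sqrt Y with ha
  set b := Real.sqrt (Y - 1) with hb
  have hYa : Y = a ^ 2 := h2.symm
  have hab : a ^ 2 - b ^ 2 = 1 := by rw [h2, h3]; ring
  have hba : b < a := by nlinarith
  have hb2 : b ^ 2 = a ^ 2 - 1 := by linarith
  rw [hYa]
  have e : 2 * (1 / b - 1 / a) = 2 * (a - b) / (a * b) := by field_simp
  rw [e, div_le_div_iff₀ (by positivity) (by positivity)]
  -- 1 * (a * b) ≤ 2 * (a - b) * (a ^ 2 * a)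
  have h5 : (a - b) * (a + b) = 1 := by nlinarith
  have h6 : 1 ≤ 2 * (a - b) * a := by nlinarith
  have h7 : b ≤ a ^ 2 * (2 * (a - b) * a) := by
    have h8 : a ^ 2 ≤ a ^ 2 * (2 * (a - b) * a) := by nlinarith [sq_nonneg a]
    have h9 : b ≤ a ^ 2 := by nlinarith [sq_nonneg (b - 1)]
    linarith
  nlinarith

/-- the one-dimensional row sum -/
lemma row_sum_aux1 (x M : ℕ) :
    ∑ y ∈ range M, (1 / ((x : ℝ) + y + 1)) * Real.sqrt (((x : ℝ) + 1) / ((y : ℝ) + 1))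
      ≤ 2 * Real.sqrt (M / ((x : ℝ) + 1)) := by
  induction M with
  | zero => simp
  | succ M ih =>
    rw [sum_range_succ]
    have hx : (0 : ℝ) ≤ x := Nat.cast_nonneg x
    have hM : (0 : ℝ) ≤ M := Nat.cast_nonneg M
    have hX : (0 : ℝ) < Real.sqrt ((x : ℝ) + 1) := Real.sqrt_pos.mpr (by linarith)
    have hY : (0 : ℝ) < Real.sqrt ((M : ℝ) + 1) := Real.sqrt_pos.mpr (by linarith)
    have hX2 : Real.sqrt ((x : ℝ) + 1) ^ 2 = (x : ℝ) + 1 := Real.sq_sqrt (by linarith)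
    have h1 : (1 / ((x : ℝ) + M + 1)) * Real.sqrt (((x : ℝ) + 1) / ((M : ℝ) + 1))
        ≤ 1 / (Real.sqrt ((x : ℝ) + 1) * Real.sqrt ((M : ℝ) + 1)) := by
      rw [Real.sqrt_div' _ (by linarith)]
      have h2 : 1 / ((x : ℝ) + M + 1) ≤ 1 / ((x : ℝ) + 1) :=
        one_div_le_one_div_of_le (by linarith) (by linarith)
      calc (1 / ((x : ℝ) + M + 1)) * (Real.sqrt ((x : ℝ) + 1) / Real.sqrt ((M : ℝ) + 1))
          ≤ (1 / ((x : ℝ) + 1)) * (Real.sqrt ((x : ℝ) + 1) / Real.sqrt ((M : ℝ) + 1)) :=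
            mul_le_mul_of_nonneg_right h2 (by positivity)
        _ = 1 / (Real.sqrt ((x : ℝ) + 1) * Real.sqrt ((M : ℝ) + 1)) := by
            rw [← hX2]; field_simp
            rw [Real.sqrt_sq hX.le]
    have h3 := sqrt_step ((M : ℝ) + 1) (by linarith)
    have h4 : ((M : ℝ) + 1 - 1) = M := by ring
    rw [h4] at h3
    have h5 : 1 / (Real.sqrt ((x : ℝ) + 1) * Real.sqrt ((M : ℝ) + 1))
        ≤ 2 * (Real.sqrt ((M : ℝ) + 1) - Real.sqrt M) / Real.sqrt ((x : ℝ) + 1) := by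
      rw [le_div_iff₀ hX]
      calc 1 / (Real.sqrt ((x : ℝ) + 1) * Real.sqrt ((M : ℝ) + 1)) * Real.sqrt ((x : ℝ) + 1)
          = 1 / Real.sqrt ((M : ℝ) + 1) := by field_simp
        _ ≤ _ := h3
    have h6 : Real.sqrt (((M + 1 : ℕ) : ℝ) / ((x : ℝ) + 1))
        = Real.sqrt ((M : ℝ) + 1) / Real.sqrt ((x : ℝ) + 1) := by
      rw [Real.sqrt_div' _ (by linarith)]; push_cast; rfl
    have h7 : Real.sqrt ((M : ℝ) / ((x : ℝ) + 1))
        = Real.sqrt (M : ℝ) / Real.sqrt ((x : ℝ) + 1) := by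
      rw [Real.sqrt_div' _ (by linarith)]
    rw [h6]
    rw [h7] at ih
    have h8 : 2 * (Real.sqrt ((M : ℝ) + 1) - Real.sqrt M) / Real.sqrt ((x : ℝ) + 1)
        = 2 * (Real.sqrt ((M : ℝ) + 1) / Real.sqrt ((x : ℝ) + 1))
          - 2 * (Real.sqrt M / Real.sqrt ((x : ℝ) + 1)) := by ring
    linarith

lemma row_sum_aux2 (x k : ℕ) :
    ∑ y ∈ range (x + 1 + k),
      (1 / ((x : ℝ) + y + 1)) * Real.sqrt (((x : ℝ) + 1) / ((y : ℝ) + 1))
      ≤ 4 - 2 * Real.sqrt (((x : ℝ) + 1) / ((x : ℝ) + 1 + k)) := by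
  induction k with
  | zero =>
    have h := row_sum_aux1 x (x + 1)
    have hx : (0 : ℝ) ≤ x := Nat.cast_nonneg x
    have e1 : ((x + 1 : ℕ) : ℝ) / ((x : ℝ) + 1) = 1 := by
      push_cast; exact div_self (by linarith)
    rw [e1, Real.sqrt_one] at h
    have e2 : ((x : ℝ) + 1) / ((x : ℝ) + 1 + (0 : ℕ)) = 1 := by
      push_cast; rw [add_zero]; exact div_self (by linarith)
    rw [e2, Real.sqrt_one]
    simp only [add_zero]
    linarith
  | succ k ih =>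
    rw [← add_assoc, sum_range_succ]
    have hx : (0 : ℝ) ≤ x := Nat.cast_nonneg x
    have hk : (0 : ℝ) ≤ k := Nat.cast_nonneg k
    push_cast at ih ⊢
    set X : ℝ := (x : ℝ) + 1 with hX
    have hXpos : 1 ≤ X := by linarith
    have hs := inv_sqrt_step (X + k + 1) (by linarith)
    have e : X + k + 1 - 1 = X + k := by ring
    rw [e] at hs
    have hsX : 0 < Real.sqrt X := Real.sqrt_pos.mpr (by linarith)
    have hsY : 0 < Real.sqrt (X + k + 1) := Real.sqrt_pos.mpr (by linarith)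
    have h1 : (1 / ((x : ℝ) + (X + k) + 1)) * Real.sqrt (X / (X + k + 1))
        ≤ Real.sqrt X * (1 / ((X + k + 1) * Real.sqrt (X + k + 1))) := by
      rw [Real.sqrt_div' _ (by linarith)]
      have h2 : 1 / ((x : ℝ) + (X + k) + 1) ≤ 1 / (X + k + 1) :=
        one_div_le_one_div_of_le (by linarith) (by linarith)
      calc (1 / ((x : ℝ) + (X + k) + 1)) * (Real.sqrt X / Real.sqrt (X + k + 1))
          ≤ (1 / (X + k + 1)) * (Real.sqrt X / Real.sqrt (X + k + 1)) :=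
            mul_le_mul_of_nonneg_right h2 (by positivity)
        _ = Real.sqrt X * (1 / ((X + k + 1) * Real.sqrt (X + k + 1))) := by
            field_simp
    have h3 : Real.sqrt X * (1 / ((X + k + 1) * Real.sqrt (X + k + 1)))
        ≤ Real.sqrt X * (2 * (1 / Real.sqrt (X + k) - 1 / Real.sqrt (X + k + 1))) :=
      mul_le_mul_of_nonneg_left hs hsX.le
    have h6 : Real.sqrt (X / (X + (k + 1))) = Real.sqrt X / Real.sqrt (X + k + 1) := by
      rw [Real.sqrt_div' _ (by linarith), ← add_assoc]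
    have h7 : Real.sqrt (X / (X + k)) = Real.sqrt X / Real.sqrt (X + k) := by
      rw [Real.sqrt_div' _ (by linarith)]
    rw [h6]
    rw [h7] at ih
    have h8 : Real.sqrt X * (2 * (1 / Real.sqrt (X + k) - 1 / Real.sqrt (X + k + 1)))
        = 2 * (Real.sqrt X / Real.sqrt (X + k)) - 2 * (Real.sqrt X / Real.sqrt (X + k + 1)) := by
      ring
    linarith

lemma row_sum (x M : ℕ) :
    ∑ y ∈ range M, (1 / ((x : ℝ) + y + 1)) * Real.sqrt (((x : ℝ) + 1) / ((y : ℝ) + 1)) ≤ 4 := by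
  have hnn : ∀ y : ℕ, 0 ≤ (1 / ((x : ℝ) + y + 1)) * Real.sqrt (((x : ℝ) + 1) / ((y : ℝ) + 1)) :=
    fun y => by positivity
  have h1 : ∑ y ∈ range M, (1 / ((x : ℝ) + y + 1)) * Real.sqrt (((x : ℝ) + 1) / ((y : ℝ) + 1))
      ≤ ∑ y ∈ range (x + 1 + M),
        (1 / ((x : ℝ) + y + 1)) * Real.sqrt (((x : ℝ) + 1) / ((y : ℝ) + 1)) := by
    apply sum_le_sum_of_subset_of_nonneg
    · intro a ha
      rw [mem_range] at ha ⊢
      omega
    · intro i _ _
      exact hnn i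
  have h2 := row_sum_aux2 x M
  have h3 := Real.sqrt_nonneg (((x : ℝ) + 1) / ((x : ℝ) + 1 + M))
  linarith

/-- the twisted one-dimensional kernel -/
noncomputable def R (x y : ℕ) : ℝ :=
  (1 / ((x : ℝ) + y + 1)) * Real.sqrt (((x : ℝ) + 1) / ((y : ℝ) + 1))

lemma R_nonneg (x y : ℕ) : 0 ≤ R x y := by
  unfold R; positivity

lemma prod_row (m : ℕ) (B : Finset (ℕ × ℕ)) (hB : B ⊆ range m ×ˢ range m) (b1 b2 x x' : ℕ)
    (hb : ∀ q ∈ B, b1 ≤ q.1 ∧ b2 ≤ q.2) :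
    ∑ q ∈ B, R x (q.2 - b2) * R x' (q.1 - b1) ≤ 16 := by
  classical
  let φ : ℕ × ℕ → ℕ × ℕ := fun q => (q.1 - b1, q.2 - b2)
  have hinj : Set.InjOn φ B := by
    intro p hp q hq h
    have h1 := hb p hp
    have h2 := hb q hq
    have h3 := congrArg Prod.fst h
    have h4 := congrArg Prod.snd h
    simp only [φ] at h3 h4
    ext <;> omega
  have e : ∑ q ∈ B, R x (q.2 - b2) * R x' (q.1 - b1)
      = ∑ r ∈ B.image φ, R x r.2 * R x' r.1 := by
    rw [sum_image hinj]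
  rw [e]
  have h1 : ∑ r ∈ B.image φ, R x r.2 * R x' r.1
      ≤ ∑ r ∈ range m ×ˢ range m, R x r.2 * R x' r.1 := by
    apply sum_le_sum_of_subset_of_nonneg
    · intro r hr
      rw [mem_image] at hr
      obtain ⟨q, hq, rfl⟩ := hr
      have := hB hq
      rw [mem_product, mem_range, mem_range] at this
      rw [mem_product, mem_range, mem_range]
      simp only [φ]
      omega
    · intro i _ _
      exact mul_nonneg (R_nonneg _ _) (R_nonneg _ _)
  have h2 : ∑ r ∈ range m ×ˢ range m, R x r.2 * R x' r.1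
      = (∑ y ∈ range m, R x' y) * (∑ y ∈ range m, R x y) := by
    rw [sum_product, sum_mul_sum]
    refine sum_congr rfl fun i _ => sum_congr rfl fun j _ => ?_
    ring
  have h3 : ∑ y ∈ range m, R x' y ≤ 4 := row_sum x' m
  have h4 : ∑ y ∈ range m, R x y ≤ 4 := row_sum x m
  have h5 : 0 ≤ ∑ y ∈ range m, R x' y := sum_nonneg fun i _ => R_nonneg _ _
  have h6 : 0 ≤ ∑ y ∈ range m, R x y := sum_nonneg fun i _ => R_nonneg _ _
  nlinarith

/-- the bipartite relation: `p = (p₁, p₂)` and `q = (q₁, q₂)` are related iff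
`m ≤ p₁ + q₂` and `m ≤ p₂ + q₁` -/
def rel (m : ℕ) (p q : ℕ × ℕ) : Prop := m ≤ p.1 + q.2 ∧ m ≤ p.2 + q.1

instance (m : ℕ) (p q : ℕ × ℕ) : Decidable (rel m p q) := by unfold rel; infer_instance

/-- the weight -/
noncomputable def W (m : ℕ) (p q : ℕ × ℕ) : ℝ :=
  if rel m p q then
    1 / (((p.1 : ℝ) + q.2 - m + 1) * ((p.2 : ℝ) + q.1 - m + 1))
  else 0

lemma W_nonneg (m : ℕ) (p q : ℕ × ℕ) : 0 ≤ W m p q := by
  unfold W
  split_ifs with h
  · have h1 : (m : ℝ) ≤ p.1 + q.2 := by exact_mod_cast h.1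
    have h2 : (m : ℝ) ≤ p.2 + q.1 := by exact_mod_cast h.2
    have h3 : 0 < (p.1 : ℝ) + q.2 - m + 1 := by linarith
    have h4 : 0 < (p.2 : ℝ) + q.1 - m + 1 := by linarith
    positivity
  · exact le_refl _

lemma kernel_amgm (x y x' y' : ℕ) :
    (1 / ((x : ℝ) + y + 1)) * (1 / ((x' : ℝ) + y' + 1))
      ≤ (1 / 2) * (R x y * R x' y') + (1 / 2) * (R y x * R y' x') := by
  have hx : (0 : ℝ) ≤ x := Nat.cast_nonneg x
  have hy : (0 : ℝ) ≤ y := Nat.cast_nonneg y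
  have hx' : (0 : ℝ) ≤ x' := Nat.cast_nonneg x'
  have hy' : (0 : ℝ) ≤ y' := Nat.cast_nonneg y'
  unfold R
  set a := Real.sqrt ((x : ℝ) + 1) with ha
  set b := Real.sqrt ((y : ℝ) + 1) with hb
  set a' := Real.sqrt ((x' : ℝ) + 1) with ha'
  set b' := Real.sqrt ((y' : ℝ) + 1) with hb'
  have pa : 0 < a := Real.sqrt_pos.mpr (by linarith)
  have pb : 0 < b := Real.sqrt_pos.mpr (by linarith)
  have pa' : 0 < a' := Real.sqrt_pos.mpr (by linarith)
  have pb' : 0 < b' := Real.sqrt_pos.mpr (by linarith)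
  rw [Real.sqrt_div' _ (by linarith), Real.sqrt_div' _ (by linarith),
    Real.sqrt_div' _ (by linarith), Real.sqrt_div' _ (by linarith),
    ← ha, ← hb, ← ha', ← hb']
  have e1 : (y : ℝ) + x + 1 = x + y + 1 := by ring
  have e2 : (y' : ℝ) + x' + 1 = x' + y' + 1 := by ring
  rw [e1, e2]
  set k : ℝ := 1 / ((x : ℝ) + y + 1) with hk
  set k' : ℝ := 1 / ((x' : ℝ) + y' + 1) with hk'
  have pk : 0 < k := by rw [hk]; positivity
  have pk' : 0 < k' := by rw [hk']; positivity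
  have key : 1 ≤ (1 / 2) * (a / b * (a' / b')) + (1 / 2) * (b / a * (b' / a')) := by
    have h1 : b / a * (b' / a') = 1 / (a / b * (a' / b')) := by field_simp
    rw [h1]
    set s := a / b * (a' / b') with hs
    have ps : 0 < s := by rw [hs]; positivity
    have h2 : 0 ≤ (s - 1) ^ 2 / s := by positivity
    have h3 : (s - 1) ^ 2 / s = s + 1 / s - 2 := by field_simp; ring
    linarith
  have h := mul_le_mul_of_nonneg_left key (mul_pos pk pk').le
  calc k * k' = k * k' * 1 := by ring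
    _ ≤ _ := h
    _ = _ := by ring

lemma biclique_weight (m : ℕ) (A B : Finset (ℕ × ℕ)) (hA : A ⊆ range m ×ˢ range m)
    (hB : B ⊆ range m ×ˢ range m) (h : ∀ p ∈ A, ∀ q ∈ B, rel m p q) :
    ∑ p ∈ A, ∑ q ∈ B, W m p q ≤ 8 * ((A.card : ℝ) + B.card) := by
  classical
  rcases A.eq_empty_or_nonempty with rfl | hAne
  · simp
  rcases B.eq_empty_or_nonempty with rfl | hBne
  · simp
  obtain ⟨pa1, hpa1, ha1⟩ := exists_min_image A Prod.fst hAne
  obtain ⟨pa2, hpa2, ha2⟩ := exists_min_image A Prod.snd hAne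
  obtain ⟨qb1, hqb1, hb1⟩ := exists_min_image B Prod.fst hBne
  obtain ⟨qb2, hqb2, hb2⟩ := exists_min_image B Prod.snd hBne
  set a1 := pa1.1 with ha1d
  set a2 := pa2.2 with ha2d
  set b1 := qb1.1 with hb1d
  set b2 := qb2.2 with hb2d
  have r1 : m ≤ a1 + b2 := (h pa1 hpa1 qb2 hqb2).1
  have r2 : m ≤ a2 + b1 := (h pa2 hpa2 qb1 hqb1).2
  have key : ∀ p ∈ A, ∀ q ∈ B, W m p q ≤
      (1 / 2) * (R (p.1 - a1) (q.2 - b2) * R (p.2 - a2) (q.1 - b1))
      + (1 / 2) * (R (q.2 - b2) (p.1 - a1) * R (q.1 - b1) (p.2 - a2)) := by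
    intro p hp q hq
    refine le_trans ?_ (kernel_amgm (p.1 - a1) (q.2 - b2) (p.2 - a2) (q.1 - b1))
    have hr := h p hp q hq
    unfold W
    rw [if_pos hr]
    have c1 := ha1 p hp
    have c2 := ha2 p hp
    have c3 := hb1 q hq
    have c4 := hb2 q hq
    rw [Nat.cast_sub c1, Nat.cast_sub c2, Nat.cast_sub c3, Nat.cast_sub c4]
    have r1' : (m : ℝ) ≤ a1 + b2 := by exact_mod_cast r1
    have r2' : (m : ℝ) ≤ a2 + b1 := by exact_mod_cast r2
    have c1' : (a1 : ℝ) ≤ p.1 := by exact_mod_cast c1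
    have c2' : (a2 : ℝ) ≤ p.2 := by exact_mod_cast c2
    have c3' : (b1 : ℝ) ≤ q.1 := by exact_mod_cast c3
    have c4' : (b2 : ℝ) ≤ q.2 := by exact_mod_cast c4
    rw [one_div_mul_one_div]
    apply one_div_le_one_div_of_le
    · have : 0 < (p.1 : ℝ) - a1 + (q.2 - b2) + 1 := by linarith
      have : 0 < (p.2 : ℝ) - a2 + (q.1 - b1) + 1 := by linarith
      positivity
    · apply mul_le_mul <;> linarith
  have S1 : ∑ p ∈ A, ∑ q ∈ B, R (p.1 - a1) (q.2 - b2) * R (p.2 - a2) (q.1 - b1)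
      ≤ 16 * (A.card : ℝ) := by
    calc _ ≤ ∑ p ∈ A, (16 : ℝ) := by
          apply sum_le_sum
          intro p _
          exact prod_row m B hB b1 b2 _ _ (fun q hq => ⟨hb1 q hq, hb2 q hq⟩)
      _ = _ := by rw [sum_const, nsmul_eq_mul]; ring
  have S2 : ∑ p ∈ A, ∑ q ∈ B, R (q.2 - b2) (p.1 - a1) * R (q.1 - b1) (p.2 - a2)
      ≤ 16 * (B.card : ℝ) := by
    rw [sum_comm]
    calc _ ≤ ∑ q ∈ B, (16 : ℝ) := by
          apply sum_le_sum
          intro q _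
          have := prod_row m A hA a1 a2 (q.1 - b1) (q.2 - b2)
            (fun p hp => ⟨ha1 p hp, ha2 p hp⟩)
          refine le_trans (le_of_eq ?_) this
          refine sum_congr rfl fun p _ => ?_
          ring
      _ = _ := by rw [sum_const, nsmul_eq_mul]; ring
  calc ∑ p ∈ A, ∑ q ∈ B, W m p q
      ≤ ∑ p ∈ A, ∑ q ∈ B,
        ((1 / 2) * (R (p.1 - a1) (q.2 - b2) * R (p.2 - a2) (q.1 - b1))
        + (1 / 2) * (R (q.2 - b2) (p.1 - a1) * R (q.1 - b1) (p.2 - a2))) :=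
        sum_le_sum fun p hp => sum_le_sum fun q hq => key p hp q hq
    _ = (1 / 2) * ∑ p ∈ A, ∑ q ∈ B, R (p.1 - a1) (q.2 - b2) * R (p.2 - a2) (q.1 - b1)
        + (1 / 2) * ∑ p ∈ A, ∑ q ∈ B, R (q.2 - b2) (p.1 - a1) * R (q.1 - b1) (p.2 - a2) := by
        simp only [sum_add_distrib, mul_sum]
    _ ≤ _ := by linarith

end Pool.Agent.TH695.BC
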