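import Pool.Agent.TH695.BC.Count

/-!
# Labels: the two schemes
-/

namespace Pool.Agent.TH695.BC

open Finset Classical

variable {R : ℕ → ℕ → Prop}

/-- the block with index `t` at scale `s` lies in the hull of the neighbours -/
def blockIn (R : ℕ → ℕ → Prop) (i u s t : ℕ) : Prop := ∀ x, bl s x = t → inI R i u x

lemma bl_mul (s t : ℕ) : bl s (t * 2 ^ s) = t := Nat.mul_div_cancel t (by positivity)

/-- first and last neighbour in the sibling block -/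
noncomputable def loI (R : ℕ → ℕ → Prop) (i u : ℕ) : ℕ := sInf {y | Sib i u y ∧ R u y}
noncomputable def hiI (R : ℕ → ℕ → Prop) (i u : ℕ) : ℕ := sSup {y | Sib i u y ∧ R u y}

lemma bdd_sib (i u : ℕ) (p : ℕ → Prop) : BddAbove {y | Sib i u y ∧ p y} := by
  refine ⟨(bl (i + 1) u + 1) * 2 ^ (i + 1), ?_⟩
  rintro y ⟨h, -⟩
  have h2 := h.2
  unfold bl at h2 ⊢
  have := Nat.lt_mul_of_div_lt (show y / 2 ^ (i + 1) < u / 2 ^ (i + 1) + 1 by omega)
    (by positivity)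
  exact this.le

lemma loI_mem {i u : ℕ} (h : Lev R i u) : Sib i u (loI R i u) ∧ R u (loI R i u) := Nat.sInf_mem h

lemma hiI_mem {i u : ℕ} (h : Lev R i u) : Sib i u (hiI R i u) ∧ R u (hiI R i u) :=
  Nat.sSup_mem h (bdd_sib i u _)

lemma inI.lev {i u x : ℕ} (h : inI R i u x) : Lev R i u := by
  obtain ⟨⟨y, h1, h2, -⟩, -⟩ := h
  exact ⟨y, h1, h2⟩

lemma inI.lo_le {i u x : ℕ} (h : inI R i u x) : loI R i u ≤ x := by
  obtain ⟨⟨y, h1, h2, h3⟩, -⟩ := h
  exact (Nat.sInf_le (show y ∈ {y | Sib i u y ∧ R u y} from ⟨h1, h2⟩)).trans h3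

lemma inI.le_hi {i u x : ℕ} (h : inI R i u x) : x ≤ hiI R i u := by
  obtain ⟨-, ⟨y, h1, h2, h3⟩⟩ := h
  exact h3.trans (le_csSup (bdd_sib i u _) (show y ∈ {y | Sib i u y ∧ R u y} from ⟨h1, h2⟩))

lemma outside_of_not {i u x : ℕ} (hl : Lev R i u) (h : ¬ inI R i u x) :
    x < loI R i u ∨ hiI R i u < x := by
  by_contra hc
  push Not at hc
  exact h ⟨⟨_, (loI_mem hl).1, (loI_mem hl).2, hc.1⟩, ⟨_, (hiI_mem hl).1, (hiI_mem hl).2, hc.2⟩⟩

/-- the maximal blocks of an interval are children of the ancestors of its end points -/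
lemma child_cand {s t' x0 x' lo hi : ℕ} (h0 : bl s x0 = t') (h1 : bl (s + 1) x' = t' / 2)
    (h2 : bl s x' ≠ t') (h3 : lo ≤ x0) (h4 : x0 ≤ hi) (h5 : x' < lo ∨ hi < x') :
    t' = 2 * bl (s + 1) hi ∨ t' = 2 * bl (s + 1) lo + 1 := by
  have e0 : bl (s + 1) x0 = t' / 2 := by rw [bl_succ, h0]
  have e1 := bl_succ s x'
  rcases h5 with h5 | h5
  · right
    have e2 := bl_between (s := s + 1) (h5.le) h3 h1 e0
    have e3 := bl_mono s (show x' ≤ x0 by omega)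
    omega
  · left
    have e2 := bl_between (s := s + 1) h4 (h5.le) e0 h1
    have e3 := bl_mono s (show x0 ≤ x' by omega)
    omega

/-! ### Scheme 1 -/

/-- left role in scheme 1 -/
def A1 (R : ℕ → ℕ → Prop) (u : ℕ) (l : ℕ × ℕ × ℕ × ℕ × ℕ) : Prop :=
  l.2.1 ≤ l.1 ∧ l.2.2.2.1 ≤ l.1 ∧ bl l.2.1 u = l.2.2.1 ∧ blockIn R l.1 u l.2.2.2.1 l.2.2.2.2 ∧
  (∃ x, bl (l.2.2.2.1 + 1) x = l.2.2.2.2 / 2 ∧ ¬ inI R l.1 u x) ∧
  ¬ Long R l.1 (max l.2.1 l.2.2.2.1 + 1) u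

/-- exchange of the two blocks -/
def swp (l : ℕ × ℕ × ℕ × ℕ × ℕ) : ℕ × ℕ × ℕ × ℕ × ℕ :=
  (l.1, l.2.2.2.1, l.2.2.2.2, l.2.1, l.2.2.1)

lemma swp_swp (l : ℕ × ℕ × ℕ × ℕ × ℕ) : swp (swp l) = l := rfl

/-- adjacency in scheme 1 -/
lemma Hex.scheme1 (hx : Hex R) {u v : ℕ} {l : ℕ × ℕ × ℕ × ℕ × ℕ} (h1 : A1 R u l)
    (h2 : A1 R v (swp l)) : R u v := by
  obtain ⟨-, -, h3, h4, -, -⟩ := h1
  obtain ⟨-, -, h5, h6, -, -⟩ := h2
  exact hx.adj (h4 v h5) (h6 u h3)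

/-- the index map of scheme 1 -/
noncomputable def m1 (R : ℕ → ℕ → Prop) (u : ℕ) (q : (ℕ × ℕ) × ℕ × ℕ × ℕ) :
    ℕ × ℕ × ℕ × ℕ × ℕ :=
  (q.1.1, (if q.2.2.1 = 0 then q.1.2 else q.2.1), bl (if q.2.2.1 = 0 then q.1.2 else q.2.1) u,
    (if q.2.2.1 = 0 then q.2.1 else q.1.2),
    (if q.2.2.2 = 0 then 2 * bl ((if q.2.2.1 = 0 then q.2.1 else q.1.2) + 1) (hiI R q.1.1 u)
      else 2 * bl ((if q.2.2.1 = 0 then q.2.1 else q.1.2) + 1) (loI R q.1.1 u) + 1))

/-- the labels of a vertex in scheme 1 -/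
noncomputable def L1 (R : ℕ → ℕ → Prop) (L u : ℕ) : Finset (ℕ × ℕ × ℕ × ℕ × ℕ) :=
  ((bad R L u ×ˢ range L ×ˢ range 2 ×ˢ range 2).image (m1 R u)).filter (A1 R u)

lemma card_L1 (L u : ℕ) : (L1 R L u).card ≤ 20 * L ^ 2 := by
  refine (card_filter_le _ _).trans (card_image_le.trans ?_)
  rw [card_product, card_product, card_product, card_range, card_range]
  have := card_bad (R := R) L u
  nlinarith

lemma mem_L1 {L u : ℕ} {l : ℕ × ℕ × ℕ × ℕ × ℕ} (hl : l.1 < L) (h : A1 R u l) : l ∈ L1 R L u := by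
  rw [L1, mem_filter]
  refine ⟨?_, h⟩
  obtain ⟨i, α, t, β, t'⟩ := l
  obtain ⟨h1, h2, h3, h4, ⟨x', hx1, hx2⟩, h6⟩ := h
  simp only at hl h1 h2 h3 h4 hx1 hx2 h6
  have hin : inI R i u (t' * 2 ^ β) := h4 _ (bl_mul β t')
  have hlev := hin.lev
  have hb : (i, max α β) ∈ bad R L u := by
    rw [bad, mem_filter, mem_product, mem_range, mem_range]
    exact ⟨⟨hl, by simp only; omega⟩, by simp only; omega, hlev, h6⟩
  have hcand := child_cand (bl_mul β t') hx1 (fun he => hx2 (h4 _ he)) hin.lo_le hin.le_hi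
    (outside_of_not hlev hx2)
  rw [mem_image]
  rcases le_total β α with hab | hab
  · -- maximum is α
    rcases hcand with hc | hc
    · refine ⟨((i, max α β), β, 0, 0), ?_, ?_⟩
      · simp only [mem_product, mem_range]
        exact ⟨hb, by omega, by omega, by omega⟩
      · unfold m1
        simp only [if_true]
        rw [max_eq_left hab, ← hc, h3]
    · refine ⟨((i, max α β), β, 0, 1), ?_, ?_⟩
      · simp only [mem_product, mem_range]
        exact ⟨hb, by omega, by omega, by omega⟩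
      · unfold m1
        simp only [if_true, one_ne_zero, if_false]
        rw [max_eq_left hab, ← hc, h3]
  · rcases hcand with hc | hc
    · refine ⟨((i, max α β), α, 1, 0), ?_, ?_⟩
      · simp only [mem_product, mem_range]
        exact ⟨hb, by omega, by omega, by omega⟩
      · unfold m1
        simp only [if_true, one_ne_zero, if_false]
        rw [max_eq_right hab, ← hc, h3]
    · refine ⟨((i, max α β), α, 1, 1), ?_, ?_⟩
      · simp only [mem_product, mem_range]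
        exact ⟨hb, by omega, by omega, by omega⟩
      · unfold m1
        simp only [one_ne_zero, if_false]
        rw [max_eq_right hab, ← hc, h3]

/-! ### Scheme 2 -/

/-- `k` is a largest scale at which `x` is long -/
def LQ (R : ℕ → ℕ → Prop) (i k x : ℕ) : Prop := Long R i k x ∧ ¬ Long R i (k + 1) x

/-- left role in scheme 2 -/
def A2 (R : ℕ → ℕ → Prop) (u : ℕ) (l : ℕ × ℕ × ℕ × ℕ) : Prop :=
  l.2.2.1 ≤ l.2.1 ∧ l.2.1 ≤ l.1 ∧ bl l.2.2.1 u = l.2.2.2 ∧ LQ R l.1 l.2.1 u ∧ Lev R l.1 u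

/-- right role in scheme 2 -/
def B2 (R : ℕ → ℕ → Prop) (v : ℕ) (l : ℕ × ℕ × ℕ × ℕ) : Prop :=
  l.2.2.1 ≤ l.2.1 ∧ l.2.1 ≤ l.1 ∧
  (∀ x, bl l.2.2.1 x = l.2.2.2 → Sib l.1 v x) ∧
  (∀ x, bl l.2.2.1 x = l.2.2.2 → LQ R l.1 l.2.1 x → R v x) ∧
  ¬ Long R l.1 (l.2.1 + 1) v ∧
  ∃ x0, bl l.2.2.1 x0 = l.2.2.2 ∧ LQ R l.1 l.2.1 x0 ∧
    (∃ x, bl l.2.1 x = bl l.2.1 x0 ∧ inI R l.1 v x) ∧
    (∃ x, bl l.2.1 x = bl l.2.1 x0 ∧ ¬ inI R l.1 v x) ∧
    (l.2.2.1 = l.2.1 ∨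
      ∃ x, bl (l.2.2.1 + 1) x = l.2.2.2 / 2 ∧ LQ R l.1 l.2.1 x ∧ ¬ R v x)

lemma scheme2 {u v : ℕ} {l : ℕ × ℕ × ℕ × ℕ} (h1 : A2 R u l) (h2 : B2 R v l) : R v u :=
  h2.2.2.2.1 u h1.2.2.1 h1.2.2.2.1

/-- the labels of a vertex in the left role of scheme 2 -/
noncomputable def L2 (R : ℕ → ℕ → Prop) (L u : ℕ) : Finset (ℕ × ℕ × ℕ × ℕ) :=
  ((bad R L u ×ˢ range L).image fun q => (q.1.1, q.1.2, q.2, bl q.2 u)).filter (A2 R u)

lemma card_L2 (L u : ℕ) : (L2 R L u).card ≤ 5 * L ^ 2 := by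
  refine (card_filter_le _ _).trans (card_image_le.trans ?_)
  rw [card_product, card_range]
  have := card_bad (R := R) L u
  nlinarith

lemma mem_L2 {L u : ℕ} {l : ℕ × ℕ × ℕ × ℕ} (hl : l.1 < L) (h : A2 R u l) : l ∈ L2 R L u := by
  rw [L2, mem_filter]
  refine ⟨?_, h⟩
  obtain ⟨i, k, s, t⟩ := l
  obtain ⟨h1, h2, h3, h4, h5⟩ := h
  simp only at hl h1 h2 h3 h4 h5
  rw [mem_image]
  refine ⟨((i, k), s), ?_, ?_⟩
  · simp only [mem_product, mem_range, bad, mem_filter]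
    exact ⟨⟨⟨hl, by omega⟩, h2, h5, h4.2⟩, by omega⟩
  · simp only [h3]

/-- the neighbours of `v` among the long points of a block -/
def XS (R : ℕ → ℕ → Prop) (v i k q : ℕ) : Set ℕ := {x | bl k x = q ∧ LQ R i k x ∧ R v x}

lemma XS_bdd (v i k q : ℕ) : BddAbove (XS R v i k q) := by
  refine ⟨(q + 1) * 2 ^ k, ?_⟩
  rintro y ⟨h, -⟩
  unfold bl at h
  exact (Nat.lt_mul_of_div_lt (show y / 2 ^ k < q + 1 by omega) (by positivity)).le

/-- the index map of scheme 2, right role -/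
noncomputable def m2 (R : ℕ → ℕ → Prop) (v : ℕ) (q : (ℕ × ℕ) × ℕ × ℕ × ℕ) : ℕ × ℕ × ℕ × ℕ :=
  (q.1.1, q.1.2, q.2.1,
    if q.2.2.2 = 0 then
      2 * bl (q.2.1 + 1) (sSup (XS R v q.1.1 q.1.2
        (bl q.1.2 (if q.2.2.1 = 0 then hiI R q.1.1 v else loI R q.1.1 v))))
    else if q.2.2.2 = 1 then
      2 * bl (q.2.1 + 1) (sInf (XS R v q.1.1 q.1.2
        (bl q.1.2 (if q.2.2.1 = 0 then hiI R q.1.1 v else loI R q.1.1 v)))) + 1
    else bl q.1.2 (if q.2.2.1 = 0 then hiI R q.1.1 v else loI R q.1.1 v))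

/-- the labels of a vertex in the right role of scheme 2 -/
noncomputable def L3 (R : ℕ → ℕ → Prop) (L v : ℕ) : Finset (ℕ × ℕ × ℕ × ℕ) :=
  ((bad R L v ×ˢ range L ×ˢ range 2 ×ˢ range 3).image (m2 R v)).filter (B2 R v)

lemma card_L3 (L v : ℕ) : (L3 R L v).card ≤ 30 * L ^ 2 := by
  refine (card_filter_le _ _).trans (card_image_le.trans ?_)
  rw [card_product, card_product, card_product, card_range, card_range, card_range]
  have := card_bad (R := R) L v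
  nlinarith

lemma mem_L3 (hx : Hex R) {L v : ℕ} {l : ℕ × ℕ × ℕ × ℕ} (hl : l.1 < L) (h : B2 R v l) :
    l ∈ L3 R L v := by
  rw [L3, mem_filter]
  refine ⟨?_, h⟩
  obtain ⟨i, k, s, t⟩ := l
  obtain ⟨h1, h2, h3, h4, h5, x0, h6, h7, ⟨x, hx1, hx2⟩, ⟨x', hx1', hx2'⟩, h8⟩ := h
  simp only at hl h1 h2 h3 h4 h5 h6 h7 hx1 hx2 hx1' hx2' h8
  have hlev := hx2.lev
  have hb : (i, k) ∈ bad R L v := by
    rw [bad, mem_filter, mem_product, mem_range, mem_range]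
    exact ⟨⟨hl, by simp only; omega⟩, h2, hlev, h5⟩
  -- the block contains an end point of the hull
  obtain ⟨c, hc, hq⟩ : ∃ c, c < 2 ∧
      bl k (if c = 0 then hiI R i v else loI R i v) = bl k x0 := by
    rcases outside_of_not hlev hx2' with ho | ho
    · refine ⟨1, by norm_num, ?_⟩
      rw [if_neg (by norm_num)]
      exact bl_between ho.le hx2.lo_le hx1' hx1
    · refine ⟨0, by norm_num, ?_⟩
      rw [if_pos rfl]
      exact bl_between hx2.le_hi ho.le hx1 hx1'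
  rw [mem_image]
  rcases h8 with h8 | ⟨y, hy1, hy2, hy3⟩
  · refine ⟨((i, k), s, c, 2), ?_, ?_⟩
    · simp only [mem_product, mem_range]
      exact ⟨hb, by omega, hc, by omega⟩
    · unfold m2
      simp only
      rw [if_neg (by norm_num), if_neg (by norm_num), hq, ← h8, h6]
  · rcases eq_or_lt_of_le h1 with hsk | hsk
    · refine ⟨((i, k), s, c, 2), ?_, ?_⟩
      · simp only [mem_product, mem_range]
        exact ⟨hb, by omega, hc, by omega⟩
      · unfold m2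
        simp only
        rw [if_neg (by norm_num), if_neg (by norm_num), hq, ← hsk, h6]
    set X := XS R v i k (bl k x0) with hX
    have hx0 : x0 ∈ X := ⟨rfl, h7, h4 x0 h6 h7⟩
    have hsup : sSup X ∈ X := Nat.sSup_mem ⟨x0, hx0⟩ (XS_bdd _ _ _ _)
    have hinf : sInf X ∈ X := Nat.sInf_mem ⟨x0, hx0⟩
    have hle : x0 ≤ sSup X := le_csSup (XS_bdd _ _ _ _) hx0
    have hge : sInf X ≤ x0 := Nat.sInf_le hx0
    have hyD : bl s y ≠ t := fun he => hy3 (h4 y he hy2)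
    have e0 : bl (s + 1) x0 = t / 2 := by rw [bl_succ, h6]
    have hyQ : bl k y = bl k x0 := bl_eq_of_le hsk (by rw [hy1, e0])
    have hySib : Sib i v y := by
      have := h3 x0 h6
      exact this.congr' (bl_eq_of_le h2 hyQ)
    have hout : y < sInf X ∨ sSup X < y := by
      by_contra hcon
      push Not at hcon
      obtain ⟨c1, c2⟩ := hcon
      have n1 : sInf X ≠ y := fun he => hy3 (he ▸ hinf.2.2)
      have n2 : sSup X ≠ y := fun he => hy3 (he ▸ hsup.2.2)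
      exact hy3 (hx.interval h2 hySib (by rw [hinf.1, hyQ]) (by rw [hsup.1, hyQ])
        (lt_of_le_of_ne c1 n1) (lt_of_le_of_ne c2 (Ne.symm n2)) hinf.2.2 hsup.2.2 hy2.1)
    rcases child_cand h6 hy1 hyD hge hle hout with hcand | hcand
    · refine ⟨((i, k), s, c, 0), ?_, ?_⟩
      · simp only [mem_product, mem_range]
        exact ⟨hb, by omega, hc, by omega⟩
      · unfold m2
        simp only
        rw [if_pos trivial, hq, ← hX, ← hcand]
    · refine ⟨((i, k), s, c, 1), ?_, ?_⟩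
      · simp only [mem_product, mem_range]
        exact ⟨hb, by omega, hc, by omega⟩
      · unfold m2
        simp only
        rw [if_neg (by norm_num), if_pos trivial, hq, ← hX, ← hcand]

end Pool.Agent.TH695.BC
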