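import Pool.Agent.TH695.BC.Comb

/-!
# The double comb polygon with `n` vertices and the lower bound
-/

namespace Pool.Agent.TH695.BC

open Set Vis124

/-- No angle of the polygon is straight: three consecutive vertices are never collinear. -/
def NoStraight {n : ℕ} (v : Fin n → ℝ × ℝ) : Prop :=
  ∀ i, ¬ Collinear ℝ {v i, v (finRotate n i), v (finRotate n (finRotate n i))}

/-- heights of the upper chain, with the tip at the right end for odd `n` -/
noncomputable def tH (n L m x : ℕ) : ℝ := if n = 2 * L + 1 ∧ x = L then 1 / 2 else upH m x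

/-- heights of the lower chain, with the tip at the right end for odd `n` -/
noncomputable def tG (n L m x : ℕ) : ℝ := if n = 2 * L + 1 ∧ x = L then 1 / 2 else loG m x

lemma tH_of_lt (n L m x : ℕ) (h : x < L) : tH n L m x = upH m x := by
  unfold tH; rw [if_neg]; omega

lemma tG_of_lt (n L m x : ℕ) (h : x < L) : tG n L m x = loG m x := by
  unfold tG; rw [if_neg]; omega

lemma loG_lt_upH (m x : ℕ) (hm : 1 ≤ m) : loG m x < upH m x := by
  rcases Nat.lt_or_ge x (2 * m ^ 2) with h | h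
  · have h1 := loG_le_zero m x h
    have h2 := upH_ge_half m x hm
    linarith
  · have h1 := loG_le_half m x hm
    have h2 := upH_ge_one m x h
    linarith

lemma heights_comb (n L m : ℕ) (hm : 1 ≤ m) (hL : 6 * m ^ 2 + 1 ≤ L)
    (hn : n = 2 * L + 2 ∨ n = 2 * L + 1) : Heights n L (tG n L m) (tH n L m) where
  hL := by
    have : 1 ≤ m ^ 2 := Nat.one_le_pow _ _ hm
    omega
  lt k hk := by
    rw [tG_of_lt n L m k hk, tH_of_lt n L m k hk]
    exact loG_lt_upH m k hm
  tip := by
    rcases hn with h | h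
    · left
      refine ⟨h, ?_⟩
      unfold tG tH
      rw [if_neg (by omega), if_neg (by omega)]
      exact loG_lt_upH m L hm
    · right
      refine ⟨h, ?_⟩
      unfold tG tH
      rw [if_pos ⟨h, rfl⟩, if_pos ⟨h, rfl⟩]

/-- position of the tooth with index `p` -/
def pos (m : ℕ) (p : ℕ × ℕ) : ℕ := p.1 * m + p.2

lemma pos_lt {m : ℕ} {p : ℕ × ℕ} (hp : p ∈ Finset.range m ×ˢ Finset.range m) :
    pos m p < m ^ 2 := by
  rw [Finset.mem_product, Finset.mem_range, Finset.mem_range] at hp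
  unfold pos
  nlinarith

lemma pos_mod {m : ℕ} {p : ℕ × ℕ} (hp : p ∈ Finset.range m ×ˢ Finset.range m) :
    pos m p % m = p.2 := by
  rw [Finset.mem_product, Finset.mem_range, Finset.mem_range] at hp
  unfold pos
  rw [Nat.add_comm, Nat.add_mul_mod_self_right]
  exact Nat.mod_eq_of_lt hp.2

lemma pos_inj {m : ℕ} {p q : ℕ × ℕ} (hp : p ∈ Finset.range m ×ˢ Finset.range m)
    (hq : q ∈ Finset.range m ×ˢ Finset.range m) (h : pos m p = pos m q) : p = q := by
  have h1 := pos_mod hp
  have h2 := pos_mod hq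
  have h3 : p.2 = q.2 := by rw [← h1, ← h2, h]
  rw [Finset.mem_product, Finset.mem_range, Finset.mem_range] at hp
  unfold pos at h
  rw [h3] at h
  have h4 : p.1 * m = q.1 * m := by omega
  have h5 : p.1 = q.1 := Nat.eq_of_mul_eq_mul_right (by omega) h4
  exact Prod.ext h5 h3

lemma cc_pos_iff {m : ℕ} {p q : ℕ × ℕ} (hp : p ∈ Finset.range m ×ˢ Finset.range m)
    (hq : q ∈ Finset.range m ×ˢ Finset.range m) :
    cc m (pos m p) ≤ 2 * pos m q ↔ m ≤ p.2 + q.1 := by
  unfold cc
  rw [pos_mod hp]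
  rw [Finset.mem_product, Finset.mem_range, Finset.mem_range] at hp hq
  unfold pos
  constructor
  · intro h
    by_contra hcon
    have h1 : q.1 + 1 ≤ m - p.2 := by omega
    have h2 : m * (q.1 + 1) ≤ m * (m - p.2) := Nat.mul_le_mul_left m h1
    have h3 : m * (q.1 + 1) = q.1 * m + m := by ring
    omega
  · intro h
    have h1 : m - p.2 ≤ q.1 := by omega
    have h2 : m * (m - p.2) ≤ m * q.1 := Nat.mul_le_mul_left m h1
    have h3 : m * q.1 = q.1 * m := by ring
    omega

/-- the teeth of the upper comb -/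
def UU (n m : ℕ) (hn : 0 < n) (p : ℕ × ℕ) : Fin n := ⟨n - 1 - 2 * pos m p, by omega⟩

/-- the teeth of the lower comb -/
def VV (n m : ℕ) (h : 6 * m ^ 2 < n) (p : ℕ × ℕ) : Fin n := ⟨6 * m ^ 2 - 2 * pos m p, by omega⟩

section

variable {n L m : ℕ} (hm : 1 ≤ m) (hL : 6 * m ^ 2 + 1 ≤ L)
    (hn : n = 2 * L + 2 ∨ n = 2 * L + 1)

include hL hn in
lemma mv_UU (hn0 : 0 < n) {p : ℕ × ℕ} (hp : p ∈ Finset.range m ×ˢ Finset.range m) :
    mv n L (tG n L m) (tH n L m) (UU n m hn0 p) = (((2 * pos m p : ℕ) : ℝ), 1) := by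
  have h1 := pos_lt hp
  unfold mv UU
  simp only
  rw [if_neg (by omega)]
  have h2 : n - 1 - (n - 1 - 2 * pos m p) = 2 * pos m p := by omega
  rw [h2, tH_of_lt _ _ _ _ (by omega), upH_even _ _ (by omega)]

include hL in
lemma mv_VV (h0 : 6 * m ^ 2 < n) {p : ℕ × ℕ} (hp : p ∈ Finset.range m ×ˢ Finset.range m) :
    mv n L (tG n L m) (tH n L m) (VV n m h0 p) = (((6 * m ^ 2 - 2 * pos m p : ℕ) : ℝ), 0) := by
  have h1 := pos_lt hp
  unfold mv VV
  simp only
  rw [if_pos (by omega), tG_of_lt _ _ _ _ (by omega)]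
  unfold loG
  rw [if_pos (by omega)]
  have h2 : 6 * m ^ 2 - (6 * m ^ 2 - 2 * pos m p) = 2 * pos m p := by omega
  rw [h2, upH_even _ _ (by omega)]
  simp

include hm hL hn in
/-- **Visibility in the double comb.** -/
lemma adj_iff (hn0 : 0 < n) (h0 : 6 * m ^ 2 < n) {p q : ℕ × ℕ}
    (hp : p ∈ Finset.range m ×ˢ Finset.range m) (hq : q ∈ Finset.range m ×ˢ Finset.range m) :
    (visGraph (mv n L (tG n L m) (tH n L m))
      (region L (pl (tG n L m) L) (pl (tH n L m) L))).Adj (UU n m hn0 p) (VV n m h0 q)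
      ↔ rel m p q := by
  have h1 := pos_lt hp
  have h2 := pos_lt hq
  have hne : UU n m hn0 p ≠ VV n m h0 q := by
    intro h
    have := congrArg Fin.val h
    unfold UU VV at this
    simp only at this
    omega
  have e : (visGraph (mv n L (tG n L m) (tH n L m))
      (region L (pl (tG n L m) L) (pl (tH n L m) L))).Adj (UU n m hn0 p) (VV n m h0 q) ↔
      segment ℝ (mv n L (tG n L m) (tH n L m) (UU n m hn0 p))
        (mv n L (tG n L m) (tH n L m) (VV n m h0 q)) ⊆
        region L (pl (tG n L m) L) (pl (tH n L m) L) := by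
    unfold visGraph
    simp only
    exact ⟨fun h => h.2, fun h => ⟨hne, h⟩⟩
  rw [e, mv_UU hL hn hn0 hp, mv_VV hL h0 hq, seg_region _ _ (by omega) (by omega)]
  set i := pos m p with hi
  set j := pos m q with hj
  set d : ℝ := 6 * (m : ℝ) ^ 2 - 2 * j - 2 * i with hd
  have h1' : (i : ℝ) + 1 ≤ (m : ℝ) ^ 2 := by exact_mod_cast h1
  have h2' : (j : ℝ) + 1 ≤ (m : ℝ) ^ 2 := by exact_mod_cast h2
  have hi0 : (0 : ℝ) ≤ i := Nat.cast_nonneg i
  have hj0 : (0 : ℝ) ≤ j := Nat.cast_nonneg j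
  have hd0 : 0 < d := by rw [hd]; nlinarith
  have hb : ((6 * m ^ 2 - 2 * j : ℕ) : ℝ) = 6 * (m : ℝ) ^ 2 - 2 * j := by
    rw [Nat.cast_sub (by omega)]; push_cast; ring
  have hc1 := comb_cond m i j h1 h2 d (by rw [hd])
  have hc2 := comb_cond m j i h2 h1 d (by rw [hd]; ring)
  have hr : rel m p q ↔ cc m i ≤ 2 * j ∧ cc m j ≤ 2 * i := by
    rw [hi, hj, cc_pos_iff hp hq, cc_pos_iff hq hp]
    unfold rel
    rw [add_comm q.2 p.1]
    tauto
  rw [hr, ← hc1, ← hc2]
  constructor
  · intro h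
    refine ⟨?_, ?_⟩
    · intro k hk1 hk2
      obtain ⟨-, h4⟩ := h k hk1 hk2
      rw [tH_of_lt _ _ _ _ (by omega)] at h4
      refine le_trans (le_of_eq ?_) h4
      rw [hb]; push_cast
      have : (6 * (m : ℝ) ^ 2 - 2 * j - 2 * i) = d := by rw [hd]
      rw [this]; ring
    · intro k hk1 hk2
      obtain ⟨h4, -⟩ := h (6 * m ^ 2 - k) (by omega) (by omega)
      rw [tG_of_lt _ _ _ _ (by omega)] at h4
      unfold loG at h4
      rw [if_pos (by omega)] at h4
      have h5 : 6 * m ^ 2 - (6 * m ^ 2 - k) = k := by omega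
      rw [h5] at h4
      have h6 : ((6 * m ^ 2 - k : ℕ) : ℝ) = 6 * (m : ℝ) ^ 2 - k := by
        rw [Nat.cast_sub (by omega)]; push_cast; ring
      rw [h6, hb] at h4
      push_cast at h4
      have h7 : (6 * (m : ℝ) ^ 2 - 2 * j - 2 * i) = d := by rw [hd]
      rw [h7] at h4
      have h8 : (6 * (m : ℝ) ^ 2 - k - 2 * i) / d = 1 - (k - 2 * j) / d := by
        rw [hd]; rw [hd] at hd0; field_simp; ring
      rw [h8] at h4
      linarith
  · rintro ⟨h3, h4⟩ k hk1 hk2
    have h7 : (6 * (m : ℝ) ^ 2 - 2 * j - 2 * i) = d := by rw [hd]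
    refine ⟨?_, ?_⟩
    · rw [tG_of_lt _ _ _ _ (by omega)]
      unfold loG
      rw [if_pos (by omega)]
      have h5 := h4 (6 * m ^ 2 - k) (by omega) (by omega)
      have h6 : ((6 * m ^ 2 - k : ℕ) : ℝ) = 6 * (m : ℝ) ^ 2 - k := by
        rw [Nat.cast_sub (by omega)]; push_cast; ring
      rw [h6] at h5
      rw [hb]; push_cast
      rw [h7]
      have h8 : (6 * (m : ℝ) ^ 2 - k - 2 * j) / d = 1 - (k - 2 * i) / d := by
        rw [hd]; rw [hd] at hd0; field_simp; ring
      rw [h8] at h5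
      linarith
    · rw [tH_of_lt _ _ _ _ (by omega)]
      have h5 := h3 k hk1 hk2
      refine le_trans (le_of_eq ?_) h5
      rw [hb]; push_cast
      rw [h7]; ring

include hm hL hn in
/-- every covering set of the visibility graph of the double comb is large -/
theorem size_comb (hm3 : 3 ≤ m) (C : CoveringSet (visGraph (mv n L (tG n L m) (tH n L m))
      (region L (pl (tG n L m) L) (pl (tH n L m) L)))) :
    ((m : ℝ) * (Real.log m - 1)) ^ 2 ≤ 8 * (C.size : ℝ) := by
  have hn0 : 0 < n := by omega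
  have h0 : 6 * m ^ 2 < n := by omega
  refine size_ge_of_planted (UU n m hn0) (VV n m h0) hm3 _ ?_ ?_ ?_ ?_ C
  · intro p hp q hq h
    have h1 := pos_lt (Finset.mem_coe.mp hp)
    have h2 := pos_lt (Finset.mem_coe.mp hq)
    have h3 := congrArg Fin.val h
    unfold UU at h3
    simp only at h3
    exact pos_inj (Finset.mem_coe.mp hp) (Finset.mem_coe.mp hq) (by omega)
  · intro p hp q hq h
    have h1 := pos_lt (Finset.mem_coe.mp hp)
    have h2 := pos_lt (Finset.mem_coe.mp hq)
    have h3 := congrArg Fin.val h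
    unfold VV at h3
    simp only at h3
    exact pos_inj (Finset.mem_coe.mp hp) (Finset.mem_coe.mp hq) (by omega)
  · intro p hp q hq h
    have h1 := pos_lt hp
    have h2 := pos_lt hq
    have h3 := congrArg Fin.val h
    unfold UU VV at h3
    simp only at h3
    omega
  · intro p hp q hq
    exact adj_iff hm hL hn hn0 h0 hp hq

end

end Pool.Agent.TH695.BC
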