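import Pool.Agent.H124R2.Vis.Defs

/-!
# Monotone polygons with unit spaced vertices
-/

namespace Pool.Agent.TH695.BC

open Set Vis124

/-- piecewise linear interpolation of the values `F 0, …, F L` at `0, …, L` -/
noncomputable def pl (F : ℕ → ℝ) (L : ℕ) (x : ℝ) : ℝ :=
  F 0 + ∑ j ∈ Finset.range L, (F (j + 1) - F j) * max 0 (min 1 (x - j))

lemma pl_continuous (F : ℕ → ℝ) (L : ℕ) : Continuous (pl F L) := by
  unfold pl
  fun_prop

lemma pl_ge (F : ℕ → ℝ) (L : ℕ) (x : ℝ) (hx : (L : ℝ) ≤ x) : pl F L x = F L := by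
  induction L with
  | zero => simp [pl]
  | succ k ih =>
    have h1 : (k : ℝ) ≤ x := by push_cast at hx; linarith
    have h2 := ih h1
    unfold pl at h2 ⊢
    rw [Finset.sum_range_succ, ← add_assoc, h2]
    have h3 : min 1 (x - k) = 1 := min_eq_left (by push_cast at hx; linarith)
    rw [h3, max_eq_right (by norm_num)]
    ring

lemma pl_eq (F : ℕ → ℝ) (L k : ℕ) (hk : k < L) (x : ℝ) (h1 : (k : ℝ) ≤ x) (h2 : x ≤ k + 1) :
    pl F L x = F k + (x - k) * (F (k + 1) - F k) := by
  induction L with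
  | zero => omega
  | succ M ih =>
    rcases Nat.lt_or_ge k M with h | h
    · have h3 := ih h
      unfold pl at h3 ⊢
      rw [Finset.sum_range_succ, ← add_assoc, h3]
      have h4 : ((k + 1 : ℕ) : ℝ) ≤ M := by exact_mod_cast h
      push_cast at h4
      have h5 : max 0 (min 1 (x - M)) = 0 := by
        apply max_eq_left
        exact (min_le_right _ _).trans (by linarith)
      rw [h5]
      ring
    · have hkM : k = M := by omega
      subst hkM
      have h3 := pl_ge F k x h1
      unfold pl at h3 ⊢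
      rw [Finset.sum_range_succ, ← add_assoc, h3, min_eq_right (by linarith),
        max_eq_right (by linarith)]
      ring

lemma pl_nat (F : ℕ → ℝ) (L k : ℕ) (hk : k ≤ L) : pl F L k = F k := by
  rcases Nat.lt_or_ge k L with h | h
  · rw [pl_eq F L k h k (le_refl _) (by linarith)]; ring
  · have : k = L := by omega
    subst this
    exact pl_ge F k k (le_refl _)

/-- the unit interval containing a point -/
lemma exists_unit (a b : ℕ) (hab : a < b) (x : ℝ) (h1 : (a : ℝ) ≤ x) (h2 : x ≤ b) :
    ∃ k : ℕ, a ≤ k ∧ k < b ∧ (k : ℝ) ≤ x ∧ x ≤ k + 1 := by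
  have h0 : 0 ≤ x := (Nat.cast_nonneg a).trans h1
  rcases lt_or_ge x b with h | h
  · refine ⟨⌊x⌋₊, ?_, ?_, ?_, ?_⟩
    · exact Nat.le_floor h1
    · exact (Nat.floor_lt h0).mpr h
    · exact Nat.floor_le h0
    · exact (Nat.lt_floor_add_one x).le
  · have hxb : x = b := le_antisymm h2 h
    refine ⟨b - 1, by omega, by omega, ?_, ?_⟩
    · rw [Nat.cast_sub (by omega)]; push_cast; linarith
    · rw [Nat.cast_sub (by omega)]; push_cast; linarith

/-- the closed region between the graphs of `g` and `h` over `[0, L]` -/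
def region (L : ℕ) (g h : ℝ → ℝ) : Set (ℝ × ℝ) :=
  {p : ℝ × ℝ | 0 ≤ p.1 ∧ p.1 ≤ (L : ℝ) ∧ g p.1 ≤ p.2 ∧ p.2 ≤ h p.1}

section Region

variable {L : ℕ} {g h : ℝ → ℝ} (hg : Continuous g) (hh : Continuous h) (hL : 0 < L)
  (hgh : ∀ x : ℝ, 0 < x → x < L → g x < h x)

include hg hh in
lemma region_closed : IsClosed (region L g h) := by
  unfold region
  apply IsClosed.inter (isClosed_le continuous_const continuous_fst)
  apply IsClosed.inter (isClosed_le continuous_fst continuous_const)
  apply IsClosed.inter (isClosed_le (hg.comp continuous_fst) continuous_snd)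
  exact isClosed_le continuous_snd (hh.comp continuous_fst)

include hg hh hgh in
lemma interior_region : interior (region L g h) =
    {p : ℝ × ℝ | 0 < p.1 ∧ p.1 < (L : ℝ) ∧ g p.1 < p.2 ∧ p.2 < h p.1} := by
  apply subset_antisymm
  · intro p hp
    have h1 : 0 < p.1 := by
      have : interior (region L g h) ⊆ interior (Prod.fst ⁻¹' (Ici (0 : ℝ))) :=
        interior_mono fun q hq => hq.1
      have h2 := this hp
      rw [← isOpenMap_fst.preimage_interior_eq_interior_preimage continuous_fst,
        interior_Ici] at h2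
      exact h2
    have h2 : p.1 < L := by
      have : interior (region L g h) ⊆ interior (Prod.fst ⁻¹' (Iic (L : ℝ))) :=
        interior_mono fun q hq => hq.2.1
      have h2 := this hp
      rw [← isOpenMap_fst.preimage_interior_eq_interior_preimage continuous_fst,
        interior_Iic] at h2
      exact h2
    have h3 : p.2 ∈ interior (Icc (g p.1) (h p.1)) := by
      have hc : Continuous fun y : ℝ => ((p.1, y) : ℝ × ℝ) := by fun_prop
      have ho : IsOpen ((fun y : ℝ => ((p.1, y) : ℝ × ℝ)) ⁻¹' interior (region L g h)) :=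
        isOpen_interior.preimage hc
      have hs : ((fun y : ℝ => ((p.1, y) : ℝ × ℝ)) ⁻¹' interior (region L g h))
          ⊆ Icc (g p.1) (h p.1) := by
        intro y hy
        have := interior_subset hy
        exact ⟨this.2.2.1, this.2.2.2⟩
      exact interior_maximal hs ho hp
    rw [interior_Icc] at h3
    exact ⟨h1, h2, h3.1, h3.2⟩
  · apply interior_maximal
    · intro p hp
      exact ⟨hp.1.le, hp.2.1.le, hp.2.2.1.le, hp.2.2.2.le⟩
    · apply IsOpen.inter (isOpen_lt continuous_const continuous_fst)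
      apply IsOpen.inter (isOpen_lt continuous_fst continuous_const)
      apply IsOpen.inter (isOpen_lt (hg.comp continuous_fst) continuous_snd)
      exact isOpen_lt continuous_snd (hh.comp continuous_fst)

include hg hh hgh hL in
lemma region_eq_image : region L g h =
    (fun q : ℝ × ℝ => (q.1, (1 - q.2) * g q.1 + q.2 * h q.1)) '' (Icc 0 (L : ℝ) ×ˢ Icc 0 1) := by
  have hLr : (0 : ℝ) < L := by exact_mod_cast hL
  have hle : ∀ x ∈ Icc (0 : ℝ) L, g x ≤ h x := by
    have h1 : Icc (0 : ℝ) L = closure (Ioo (0 : ℝ) L) := (closure_Ioo hLr.ne).symm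
    intro x hx
    rw [h1] at hx
    exact le_on_closure (fun y hy => (hgh y hy.1 hy.2).le) hg.continuousOn hh.continuousOn hx
  ext p
  constructor
  · rintro ⟨h1, h2, h3, h4⟩
    rcases eq_or_lt_of_le (hle p.1 ⟨h1, h2⟩) with h5 | h5
    · refine ⟨(p.1, 0), ⟨⟨h1, h2⟩, by norm_num⟩, ?_⟩
      ext
      · rfl
      · simp only; linarith
    · refine ⟨(p.1, (p.2 - g p.1) / (h p.1 - g p.1)), ⟨⟨h1, h2⟩, ?_, ?_⟩, ?_⟩
      · exact div_nonneg (by linarith) (by linarith)
      · exact (div_le_one (by linarith)).mpr (by linarith)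
      · ext
        · rfl
        · simp only
          have : h p.1 - g p.1 ≠ 0 := by linarith
          field_simp
          ring
  · rintro ⟨q, ⟨hq1, hq2⟩, rfl⟩
    have h5 := hle q.1 hq1
    refine ⟨hq1.1, hq1.2, ?_, ?_⟩
    · simp only
      nlinarith [hq2.1, hq2.2]
    · simp only
      nlinarith [hq2.1, hq2.2]

include hg hh hgh hL in
lemma region_compact : IsCompact (region L g h) := by
  rw [region_eq_image hg hh hL hgh]
  apply (isCompact_Icc.prod isCompact_Icc).image
  fun_prop

include hg hh hgh hL in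
lemma region_regular : closure (interior (region L g h)) = region L g h := by
  have hLr : (0 : ℝ) < L := by exact_mod_cast hL
  apply subset_antisymm
  · exact closure_minimal interior_subset (region_closed hg hh)
  · set Φ : ℝ × ℝ → ℝ × ℝ := fun q => (q.1, (1 - q.2) * g q.1 + q.2 * h q.1) with hΦ
    have hc : Continuous Φ := by rw [hΦ]; fun_prop
    have h1 : region L g h = Φ '' (closure (Ioo 0 (L : ℝ) ×ˢ Ioo 0 1)) := by
      rw [closure_prod_eq, closure_Ioo hLr.ne, closure_Ioo (by norm_num)]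
      exact region_eq_image hg hh hL hgh
    conv_lhs => rw [h1]
    refine (image_closure_subset_closure_image hc).trans (closure_mono ?_)
    rw [interior_region hg hh hgh]
    rintro _ ⟨q, ⟨hq1, hq2⟩, rfl⟩
    have h5 := hgh q.1 hq1.1 hq1.2
    refine ⟨hq1.1, hq1.2, ?_, ?_⟩
    · simp only [hΦ]
      nlinarith [hq2.1, hq2.2]
    · simp only [hΦ]
      nlinarith [hq2.1, hq2.2]

include hg hh hgh in
lemma frontier_region : frontier (region L g h) =
    {p : ℝ × ℝ | p ∈ region L g h ∧
      (p.1 = 0 ∨ p.1 = (L : ℝ) ∨ p.2 = g p.1 ∨ p.2 = h p.1)} := by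
  rw [(region_closed hg hh).frontier_eq, interior_region hg hh hgh]
  ext p
  simp only [mem_diff, mem_setOf_eq, region]
  constructor
  · rintro ⟨⟨h1, h2, h3, h4⟩, h5⟩
    refine ⟨⟨h1, h2, h3, h4⟩, ?_⟩
    by_contra hcon
    push Not at hcon
    obtain ⟨c1, c2, c3, c4⟩ := hcon
    exact h5 ⟨lt_of_le_of_ne h1 (Ne.symm c1), lt_of_le_of_ne h2 c2,
      lt_of_le_of_ne h3 (Ne.symm c3), lt_of_le_of_ne h4 c4⟩
  · rintro ⟨⟨h1, h2, h3, h4⟩, h5⟩
    refine ⟨⟨h1, h2, h3, h4⟩, ?_⟩
    rintro ⟨c1, c2, c3, c4⟩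
    rcases h5 with h5 | h5 | h5 | h5 <;> linarith

end Region

end Pool.Agent.TH695.BC
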