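import Pool.Agent.TH695.BC.Mono

/-!
# Monotone polygons with unit spaced vertices are simple polygons
-/

namespace Pool.Agent.TH695.BC

open Set Vis124

lemma rot_val {n : ℕ} (hn : 0 < n) (i : Fin n) :
    ((finRotate n i : Fin n) : ℕ) = if (i : ℕ) + 1 = n then 0 else (i : ℕ) + 1 := by
  obtain ⟨m, rfl⟩ : ∃ m, n = m + 1 := ⟨n - 1, by omega⟩
  rw [coe_finRotate]
  by_cases h : i = Fin.last m
  · rw [if_pos h, if_pos (by rw [h]; simp)]
  · rw [if_neg h, if_neg]
    intro h2
    apply h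
    ext
    simp
    omega

lemma mem_seg {a b ya yb : ℝ} (hab : a < b) (p : ℝ × ℝ) :
    p ∈ segment ℝ (a, ya) (b, yb) ↔
      a ≤ p.1 ∧ p.1 ≤ b ∧ p.2 = ya + (p.1 - a) / (b - a) * (yb - ya) := by
  have hba : 0 < b - a := by linarith
  rw [segment_eq_image']
  constructor
  · rintro ⟨t, ⟨h0, h1⟩, rfl⟩
    simp only [Prod.mk_sub_mk, Prod.smul_mk, smul_eq_mul, Prod.mk_add_mk]
    refine ⟨?_, ?_, ?_⟩
    · nlinarith
    · nlinarith
    · field_simp
      ring
  · rintro ⟨h1, h2, h3⟩
    refine ⟨(p.1 - a) / (b - a), ⟨div_nonneg (by linarith) hba.le,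
      (div_le_one hba).mpr (by linarith)⟩, ?_⟩
    ext
    · simp only [Prod.mk_sub_mk, Prod.smul_mk, smul_eq_mul, Prod.mk_add_mk]
      field_simp
      ring
    · simp only [Prod.mk_sub_mk, Prod.smul_mk, smul_eq_mul, Prod.mk_add_mk]
      rw [h3]

lemma mem_vseg {a y1 y2 : ℝ} (h : y1 ≤ y2) (p : ℝ × ℝ) :
    p ∈ segment ℝ (a, y1) (a, y2) ↔ p.1 = a ∧ y1 ≤ p.2 ∧ p.2 ≤ y2 := by
  rw [segment_eq_image']
  constructor
  · rintro ⟨t, ⟨h0, h1⟩, rfl⟩
    simp only [Prod.mk_sub_mk, Prod.smul_mk, smul_eq_mul, Prod.mk_add_mk]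
    refine ⟨by ring, ?_, ?_⟩
    · nlinarith
    · nlinarith
  · rintro ⟨h1, h2, h3⟩
    rcases eq_or_lt_of_le h with h4 | h4
    · refine ⟨0, by norm_num, ?_⟩
      ext
      · simp [h1]
      · simp; linarith
    · refine ⟨(p.2 - y1) / (y2 - y1), ⟨div_nonneg (by linarith) (by linarith),
        (div_le_one (by linarith)).mpr (by linarith)⟩, ?_⟩
      have : y2 - y1 ≠ 0 := by linarith
      ext
      · simp [h1]
      · simp only [Prod.mk_sub_mk, Prod.smul_mk, smul_eq_mul, Prod.mk_add_mk]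
        field_simp
        ring

/-- conditions on the heights: `G` for the lower chain, `H` for the upper chain -/
structure Heights (n L : ℕ) (G H : ℕ → ℝ) : Prop where
  hL : 2 ≤ L
  lt : ∀ k, k < L → G k < H k
  tip : (n = 2 * L + 2 ∧ G L < H L) ∨ (n = 2 * L + 1 ∧ G L = H L)

/-- the vertices: lower chain from left to right, then upper chain from right to left -/
noncomputable def mv (n L : ℕ) (G H : ℕ → ℝ) (i : Fin n) : ℝ × ℝ :=
  if (i : ℕ) ≤ L then (((i : ℕ) : ℝ), G i) else (((n - 1 - (i : ℕ) : ℕ) : ℝ), H (n - 1 - i))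

section

variable {n L : ℕ} {G H : ℕ → ℝ}

lemma Heights.pos (hh : Heights n L G H) : 0 < n := by
  rcases hh.tip with h | h <;> omega

lemma Heights.pl_lt (hh : Heights n L G H) (x : ℝ) (h0 : 0 ≤ x) (h1 : x < L) :
    pl G L x < pl H L x := by
  obtain ⟨k, -, hk, h2, h3⟩ := exists_unit 0 L (by have := hh.hL; omega) x (by simpa using h0) h1.le
  have e1 := pl_eq G L k hk x h2 h3
  have e2 := pl_eq H L k hk x h2 h3
  have h4 := hh.lt k hk
  have h5 : G (k + 1) ≤ H (k + 1) := by
    rcases Nat.lt_or_ge (k + 1) L with h | h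
    · exact (hh.lt _ h).le
    · have : k + 1 = L := by omega
      rw [this]
      rcases hh.tip with h | h
      · exact h.2.le
      · exact h.2.le
  rcases eq_or_lt_of_le h3 with h6 | h6
  · have h7 : k + 1 < L := by
      rw [h6] at h1
      exact_mod_cast h1
    have h8 := hh.lt _ h7
    rw [e1, e2, h6]
    have : (k : ℝ) + 1 - k = 1 := by ring
    rw [this]
    linarith
  · rw [e1, e2]
    nlinarith

lemma Heights.pl_le (hh : Heights n L G H) (x : ℝ) (h0 : 0 ≤ x) (h1 : x ≤ L) :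
    pl G L x ≤ pl H L x := by
  rcases eq_or_lt_of_le h1 with h | h
  · rw [h, pl_ge G L L le_rfl, pl_ge H L L le_rfl]
    rcases hh.tip with h | h
    · exact h.2.le
    · exact h.2.le
  · exact (hh.pl_lt x h0 h).le

/-- the four kinds of edges -/
lemma Heights.edge_cases (hh : Heights n L G H) (i : Fin n) :
    (∃ k, k < L ∧ (i : ℕ) = k ∧ mv n L G H i = ((k : ℝ), G k) ∧
      mv n L G H (finRotate n i) = ((k : ℝ) + 1, G (k + 1)) ∧
      edge (mv n L G H) i = {p : ℝ × ℝ | (k : ℝ) ≤ p.1 ∧ p.1 ≤ k + 1 ∧ p.2 = pl G L p.1}) ∨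
    (∃ k, k < L ∧ (i : ℕ) = n - 2 - k ∧ mv n L G H i = ((k : ℝ) + 1, H (k + 1)) ∧
      mv n L G H (finRotate n i) = ((k : ℝ), H k) ∧
      edge (mv n L G H) i = {p : ℝ × ℝ | (k : ℝ) ≤ p.1 ∧ p.1 ≤ k + 1 ∧ p.2 = pl H L p.1}) ∨
    ((i : ℕ) = n - 1 ∧ mv n L G H i = (0, H 0) ∧ mv n L G H (finRotate n i) = (0, G 0) ∧
      edge (mv n L G H) i = {p : ℝ × ℝ | p.1 = 0 ∧ G 0 ≤ p.2 ∧ p.2 ≤ H 0}) ∨
    ((i : ℕ) = L ∧ n = 2 * L + 2 ∧ mv n L G H i = ((L : ℝ), G L) ∧
      mv n L G H (finRotate n i) = ((L : ℝ), H L) ∧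
      edge (mv n L G H) i = {p : ℝ × ℝ | p.1 = L ∧ G L ≤ p.2 ∧ p.2 ≤ H L}) := by
  have hL := hh.hL
  have hpos := hh.pos
  have hi := i.isLt
  have hrot := rot_val hpos i
  have htip := hh.tip
  have segG : ∀ k, k < L → segment ℝ ((k : ℝ), G k) ((k : ℝ) + 1, G (k + 1))
      = {p : ℝ × ℝ | (k : ℝ) ≤ p.1 ∧ p.1 ≤ k + 1 ∧ p.2 = pl G L p.1} := by
    intro k hk
    ext p
    rw [mem_seg (by linarith)]
    constructor
    · rintro ⟨h1, h2, h3⟩
      refine ⟨h1, h2, ?_⟩
      rw [pl_eq G L k hk p.1 h1 h2, h3]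
      have : (k : ℝ) + 1 - k = 1 := by ring
      rw [this]; ring
    · rintro ⟨h1, h2, h3⟩
      refine ⟨h1, h2, ?_⟩
      rw [h3, pl_eq G L k hk p.1 h1 h2]
      have : (k : ℝ) + 1 - k = 1 := by ring
      rw [this]; ring
  have segH : ∀ k, k < L → segment ℝ ((k : ℝ), H k) ((k : ℝ) + 1, H (k + 1))
      = {p : ℝ × ℝ | (k : ℝ) ≤ p.1 ∧ p.1 ≤ k + 1 ∧ p.2 = pl H L p.1} := by
    intro k hk
    ext p
    rw [mem_seg (by linarith)]
    constructor
    · rintro ⟨h1, h2, h3⟩
      refine ⟨h1, h2, ?_⟩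
      rw [pl_eq H L k hk p.1 h1 h2, h3]
      have : (k : ℝ) + 1 - k = 1 := by ring
      rw [this]; ring
    · rintro ⟨h1, h2, h3⟩
      refine ⟨h1, h2, ?_⟩
      rw [h3, pl_eq H L k hk p.1 h1 h2]
      have : (k : ℝ) + 1 - k = 1 := by ring
      rw [this]; ring
  by_cases h1 : (i : ℕ) < L
  · left
    have hrot' : ((finRotate n i : Fin n) : ℕ) = (i : ℕ) + 1 := by
      rw [hrot, if_neg]
      rcases htip with h | h <;> omega
    have e1 : mv n L G H i = (((i : ℕ) : ℝ), G i) := by
      unfold mv; rw [if_pos h1.le]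
    have e2 : mv n L G H (finRotate n i) = (((i : ℕ) : ℝ) + 1, G ((i : ℕ) + 1)) := by
      unfold mv; rw [hrot', if_pos (by omega)]; push_cast; rfl
    refine ⟨i, h1, rfl, e1, e2, ?_⟩
    rw [edge, e1, e2, segG i h1]
  · right
    by_cases h2 : (i : ℕ) = n - 1
    · right; left
      have hrot' : ((finRotate n i : Fin n) : ℕ) = 0 := by
        rw [hrot, if_pos (by omega)]
      have e1 : mv n L G H i = (0, H 0) := by
        unfold mv
        rw [if_neg (by rcases htip with h | h <;> omega)]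
        have : n - 1 - (i : ℕ) = 0 := by omega
        rw [this]; simp
      have e2 : mv n L G H (finRotate n i) = (0, G 0) := by
        unfold mv; rw [hrot', if_pos (by omega)]; simp
      refine ⟨h2, e1, e2, ?_⟩
      rw [edge, e1, e2, segment_symm]
      ext p
      rw [mem_vseg (hh.lt 0 (by omega)).le]
      rfl
    · have hrot' : ((finRotate n i : Fin n) : ℕ) = (i : ℕ) + 1 := by
        rw [hrot, if_neg (by omega)]
      by_cases h3 : (i : ℕ) = L ∧ n = 2 * L + 2
      · right; right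
        have e1 : mv n L G H i = ((L : ℝ), G L) := by
          unfold mv
          rw [if_pos (by omega), h3.1]
        have e2 : mv n L G H (finRotate n i) = ((L : ℝ), H L) := by
          unfold mv; rw [hrot', if_neg (by omega)]
          have : n - 1 - ((i : ℕ) + 1) = L := by omega
          rw [this]
        refine ⟨h3.1, h3.2, e1, e2, ?_⟩
        rw [edge, e1, e2]
        have hle : G L ≤ H L := by
          rcases htip with h | h
          · exact h.2.le
          · exact h.2.le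
        ext p
        rw [mem_vseg hle]
        rfl
      · left
        set k := n - 2 - (i : ℕ) with hk
        have hkL : k < L := by rcases htip with h | h <;> omega
        have e2 : mv n L G H (finRotate n i) = ((k : ℝ), H k) := by
          unfold mv; rw [hrot', if_neg (by rcases htip with h | h <;> omega)]
          have : n - 1 - ((i : ℕ) + 1) = k := by omega
          rw [this]
        have e1 : mv n L G H i = ((k : ℝ) + 1, H (k + 1)) := by
          unfold mv
          by_cases h4 : (i : ℕ) ≤ L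
          · rw [if_pos h4]
            have hiL : (i : ℕ) = L := by omega
            have hn : n = 2 * L + 1 := by
              rcases htip with h | h
              · exact absurd ⟨hiL, h.1⟩ h3
              · exact h.1
            have hkL' : k + 1 = L := by omega
            have hGH : G L = H L := by
              rcases htip with h | h
              · omega
              · exact h.2
            rw [hiL, hkL', hGH]
            have : (k : ℝ) + 1 = L := by exact_mod_cast hkL'
            rw [this]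
          · rw [if_neg h4]
            have : n - 1 - (i : ℕ) = k + 1 := by omega
            rw [this]; push_cast; rfl
        refine ⟨k, hkL, by omega, e1, e2, ?_⟩
        rw [edge, e1, e2, segment_symm, segH k hkL]

lemma at_nat {F : ℕ → ℝ} {p : ℝ × ℝ} (l : ℕ) (hl : l ≤ L) (h1 : p.1 = l)
    (h2 : p.2 = pl F L p.1) : p = ((l : ℝ), F l) := by
  ext
  · exact h1
  · rw [h2, h1, pl_nat F L l hl]

lemma Heights.one_sided (hh : Heights n L G H) (i j : Fin n) (hij : i ≠ j) (p : ℝ × ℝ)
    (hp1 : p ∈ edge (mv n L G H) i) (hp2 : p ∈ edge (mv n L G H) j) :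
    p = mv n L G H i ∨ p = mv n L G H (finRotate n i) := by
  have hL := hh.hL
  have hpos := hh.pos
  have hi := i.isLt
  have hj := j.isLt
  have hval : (i : ℕ) ≠ (j : ℕ) := fun h => hij (Fin.ext h)
  -- crossing of a lower and an upper edge
  have key : ∀ k l : ℕ, k < L → l < L → (k : ℝ) ≤ p.1 → p.1 ≤ k + 1 → p.2 = pl G L p.1 →
      p.2 = pl H L p.1 → k + 1 = L ∧ p.1 = L := by
    intro k l hk _ h1 h2 h3 h4
    have h5 : (k : ℝ) + 1 ≤ L := by exact_mod_cast hk
    have h6 : ¬ p.1 < L := by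
      intro h7
      have := hh.pl_lt p.1 ((Nat.cast_nonneg k).trans h1) h7
      linarith
    have h8 : p.1 = L := le_antisymm (by linarith) (not_lt.mp h6)
    refine ⟨?_, h8⟩
    have h9 : (L : ℝ) ≤ (k : ℝ) + 1 := by linarith
    have h10 : L ≤ k + 1 := by exact_mod_cast h9
    omega
  rcases hh.edge_cases i with ⟨k, hk, hik, e1, e2, e3⟩ | ⟨k, hk, hik, e1, e2, e3⟩ |
      ⟨hik, e1, e2, e3⟩ | ⟨hik, hn, e1, e2, e3⟩ <;>
    rcases hh.edge_cases j with ⟨l, hl, hjl, f1, f2, f3⟩ | ⟨l, hl, hjl, f1, f2, f3⟩ |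
      ⟨hjl, f1, f2, f3⟩ | ⟨hjl, hn', f1, f2, f3⟩ <;>
    rw [e1, e2] <;> rw [e3] at hp1 <;> rw [f3] at hp2
  · -- lower lower
    obtain ⟨a1, a2, a3⟩ := hp1
    obtain ⟨b1, b2, b3⟩ := hp2
    rcases lt_or_gt_of_ne (show k ≠ l by omega) with h | h
    · right
      have h' : (k : ℝ) + 1 ≤ l := by exact_mod_cast h
      have : p.1 = ((k + 1 : ℕ) : ℝ) := by push_cast; linarith
      have := at_nat (k + 1) (by omega) this a3
      rw [this]; push_cast; rfl
    · left
      have h' : (l : ℝ) + 1 ≤ k := by exact_mod_cast h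
      exact at_nat k (by omega) (by linarith) a3
  · -- lower upper
    obtain ⟨a1, a2, a3⟩ := hp1
    obtain ⟨b1, b2, b3⟩ := hp2
    right
    obtain ⟨h1, h2⟩ := key k l hk hl a1 a2 a3 b3
    have := at_nat (k + 1) (by omega) (by rw [h2, h1]) a3
    rw [this]; push_cast; rfl
  · obtain ⟨a1, a2, a3⟩ := hp1
    obtain ⟨b1, b2, b3⟩ := hp2
    left
    have h1 : k = 0 := by
      have : (k : ℝ) ≤ 0 := by linarith
      have : (k : ℝ) ≤ ((0 : ℕ) : ℝ) := by simpa using this
      have := Nat.cast_le.mp this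
      omega
    subst h1
    exact at_nat 0 (by omega) (by rw [b1]; simp) a3
  · obtain ⟨a1, a2, a3⟩ := hp1
    obtain ⟨b1, b2, b3⟩ := hp2
    right
    have h1 : k + 1 = L := by
      have h9 : (L : ℝ) ≤ (k : ℝ) + 1 := by linarith
      have h10 : L ≤ k + 1 := by exact_mod_cast h9
      omega
    have := at_nat (k + 1) (by omega) (by rw [b1, h1]) a3
    rw [this]; push_cast; rfl
  · -- upper lower
    obtain ⟨a1, a2, a3⟩ := hp1
    obtain ⟨b1, b2, b3⟩ := hp2
    left
    obtain ⟨h1, h2⟩ := key l k hl hk b1 b2 b3 a3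
    have h3 : k + 1 = L := by
      have h9 : (L : ℝ) ≤ (k : ℝ) + 1 := by linarith
      have h10 : L ≤ k + 1 := by exact_mod_cast h9
      omega
    have := at_nat (k + 1) (by omega) (by rw [h2, h3]) a3
    rw [this]; push_cast; rfl
  · obtain ⟨a1, a2, a3⟩ := hp1
    obtain ⟨b1, b2, b3⟩ := hp2
    rcases lt_or_gt_of_ne (show k ≠ l by omega) with h | h
    · left
      have h' : (k : ℝ) + 1 ≤ l := by exact_mod_cast h
      have : p.1 = ((k + 1 : ℕ) : ℝ) := by push_cast; linarith
      have := at_nat (k + 1) (by omega) this a3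
      rw [this]; push_cast; rfl
    · right
      have h' : (l : ℝ) + 1 ≤ k := by exact_mod_cast h
      exact at_nat k (by omega) (by linarith) a3
  · obtain ⟨a1, a2, a3⟩ := hp1
    obtain ⟨b1, b2, b3⟩ := hp2
    right
    have h1 : k = 0 := by
      have : (k : ℝ) ≤ 0 := by linarith
      have : (k : ℝ) ≤ ((0 : ℕ) : ℝ) := by simpa using this
      have := Nat.cast_le.mp this
      omega
    subst h1
    exact at_nat 0 (by omega) (by rw [b1]; simp) a3
  · obtain ⟨a1, a2, a3⟩ := hp1
    obtain ⟨b1, b2, b3⟩ := hp2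
    left
    have h1 : k + 1 = L := by
      have h9 : (L : ℝ) ≤ (k : ℝ) + 1 := by linarith
      have h10 : L ≤ k + 1 := by exact_mod_cast h9
      omega
    have := at_nat (k + 1) (by omega) (by rw [b1, h1]) a3
    rw [this]; push_cast; rfl
  · obtain ⟨a1, a2, a3⟩ := hp1
    obtain ⟨b1, b2, b3⟩ := hp2
    right
    have := at_nat 0 (by omega) (by rw [a1]; simp) b3
    rw [this]; simp
  · obtain ⟨a1, a2, a3⟩ := hp1
    obtain ⟨b1, b2, b3⟩ := hp2
    left
    have := at_nat 0 (by omega) (by rw [a1]; simp) b3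
    rw [this]; simp
  · omega
  · exfalso
    have h1 : (L : ℝ) = 0 := by rw [← hp2.1, hp1.1]
    have h2 : (2 : ℝ) ≤ L := by exact_mod_cast hL
    linarith
  · obtain ⟨a1, a2, a3⟩ := hp1
    obtain ⟨b1, b2, b3⟩ := hp2
    left
    exact at_nat L (by omega) a1 b3
  · obtain ⟨a1, a2, a3⟩ := hp1
    obtain ⟨b1, b2, b3⟩ := hp2
    right
    exact at_nat L (by omega) a1 b3
  · exfalso
    have h1 : (L : ℝ) = 0 := by rw [← hp1.1, hp2.1]
    have h2 : (2 : ℝ) ≤ L := by exact_mod_cast hL
    linarith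
  · omega

lemma Heights.inj (hh : Heights n L G H) : Function.Injective (mv n L G H) := by
  intro i j h
  have hL := hh.hL
  have hi := i.isLt
  have hj := j.isLt
  apply Fin.ext
  unfold mv at h
  have mixed : ∀ a b : ℕ, a ≤ L → ¬ b ≤ L → b < n →
      (((a : ℕ) : ℝ), G a) = (((n - 1 - b : ℕ) : ℝ), H (n - 1 - b)) → False := by
    intro a b ha hb hbn heq
    have h1 : (a : ℝ) = ((n - 1 - b : ℕ) : ℝ) := congrArg Prod.fst heq
    have h2 : a = n - 1 - b := by exact_mod_cast h1
    have h3 : G a = H (n - 1 - b) := congrArg Prod.snd heq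
    rw [← h2] at h3
    rcases Nat.lt_or_ge a L with h4 | h4
    · have := hh.lt a h4
      linarith
    · have h5 : a = L := by omega
      rcases hh.tip with h6 | h6
      · rw [h5] at h3; linarith [h6.2]
      · omega
  split_ifs at h with h1 h2 h2
  · have h3 : ((i : ℕ) : ℝ) = ((j : ℕ) : ℝ) := congrArg Prod.fst h
    exact_mod_cast h3
  · exact (mixed _ _ h1 h2 hj h).elim
  · exact (mixed _ _ h2 h1 hi h.symm).elim
  · have h3 : ((n - 1 - (i : ℕ) : ℕ) : ℝ) = ((n - 1 - (j : ℕ) : ℕ) : ℝ) := congrArg Prod.fst h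
    have h4 : n - 1 - (i : ℕ) = n - 1 - (j : ℕ) := by exact_mod_cast h3
    omega

lemma Heights.curve_eq (hh : Heights n L G H) :
    curve (mv n L G H) = {p : ℝ × ℝ | p ∈ region L (pl G L) (pl H L) ∧
      (p.1 = 0 ∨ p.1 = (L : ℝ) ∨ p.2 = pl G L p.1 ∨ p.2 = pl H L p.1)} := by
  have hL := hh.hL
  have hpos := hh.pos
  have htip := hh.tip
  apply subset_antisymm
  · intro p hp
    rw [curve, mem_iUnion] at hp
    obtain ⟨i, hi⟩ := hp
    rcases hh.edge_cases i with ⟨k, hk, hik, e1, e2, e3⟩ | ⟨k, hk, hik, e1, e2, e3⟩ |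
      ⟨hik, e1, e2, e3⟩ | ⟨hik, hn, e1, e2, e3⟩ <;> rw [e3] at hi
    · obtain ⟨a1, a2, a3⟩ := hi
      have h5 : (k : ℝ) + 1 ≤ L := by exact_mod_cast hk
      have h0 : 0 ≤ p.1 := (Nat.cast_nonneg k).trans a1
      have h6 : p.1 ≤ L := by linarith
      exact ⟨⟨h0, h6, a3.ge, a3.le.trans (hh.pl_le p.1 h0 h6)⟩, by tauto⟩
    · obtain ⟨a1, a2, a3⟩ := hi
      have h5 : (k : ℝ) + 1 ≤ L := by exact_mod_cast hk
      have h0 : 0 ≤ p.1 := (Nat.cast_nonneg k).trans a1
      have h6 : p.1 ≤ L := by linarith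
      exact ⟨⟨h0, h6, (hh.pl_le p.1 h0 h6).trans a3.ge, a3.le⟩, by tauto⟩
    · obtain ⟨a1, a2, a3⟩ := hi
      have g0 : pl G L 0 = G 0 := by simpa using pl_nat G L 0 (by omega)
      have h0 : pl H L 0 = H 0 := by simpa using pl_nat H L 0 (by omega)
      refine ⟨⟨a1.ge, by rw [a1]; positivity, ?_, ?_⟩, by tauto⟩
      · rw [a1, g0]; exact a2
      · rw [a1, h0]; exact a3
    · obtain ⟨a1, a2, a3⟩ := hi
      refine ⟨⟨by rw [a1]; positivity, a1.le, ?_, ?_⟩, by tauto⟩
      · rw [a1, pl_nat G L L le_rfl]; exact a2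
      · rw [a1, pl_nat H L L le_rfl]; exact a3
  · rintro p ⟨⟨h1, h2, h3, h4⟩, h5⟩
    rw [curve, mem_iUnion]
    -- a point on the lower chain
    have low : p.2 = pl G L p.1 → ∃ i, p ∈ edge (mv n L G H) i := by
      intro h6
      obtain ⟨k, -, hk, c1, c2⟩ := exists_unit 0 L (by omega) p.1 (by simpa using h1) h2
      have hkn : k < n := by rcases htip with h | h <;> omega
      refine ⟨⟨k, hkn⟩, ?_⟩
      rcases hh.edge_cases ⟨k, hkn⟩ with ⟨l, hl, hil, e1, e2, e3⟩ | ⟨l, hl, hil, e1, e2, e3⟩ |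
        ⟨hil, e1, e2, e3⟩ | ⟨hil, hn, e1, e2, e3⟩
      · have : l = k := by simpa using hil.symm
        subst this
        rw [e3]
        exact ⟨c1, c2, h6⟩
      · exfalso; simp only at hil; rcases htip with h | h <;> omega
      · exfalso; simp only at hil; rcases htip with h | h <;> omega
      · exfalso; simp only at hil; omega
    have up : p.2 = pl H L p.1 → ∃ i, p ∈ edge (mv n L G H) i := by
      intro h6
      obtain ⟨k, -, hk, c1, c2⟩ := exists_unit 0 L (by omega) p.1 (by simpa using h1) h2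
      have hkn : n - 2 - k < n := by omega
      refine ⟨⟨n - 2 - k, hkn⟩, ?_⟩
      rcases hh.edge_cases ⟨n - 2 - k, hkn⟩ with ⟨l, hl, hil, e1, e2, e3⟩ |
        ⟨l, hl, hil, e1, e2, e3⟩ | ⟨hil, e1, e2, e3⟩ | ⟨hil, hn, e1, e2, e3⟩
      · exfalso; simp only at hil; rcases htip with h | h <;> omega
      · have : l = k := by simp only at hil; rcases htip with h | h <;> omega
        subst this
        rw [e3]
        exact ⟨c1, c2, h6⟩
      · exfalso; simp only at hil; rcases htip with h | h <;> omega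
      · exfalso; simp only at hil; omega
    rcases h5 with h6 | h6 | h6 | h6
    · have hkn : n - 1 < n := by omega
      refine ⟨⟨n - 1, hkn⟩, ?_⟩
      have g0 : pl G L 0 = G 0 := by simpa using pl_nat G L 0 (by omega)
      have h0 : pl H L 0 = H 0 := by simpa using pl_nat H L 0 (by omega)
      rw [h6, g0] at h3
      rw [h6, h0] at h4
      rcases hh.edge_cases ⟨n - 1, hkn⟩ with ⟨l, hl, hil, e1, e2, e3⟩ |
        ⟨l, hl, hil, e1, e2, e3⟩ | ⟨hil, e1, e2, e3⟩ | ⟨hil, hn, e1, e2, e3⟩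
      · exfalso; simp only at hil; rcases htip with h | h <;> omega
      · exfalso; simp only at hil; rcases htip with h | h <;> omega
      · rw [e3]
        exact ⟨h6, h3, h4⟩
      · exfalso; simp only at hil; omega
    · rcases htip with h | h
      · have hkn : L < n := by omega
        refine ⟨⟨L, hkn⟩, ?_⟩
        rw [h6, pl_nat G L L le_rfl] at h3
        rw [h6, pl_nat H L L le_rfl] at h4
        rcases hh.edge_cases ⟨L, hkn⟩ with ⟨l, hl, hil, e1, e2, e3⟩ |
          ⟨l, hl, hil, e1, e2, e3⟩ | ⟨hil, e1, e2, e3⟩ | ⟨hil, hn, e1, e2, e3⟩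
        · exfalso; simp only at hil; omega
        · exfalso; simp only at hil; omega
        · exfalso; simp only at hil; omega
        · rw [e3]
          exact ⟨h6, h3, h4⟩
      · apply low
        rw [h6, pl_nat G L L le_rfl] at h3 ⊢
        rw [h6, pl_nat H L L le_rfl] at h4
        linarith [h.2]
    · exact low h6
    · exact up h6

/-- **Monotone polygons are simple polygons.** -/
theorem Heights.isSimplePolygon (hh : Heights n L G H) :
    IsSimplePolygon (mv n L G H) (region L (pl G L) (pl H L)) where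
  three_le := by
    have := hh.hL
    rcases hh.tip with h | h <;> omega
  injective := hh.inj
  simple := by
    intro i j hij p hp
    refine ⟨?_, ?_⟩
    · rcases hh.one_sided i j hij p hp.1 hp.2 with h | h
      · exact Or.inl h
      · exact Or.inr h
    · rcases hh.one_sided j i hij.symm p hp.2 hp.1 with h | h
      · exact Or.inl h
      · exact Or.inr h
  compact := region_compact (pl_continuous _ _) (pl_continuous _ _) (by have := hh.hL; omega)
    (fun x h0 h1 => hh.pl_lt x h0.le h1)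
  regular := region_regular (pl_continuous _ _) (pl_continuous _ _) (by have := hh.hL; omega)
    (fun x h0 h1 => hh.pl_lt x h0.le h1)
  boundary := by
    rw [frontier_region (pl_continuous _ _) (pl_continuous _ _)
      (fun x h0 h1 => hh.pl_lt x h0.le h1), hh.curve_eq]

end

end Pool.Agent.TH695.BC
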