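import Pool.Agent.TH695.BC.Chord

/-!
# The two sides of a chord; crossing chords
-/

namespace Pool.Agent.TH695.BC

open Vis124 Finset Topology Filter

variable {n : ℕ} {v : Fin n → ℝ × ℝ} {P : Set (ℝ × ℝ)}

section
variable (h : IsSimplePolygon v P) (hn : 0 < n) {σ : ℝ} (hσ : σ = 1 ∨ σ = -1)
  (hint : ∀ k, Ev v (interior P) σ k) (hext : ∀ k, Ev v Pᶜ (-σ) k)
  {p q : ℕ} (hpq : p < q) (hqn : q < p + n) (hS : segment ℝ (vx v hn p) (vx v hn q) ⊆ P)

include h hσ hint hext hpq hqn in
lemma sum_in {x : ℝ × ℝ} (hx : x ∈ interior P) (hxS : x ∉ segment ℝ (vx v hn p) (vx v hn q)) :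
    Wc v hn p q x + Wc v hn q (p + n) x = σ * (2 * Real.pi) := by
  rw [Wc_add hn hpq.le hqn.le hxS, W_bdry h hσ hint hext hx]

include hS in
lemma hS' : segment ℝ (vx v hn q) (vx v hn (p + n)) ⊆ P := by
  rw [vx_add, segment_symm]; exact hS

include h hσ hint hext hpq hqn hS in
/-- the winding sum of the closed curve of a chord takes two values only -/
lemma dich {x : ℝ × ℝ} (hx : x ∈ interior P)
    (hxS : x ∉ segment ℝ (vx v hn p) (vx v hn q)) :
    Wc v hn p q x = σ * (2 * Real.pi) ∨ Wc v hn p q x = 0 := by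
  have hu : x - vx v hn p ≠ 0 := by
    intro h0
    apply hxS
    rw [sub_eq_zero.mp h0]; exact left_mem_segment _ _ _
  obtain ⟨ts, hts, hin, hz⟩ := exists_hit h hx hu
  have hray : ∀ t : ℝ, 0 ≤ t → x + t • (x - vx v hn p) ∉ segment ℝ (vx v hn p) (vx v hn q) :=
    fun t ht => ray_away (convex_segment _ _) (left_mem_segment _ _ _) hxS ht
  have hzS := hray ts hts.le
  rcases one_off h hn (p := p) (q := q) (z := x + ts • (x - vx v hn p))
    (fun he => hzS (by rw [he]; exact left_mem_segment _ _ _))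
    (fun he => hzS (by rw [he]; exact right_mem_segment _ _ _)) with h1 | h1
  · right
    exact shoot h hn hpq.le hS hts hin hray hz h1
  · left
    have h2 := shoot h hn (p := q) (q := p + n) hqn.le (hS' hn hS) hts hin (by
      intro t ht
      rw [vx_add, segment_symm]; exact hray t ht) hz h1
    have h3 := sum_in h hn hσ hint hext hpq hqn hx hxS
    rw [h2, add_zero] at h3
    exact h3

/-- the part of the interior on the side of the chain from `p` to `q` resp. the other side -/
def Aset (v : Fin n → ℝ × ℝ) (P : Set (ℝ × ℝ)) (hn : 0 < n) (p q : ℕ) (c : ℝ) : Set (ℝ × ℝ) :=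
  {x | x ∈ interior P ∧ x ∉ segment ℝ (vx v hn p) (vx v hn q) ∧ Wc v hn p q x = c}

include h hσ hint hext hpq hqn hS in
lemma off1 {z : ℝ × ℝ} (hz : z ∈ curve v) (hzS : z ∉ segment ℝ (vx v hn p) (vx v hn q))
    (hoff : ∀ i ∈ Ico p q, z ∉ segment ℝ (vx v hn i) (vx v hn (i + 1))) :
    z ∉ closure (Aset v P hn p q (σ * (2 * Real.pi))) := by
  obtain ⟨δ, hδ, hb⟩ := near_off h hn hpq.le hS hz hzS hoff
  intro hc
  obtain ⟨y, hy, hd⟩ := Metric.mem_closure_iff.1 hc δ hδ
  have h1 := hb y (by rw [Metric.mem_ball, dist_comm]; exact hd)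
  have h2 := hy.2.2
  rw [h1] at h2
  have hpi := Real.pi_pos
  rcases hσ with rfl | rfl <;> linarith

include h hσ hint hext hpq hqn hS in
lemma off2 {z : ℝ × ℝ} (hz : z ∈ curve v) (hzS : z ∉ segment ℝ (vx v hn p) (vx v hn q))
    (hoff : ∀ i ∈ Ico q (p + n), z ∉ segment ℝ (vx v hn i) (vx v hn (i + 1))) :
    z ∉ closure (Aset v P hn p q 0) := by
  obtain ⟨δ, hδ, hb⟩ := near_off h hn hqn.le (hS' hn hS) hz (by
    rw [vx_add, segment_symm]; exact hzS) hoff
  intro hc
  obtain ⟨y, hy, hd⟩ := Metric.mem_closure_iff.1 hc δ hδ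
  have h1 := hb y (by rw [Metric.mem_ball, dist_comm]; exact hd)
  have h2 := hy.2.2
  have h3 := sum_in h hn hσ hint hext hpq hqn hy.1 hy.2.1
  rw [h1, h2] at h3
  have hpi := Real.pi_pos
  rcases hσ with rfl | rfl <;> linarith

include h hσ hint hext hpq hqn hS in
/-- the two sides are separated off the chord -/
lemma sep {z : ℝ × ℝ} (hz : z ∈ P) (hzS : z ∉ segment ℝ (vx v hn p) (vx v hn q)) :
    z ∉ closure (Aset v P hn p q (σ * (2 * Real.pi))) ∨ z ∉ closure (Aset v P hn p q 0) := by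
  by_cases hzi : z ∈ interior P
  · obtain ⟨δ, hδ, hb⟩ := W_local (isCyc_c hn hpq.le)
      (off_cyc hn hzS fun i _ => int_off h hn hzi i)
    by_contra hc
    push Not at hc
    obtain ⟨c1, c2⟩ := hc
    obtain ⟨y1, hy1, hd1⟩ := Metric.mem_closure_iff.1 c1 δ hδ
    obtain ⟨y2, hy2, hd2⟩ := Metric.mem_closure_iff.1 c2 δ hδ
    have e1 := hb y1 (by rw [Metric.mem_ball, dist_comm]; exact hd1)
    have e2 := hb y2 (by rw [Metric.mem_ball, dist_comm]; exact hd2)
    have f1 : Wc v hn p q y1 = σ * (2 * Real.pi) := hy1.2.2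
    have f2 : Wc v hn p q y2 = 0 := hy2.2.2
    unfold Wc at f1 f2
    rw [e1] at f1
    rw [e2] at f2
    rw [f1] at f2
    have hpi := Real.pi_pos
    rcases hσ with rfl | rfl <;> linarith
  · have hzc : z ∈ curve v := by
      rw [← h.boundary, frontier, (isClosed_P h).closure_eq]
      exact ⟨hz, hzi⟩
    rcases one_off h hn (p := p) (q := q) (z := z)
      (fun he => hzS (by rw [he]; exact left_mem_segment _ _ _))
      (fun he => hzS (by rw [he]; exact right_mem_segment _ _ _)) with h1 | h1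
    · left; exact off1 h hn hσ hint hext hpq hqn hS hzc hzS h1
    · right; exact off2 h hn hσ hint hext hpq hqn hS hzc hzS h1

include h hσ hint hext hpq hqn hS in
lemma cover_sides {z : ℝ × ℝ} (hz : z ∈ P) (hzS : z ∉ segment ℝ (vx v hn p) (vx v hn q)) :
    z ∈ closure (Aset v P hn p q (σ * (2 * Real.pi))) ∪ closure (Aset v P hn p q 0) := by
  have hcl : IsClosed (segment ℝ (vx v hn p) (vx v hn q)) := by
    rw [segment_eq_image']
    exact (isCompact_Icc.image (by fun_prop)).isClosed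
  rw [← closure_union]
  have h1 : z ∈ (segment ℝ (vx v hn p) (vx v hn q))ᶜ ∩ closure (interior P) := by
    rw [h.regular]; exact ⟨hzS, hz⟩
  have h2 := hcl.isOpen_compl.inter_closure h1
  apply closure_mono _ h2
  rintro x ⟨hx1, hx2⟩
  rcases dich h hn hσ hint hext hpq hqn hS hx2 hx1 with h3 | h3
  · left; exact ⟨hx2, hx1, h3⟩
  · right; exact ⟨hx2, hx1, h3⟩

include h hσ hint hext hpq hqn hS in
/-- a connected set in the polygon off the chord is on one side -/
lemma conn {C : Set (ℝ × ℝ)} (hC : IsPreconnected C) (hCP : C ⊆ P)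
    (hCS : Disjoint C (segment ℝ (vx v hn p) (vx v hn q))) :
    C ⊆ closure (Aset v P hn p q (σ * (2 * Real.pi))) ∨ C ⊆ closure (Aset v P hn p q 0) := by
  apply isPreconnected_iff_subset_of_disjoint_closed.mp hC _ _ isClosed_closure isClosed_closure
  · intro z hz
    exact cover_sides h hn hσ hint hext hpq hqn hS (hCP hz) (Set.disjoint_left.mp hCS hz)
  · rw [Set.eq_empty_iff_forall_notMem]
    rintro z ⟨hz, hz1, hz2⟩
    rcases sep h hn hσ hint hext hpq hqn hS (hCP hz) (Set.disjoint_left.mp hCS hz) with h1 | h1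
    · exact h1 hz1
    · exact h1 hz2

include h hσ hint hext hpq hqn hS in
/-- the vertices between `p` and `q` are on the first side -/
lemma vertex1 {r : ℕ} (h1 : p < r) (h2 : r < q)
    (hr : vx v hn r ∉ segment ℝ (vx v hn p) (vx v hn q)) :
    vx v hn r ∉ closure (Aset v P hn p q 0) :=
  off2 h hn hσ hint hext hpq hqn hS (vx_mem_curve hn r) hr
    (vertex_off h hn h2 (by omega))

include h hσ hint hext hpq hqn hS in
/-- the vertices after `q` are on the second side -/
lemma vertex2 {r : ℕ} (h1 : q < r) (h2 : r < p + n)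
    (hr : vx v hn r ∉ segment ℝ (vx v hn p) (vx v hn q)) :
    vx v hn r ∉ closure (Aset v P hn p q (σ * (2 * Real.pi))) := by
  apply off1 h hn hσ hint hext hpq hqn hS (vx_mem_curve hn r) hr
  have h3 := vertex_off h hn (q := p + n) (r := r) (m := q + n) h2 (by omega)
  intro i hi
  rw [mem_Ico] at hi
  have h4 := h3 (i + n) (mem_Ico.mpr ⟨by omega, by omega⟩)
  have h5 : i + n + 1 = i + 1 + n := by ring
  rwa [h5, vx_add, vx_add] at h4

end

/-- crossing chords meet -/
theorem crossing (h : IsSimplePolygon v P) (hn : 0 < n) {a b e f : ℕ} (hab : a < b) (hbe : b < e)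
    (hef : e < f) (hfn : f < a + n) (h1 : segment ℝ (vx v hn a) (vx v hn e) ⊆ P)
    (h2 : segment ℝ (vx v hn b) (vx v hn f) ⊆ P) :
    ∃ x, x ∈ segment ℝ (vx v hn a) (vx v hn e) ∧ x ∈ segment ℝ (vx v hn b) (vx v hn f) := by
  obtain ⟨σ, hσ, hint, hext⟩ := oriented h
  by_contra hc
  push Not at hc
  have hd : Disjoint (segment ℝ (vx v hn b) (vx v hn f)) (segment ℝ (vx v hn a) (vx v hn e)) := by
    rw [Set.disjoint_left]
    intro x hx hx2
    exact hc x hx2 hx
  have hae : a < e := hab.trans hbe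
  have hb := Set.disjoint_left.mp hd (left_mem_segment ℝ (vx v hn b) (vx v hn f))
  have hf := Set.disjoint_left.mp hd (right_mem_segment ℝ (vx v hn b) (vx v hn f))
  have v1 := vertex1 h hn hσ hint hext hae (by omega) h1 hab hbe hb
  have v2 := vertex2 h hn hσ hint hext hae (by omega) h1 hef hfn hf
  rcases conn h hn hσ hint hext hae (by omega) h1 (convex_segment _ _).isPreconnected h2 hd
    with h3 | h3
  · exact v2 (h3 (right_mem_segment _ _ _))
  · exact v1 (h3 (left_mem_segment _ _ _))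

end Pool.Agent.TH695.BC
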