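import Pool.Agent.TH695.BC.Lower

/-!
# The double comb has no straight angles
-/

namespace Pool.Agent.TH695.BC

open Set Vis124

lemma cross_of_collinear {A B C : ℝ × ℝ} (h : Collinear ℝ {A, B, C}) :
    (B.1 - A.1) * (C.2 - A.2) - (B.2 - A.2) * (C.1 - A.1) = 0 := by
  rw [collinear_iff_of_mem (p₀ := A) (by simp)] at h
  obtain ⟨w, hw⟩ := h
  obtain ⟨r, hr⟩ := hw B (by simp)
  obtain ⟨s, hs⟩ := hw C (by simp)
  rw [hr, hs]
  simp only [vadd_eq_add, Prod.fst_add, Prod.snd_add, Prod.smul_fst, Prod.smul_snd, smul_eq_mul]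
  ring

lemma Heights.noStraight {n L : ℕ} {G H : ℕ → ℝ} (hh : Heights n L G H)
    (hG : ∀ k, k + 2 ≤ L → G (k + 2) - 2 * G (k + 1) + G k ≠ 0)
    (hH : ∀ k, k + 2 ≤ L → H (k + 2) - 2 * H (k + 1) + H k ≠ 0) :
    NoStraight (mv n L G H) := by
  intro i hcol
  have hc := cross_of_collinear hcol
  have hL := hh.hL
  have hpos := hh.pos
  have htip := hh.tip
  have hi := i.isLt
  have hrot := rot_val hpos i
  have hj := (finRotate n i).isLt
  have g0 := hh.lt 0 (by omega)
  have gL := hh.lt (L - 1) (by omega)
  rcases hh.edge_cases i with ⟨k, hk, hik, e1, e2, e3⟩ | ⟨k, hk, hik, e1, e2, e3⟩ |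
      ⟨hik, e1, e2, e3⟩ | ⟨hik, hn, e1, e2, e3⟩ <;>
    rcases hh.edge_cases (finRotate n i) with ⟨l, hl, hjl, f1, f2, f3⟩ |
      ⟨l, hl, hjl, f1, f2, f3⟩ | ⟨hjl, f1, f2, f3⟩ | ⟨hjl, hn', f1, f2, f3⟩ <;>
    rw [e1, e2, f2] at hc <;> rw [hjl, hik] at hrot <;> simp only at hc
  · have hlk : l = k + 1 := by
      rw [if_neg (by rcases htip with h | h <;> omega)] at hrot; exact hrot
    subst hlk
    apply hG k (by omega)
    push_cast at hc
    linarith
  · rw [if_neg (by rcases htip with h | h <;> omega)] at hrot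
    have h1 : k + 1 = L := by rcases htip with h | h <;> omega
    have h2 : l + 1 = L := by rcases htip with h | h <;> omega
    have h3 : k = l := by omega
    subst h3
    have h4 : L - 1 = k := by omega
    rw [h4] at gL
    apply gL.ne
    linarith
  · exfalso
    rw [if_neg (by rcases htip with h | h <;> omega)] at hrot
    rcases htip with h | h <;> omega
  · have h1 : k + 1 = L := by
      rw [if_neg (by omega)] at hrot; omega
    have h2 : (L : ℝ) = k + 1 := by rw [← h1]; push_cast; ring
    have h3 : G L ≠ H L := by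
      rcases htip with h | h
      · exact h.2.ne
      · omega
    rw [h1, h2] at hc
    apply h3
    linarith
  · exfalso
    split_ifs at hrot
    · rcases htip with h | h <;> omega
    · rcases htip with h | h <;> omega
  · have h1 : k = l + 1 := by
      rw [if_neg (by rcases htip with h | h <;> omega)] at hrot
      rcases htip with h | h <;> omega
    subst h1
    apply hH l (by omega)
    push_cast at hc
    linarith
  · have h1 : k = 0 := by
      rw [if_neg (by rcases htip with h | h <;> omega)] at hrot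
      rcases htip with h | h <;> omega
    subst h1
    push_cast at hc
    apply g0.ne
    linarith
  · exfalso
    split_ifs at hrot
    · rcases htip with h | h <;> omega
    · rcases htip with h | h <;> omega
  · have h1 : l = 0 := by
      rw [if_pos (by omega)] at hrot; omega
    subst h1
    push_cast at hc
    apply g0.ne
    linarith
  · exfalso
    rw [if_pos (by omega)] at hrot
    rcases htip with h | h <;> omega
  · exfalso
    rw [if_pos (by omega)] at hrot
    rcases htip with h | h <;> omega
  · exfalso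
    rw [if_pos (by omega)] at hrot
    rcases htip with h | h <;> omega
  · exfalso
    rw [if_neg (by omega)] at hrot
    omega
  · have h1 : l + 1 = L := by
      rw [if_neg (by omega)] at hrot; omega
    have h2 : (L : ℝ) = l + 1 := by rw [← h1]; push_cast; ring
    have h3 : G L ≠ H L := by
      rcases htip with h | h
      · exact h.2.ne
      · omega
    rw [h2] at hc
    apply h3
    linarith
  · exfalso
    rw [if_neg (by omega)] at hrot
    omega
  · exfalso
    rw [if_neg (by omega)] at hrot
    omega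

lemma upH_odd (m x : ℕ) (hm : 1 ≤ m) (h : x % 2 = 1) :
    (x < 2 * m ^ 2 ∧ 1 / 2 ≤ upH m x ∧ upH m x < 1) ∨ (2 * m ^ 2 ≤ x ∧ upH m x = 2) := by
  rcases Nat.lt_or_ge x (2 * m ^ 2) with h1 | h1
  · left
    refine ⟨h1, upH_ge_half m x hm, ?_⟩
    unfold upH
    rw [if_neg (by omega), if_pos h1]
    have h3 := den_ge m (x / 2) (by omega)
    have h4 : (1 : ℝ) ≤ m := by exact_mod_cast hm
    have h5 : 0 < den m (x / 2) := by nlinarith
    have : 0 < 1 / den m (x / 2) := by positivity
    linarith
  · right
    refine ⟨h1, ?_⟩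
    unfold upH
    rw [if_neg (by omega), if_neg (by omega)]

lemma loG_even (m x : ℕ) (h : x % 2 = 0) : loG m x = 0 := by
  unfold loG
  split_ifs
  · rw [upH_even _ _ (by omega)]; ring
  · rfl

lemma loG_odd (m x : ℕ) (hm : 1 ≤ m) (h : x % 2 = 1) :
    (x ≤ 6 * m ^ 2 ∧ 0 < loG m x ∧ loG m x ≤ 1 / 2) ∨ loG m x = -1 := by
  by_cases h1 : x ≤ 6 * m ^ 2
  · unfold loG
    rw [if_pos h1]
    rcases upH_odd m (6 * m ^ 2 - x) hm (by omega) with ⟨h2, h3, h4⟩ | ⟨h2, h3⟩
    · left; exact ⟨h1, by linarith, by linarith⟩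
    · right; rw [h3]; norm_num
  · right
    unfold loG
    rw [if_neg h1, if_neg (by omega)]

lemma comb_noStraight (n L m : ℕ) (hm : 1 ≤ m) (hL : 6 * m ^ 2 + 1 ≤ L)
    (hn : n = 2 * L + 2 ∨ n = 2 * L + 1) : NoStraight (mv n L (tG n L m) (tH n L m)) := by
  apply (heights_comb n L m hm hL hn).noStraight
  · intro k hk
    have e0 : tG n L m k = loG m k := tG_of_lt _ _ _ _ (by omega)
    have e1 : tG n L m (k + 1) = loG m (k + 1) := tG_of_lt _ _ _ _ (by omega)
    rw [e0, e1]
    by_cases htip : n = 2 * L + 1 ∧ k + 2 = L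
    · have e2 : tG n L m (k + 2) = 1 / 2 := by unfold tG; rw [if_pos htip]
      rw [e2]
      rcases Nat.mod_two_eq_zero_or_one k with hk2 | hk2
      · rw [loG_even m k hk2]
        rcases loG_odd m (k + 1) hm (by omega) with ⟨h1, h2, h3⟩ | h1
        · omega
        · rw [h1]; norm_num
      · rw [loG_even m (k + 1) (by omega)]
        rcases loG_odd m k hm hk2 with ⟨h1, h2, h3⟩ | h1
        · intro h; linarith
        · rw [h1]; norm_num
    · have e2 : tG n L m (k + 2) = loG m (k + 2) := by unfold tG; rw [if_neg htip]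
      rw [e2]
      rcases Nat.mod_two_eq_zero_or_one k with hk2 | hk2
      · rw [loG_even m k hk2, loG_even m (k + 2) (by omega)]
        rcases loG_odd m (k + 1) hm (by omega) with ⟨h1, h2, h3⟩ | h1
        · intro h; linarith
        · rw [h1]; norm_num
      · rw [loG_even m (k + 1) (by omega)]
        rcases loG_odd m k hm hk2 with ⟨h1, h2, h3⟩ | h1 <;>
          rcases loG_odd m (k + 2) hm (by omega) with ⟨h4, h5, h6⟩ | h4
        · intro h; linarith
        · intro h; linarith
        · intro h; linarith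
        · intro h; linarith
  · intro k hk
    have e0 : tH n L m k = upH m k := tH_of_lt _ _ _ _ (by omega)
    have e1 : tH n L m (k + 1) = upH m (k + 1) := tH_of_lt _ _ _ _ (by omega)
    rw [e0, e1]
    by_cases htip : n = 2 * L + 1 ∧ k + 2 = L
    · have e2 : tH n L m (k + 2) = 1 / 2 := by unfold tH; rw [if_pos htip]
      rw [e2]
      have hmm : 1 ≤ m ^ 2 := Nat.one_le_pow _ _ hm
      rcases Nat.mod_two_eq_zero_or_one k with hk2 | hk2
      · rw [upH_even m k hk2]
        rcases upH_odd m (k + 1) hm (by omega) with ⟨h1, h2, h3⟩ | ⟨h0, h1⟩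
        · omega
        · rw [h1]; norm_num
      · rw [upH_even m (k + 1) (by omega)]
        rcases upH_odd m k hm hk2 with ⟨h1, h2, h3⟩ | ⟨h0, h1⟩
        · omega
        · rw [h1]; norm_num
    · have e2 : tH n L m (k + 2) = upH m (k + 2) := by unfold tH; rw [if_neg htip]
      rw [e2]
      rcases Nat.mod_two_eq_zero_or_one k with hk2 | hk2
      · rw [upH_even m k hk2, upH_even m (k + 2) (by omega)]
        rcases upH_odd m (k + 1) hm (by omega) with ⟨h1, h2, h3⟩ | ⟨h0, h1⟩
        · intro h; linarith
        · rw [h1]; norm_num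
      · rw [upH_even m (k + 1) (by omega)]
        rcases upH_odd m k hm hk2 with ⟨h1, h2, h3⟩ | ⟨h0, h1⟩ <;>
          rcases upH_odd m (k + 2) hm (by omega) with ⟨h4, h5, h6⟩ | ⟨h4, h5⟩
        · intro h; linarith
        · intro h; linarith
        · intro h; linarith
        · intro h; linarith

end Pool.Agent.TH695.BC
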