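import Pool.Agent.TH695.BC.Final
import Pool.Agent.TH695.BC.HexPoly

/-!
# The order of growth of the bit size of clique/biclique covers of visibility graphs
-/

namespace Pool.Agent.TH695.BC

open Set Vis124 Filter Asymptotics

/-- `fAll n`: the largest value of `beta (G)` over the visibility graphs `G` of all simple polygons
with `n` vertices (straight angles at the vertices are allowed). -/
noncomputable def fAll (n : ℕ) : ℕ :=
  sSup {b | ∃ (v : Fin n → ℝ × ℝ) (P : Set (ℝ × ℝ)), IsSimplePolygon v P ∧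
    b = beta (visGraph v P)}

lemma fAll_bddAbove (n : ℕ) :
    BddAbove {b | ∃ (v : Fin n → ℝ × ℝ) (P : Set (ℝ × ℝ)), IsSimplePolygon v P ∧
      b = beta (visGraph v P)} := by
  have h : {b | ∃ (v : Fin n → ℝ × ℝ) (P : Set (ℝ × ℝ)), IsSimplePolygon v P ∧
      b = beta (visGraph v P)} ⊆ Set.range (fun G : SimpleGraph (Fin n) => beta G) := by
    rintro b ⟨v, P, -, rfl⟩
    exact ⟨_, rfl⟩
  exact (Set.finite_range _).bddAbove.mono h

lemma sSup_le_of {S : Set ℕ} {m : ℕ} (h : ∀ b ∈ S, b ≤ m) : sSup S ≤ m := by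
  rcases S.eq_empty_or_nonempty with rfl | hne
  · simp
  · exact csSup_le hne h

lemma f_le_fAll (n : ℕ) : f n ≤ fAll n := by
  apply sSup_le_of
  rintro b ⟨v, P, h, -, rfl⟩
  exact le_csSup (fAll_bddAbove n) ⟨v, P, h, rfl⟩

/-- **Upper bound.** The visibility graph of a simple polygon with `n` vertices has a covering set
of total size at most `75 n ⌈log₂ n⌉²`. -/
theorem exists_cover_polygon {n : ℕ} {v : Fin n → ℝ × ℝ} {P : Set (ℝ × ℝ)}
    (h : IsSimplePolygon v P) :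
    ∃ C : CoveringSet (visGraph v P), C.size ≤ 75 * n * Nat.clog 2 n ^ 2 :=
  exists_cover _ (hex_visGraph h)

lemma beta_upper {n : ℕ} {v : Fin n → ℝ × ℝ} {P : Set (ℝ × ℝ)} (h : IsSimplePolygon v P) :
    beta (visGraph v P) ≤ 75 * n * Nat.clog 2 n ^ 3 := by
  obtain ⟨C, hC⟩ := exists_cover_polygon h
  have h1 : beta (visGraph v P) ≤ C.bits := Nat.sInf_le ⟨C, rfl⟩
  refine h1.trans ?_
  unfold CoveringSet.bits
  calc Nat.clog 2 n * C.size ≤ Nat.clog 2 n * (75 * n * Nat.clog 2 n ^ 2) :=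
        Nat.mul_le_mul_left _ hC
    _ = 75 * n * Nat.clog 2 n ^ 3 := by ring

lemma fAll_upper (n : ℕ) : fAll n ≤ 75 * n * Nat.clog 2 n ^ 3 := by
  apply sSup_le_of
  rintro b ⟨v, P, h, rfl⟩
  exact beta_upper h

lemma clog_le {n : ℕ} (hn : 2 ≤ n) : (Nat.clog 2 n : ℝ) ≤ 3 * Real.log n := by
  have h1 := Nat.pow_pred_clog_lt_self (b := 2) (by norm_num) (show 1 < n by omega)
  have h2 : 0 < Nat.clog 2 n := Nat.clog_pos (by norm_num) hn
  have h3 : (2 : ℝ) ^ (Nat.clog 2 n).pred < n := by exact_mod_cast h1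
  have h4 := Real.log_lt_log (by positivity) h3
  rw [Real.log_pow] at h4
  have h5 : ((Nat.clog 2 n).pred : ℝ) = (Nat.clog 2 n : ℝ) - 1 := by
    rw [← Nat.succ_pred_eq_of_pos h2]; simp
  rw [h5] at h4
  have h6 : Real.log 2 ≤ Real.log n := Real.log_le_log (by norm_num) (by exact_mod_cast hn)
  have h7 := Real.log_two_gt_d9
  nlinarith

/-- the upper bound with natural logarithms -/
theorem fAll_upper' {n : ℕ} (hn : 2 ≤ n) : (fAll n : ℝ) ≤ 2025 * n * Real.log n ^ 3 := by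
  have h1 : (fAll n : ℝ) ≤ 75 * n * (Nat.clog 2 n : ℝ) ^ 3 := by exact_mod_cast fAll_upper n
  have h2 := clog_le hn
  have h3 : (Nat.clog 2 n : ℝ) ^ 3 ≤ (3 * Real.log n) ^ 3 :=
    pow_le_pow_left₀ (Nat.cast_nonneg _) h2 3
  calc (fAll n : ℝ) ≤ 75 * n * (Nat.clog 2 n : ℝ) ^ 3 := h1
    _ ≤ 75 * n * (3 * Real.log n) ^ 3 := mul_le_mul_of_nonneg_left h3 (by positivity)
    _ = 2025 * n * Real.log n ^ 3 := by ring

/-- **The order of growth.** -/
theorem order_of_growth :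
    ∃ c C : ℝ, 0 < c ∧ 0 < C ∧ ∃ n₀ : ℕ, ∀ n : ℕ, n₀ ≤ n →
      c * (n * Real.log n ^ 3) ≤ (f n : ℝ) ∧ f n ≤ fAll n ∧
      (fAll n : ℝ) ≤ C * (n * Real.log n ^ 3) := by
  obtain ⟨c, hc, n₀, hlow⟩ := lower_bound
  refine ⟨c, 2025, hc, by norm_num, max 2 n₀, fun n hn => ⟨?_, f_le_fAll n, ?_⟩⟩
  · have h1 := hlow n ((le_max_right _ _).trans hn)
    rwa [mul_assoc] at h1
  · have h1 := fAll_upper' ((le_max_left _ _).trans hn)
    rwa [mul_assoc] at h1

/-- the order of growth in terms of the relation `=Θ` of Mathlib -/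
theorem theta :
    (fun n : ℕ => (f n : ℝ)) =Θ[atTop] (fun n : ℕ => (n : ℝ) * Real.log n ^ 3) ∧
    (fun n : ℕ => (fAll n : ℝ)) =Θ[atTop] (fun n : ℕ => (n : ℝ) * Real.log n ^ 3) := by
  obtain ⟨c, C, hc, hC, n₀, h⟩ := order_of_growth
  have key : ∀ g : ℕ → ℕ, (∀ n, f n ≤ g n) → (∀ n, g n ≤ fAll n) →
      (fun n : ℕ => (g n : ℝ)) =Θ[atTop] (fun n : ℕ => (n : ℝ) * Real.log n ^ 3) := by
    intro g h1 h2
    have hpos : ∀ n : ℕ, 2 ≤ n → 0 ≤ (n : ℝ) * Real.log n ^ 3 := by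
      intro n hn
      have : 0 ≤ Real.log n := Real.log_nonneg (by exact_mod_cast (by omega : 1 ≤ n))
      positivity
    constructor
    · apply IsBigO.of_bound C
      filter_upwards [eventually_ge_atTop (max 2 n₀)] with n hn
      rw [Real.norm_of_nonneg (Nat.cast_nonneg _),
        Real.norm_of_nonneg (hpos n ((le_max_left _ _).trans hn))]
      have h3 : (g n : ℝ) ≤ fAll n := by exact_mod_cast h2 n
      exact h3.trans (h n ((le_max_right _ _).trans hn)).2.2
    · apply IsBigO.of_bound (1 / c)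
      filter_upwards [eventually_ge_atTop (max 2 n₀)] with n hn
      rw [Real.norm_of_nonneg (Nat.cast_nonneg _),
        Real.norm_of_nonneg (hpos n ((le_max_left _ _).trans hn)), div_mul_eq_mul_div,
        one_mul, le_div_iff₀ hc]
      have h3 : (f n : ℝ) ≤ g n := by exact_mod_cast h1 n
      have h4 := (h n ((le_max_right _ _).trans hn)).1
      have h5 : (n : ℝ) * Real.log n ^ 3 * c = c * ((n : ℝ) * Real.log n ^ 3) := by ring
      rw [h5]
      exact h4.trans h3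
  exact ⟨key f (fun n => le_rfl) f_le_fAll, key fAll f_le_fAll fun n => le_rfl⟩

end Pool.Agent.TH695.BC
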