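import Pool.Agent.TH695.BC.Wind

/-!
# Simple polygons: winding numbers outside and inside
-/

namespace Pool.Agent.TH695.BC

open Vis124 Finset Topology Filter

variable {n : ℕ} {v : Fin n → ℝ × ℝ} {P : Set (ℝ × ℝ)}

lemma isCompact_curve : IsCompact (curve v) := by
  unfold curve
  exact isCompact_iUnion fun k => isCompact_edge k

/-- every point off the curve can be joined to a point near the curve -/
lemma reach (h : IsSimplePolygon v P) {Q1 Q2 : Set (ℝ × ℝ)} (a1 : Absorbs v Q1)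
    (a2 : Absorbs v Q2) (e1 : ∀ k, Ev v Q1 1 k) (e2 : ∀ k, Ev v Q2 (-1) k) {x : ℝ × ℝ}
    (hx : x ∉ curve v) : x ∈ Q1 ∨ x ∈ Q2 := by
  have hn := h.three_le
  have k0 : Fin n := ⟨0, by omega⟩
  have hne : (curve v).Nonempty := ⟨v k0, Set.mem_iUnion.2 ⟨k0, vertex_mem_edge k0⟩⟩
  obtain ⟨z, hz, hd⟩ := isCompact_curve.exists_infDist_eq_dist hne x
  have hzx : x - z ≠ 0 := by
    intro h0
    have : x = z := sub_eq_zero.mp h0
    rw [this] at hx; exact hx hz
  have hzx' : 0 < ‖x - z‖ := norm_pos_iff.mpr hzx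
  set D := x - z with hD
  have hoff : ∀ ε : ℝ, 0 < ε → ε ≤ 1 → z + ε • D ∉ curve v := by
    intro ε h0 h1 hm
    have h2 := Metric.infDist_le_dist_of_mem (x := x) hm
    rw [hd] at h2
    have h3 : x - (z + ε • D) = (1 - ε) • D := by
      rw [sub_smul, one_smul, hD]; abel
    rw [dist_eq_norm, dist_eq_norm, h3, norm_smul, Real.norm_of_nonneg (by linarith), ← hD] at h2
    nlinarith
  set S : Set (ℝ × ℝ) := (fun ε : ℝ => z + ε • D) '' Set.Ioc 0 1 with hS
  have hSc : IsPreconnected S := isPreconnected_Ioc.image _ (by fun_prop)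
  have hSd : Disjoint S (curve v) := by
    rw [Set.disjoint_left]
    rintro _ ⟨ε, ⟨h0, h1⟩, rfl⟩
    exact hoff ε h0 h1
  have hxS : x ∈ S := ⟨1, ⟨one_pos, le_rfl⟩, by simp [hD]⟩
  have fin : (∃ δ > 0, (∀ s : ℝ, 0 < s → s < δ → z + s • D ∈ Q1)) ∨
      (∃ δ > 0, (∀ s : ℝ, 0 < s → s < δ → z + s • D ∈ Q2)) → x ∈ Q1 ∨ x ∈ Q2 := by
    rintro (⟨δ, hδ, hq⟩ | ⟨δ, hδ, hq⟩)
    · left
      have hm : z + (min (δ / 2) 1) • D ∈ Q1 :=
        hq _ (lt_min (by linarith) one_pos) (lt_of_le_of_lt (min_le_left _ _) (by linarith))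
      exact a1 S hSc hSd ⟨_, ⟨min (δ / 2) 1, ⟨lt_min (by linarith) one_pos, min_le_right _ _⟩, rfl⟩,
        hm⟩ hxS
    · right
      have hm : z + (min (δ / 2) 1) • D ∈ Q2 :=
        hq _ (lt_min (by linarith) one_pos) (lt_of_le_of_lt (min_le_left _ _) (by linarith))
      exact a2 S hSc hSd ⟨_, ⟨min (δ / 2) 1, ⟨lt_min (by linarith) one_pos, min_le_right _ _⟩, rfl⟩,
        hm⟩ hxS
  have vert : ∀ k, z = v k → x ∈ Q1 ∨ x ∈ Q2 := by
    intro k hk
    obtain ⟨δ, hδ, hnv⟩ := near_vertex h k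
    set ε : ℝ := min (1 : ℝ) (δ / (2 * ‖D‖)) with hε
    have hε0 : 0 < ε := lt_min one_pos (by positivity)
    have hε1 : ε ≤ 1 := min_le_left _ _
    have hε2 : ‖ε • D‖ < δ := by
      rw [norm_smul, Real.norm_of_nonneg hε0.le]
      have h1 : ε ≤ δ / (2 * ‖D‖) := min_le_right _ _
      rw [le_div_iff₀ (by positivity)] at h1
      linarith
    have inv : ∀ σ : ℝ, ε • D ∈ Sec σ (wd v k) (ud v k) → D ∈ Sec σ (wd v k) (ud v k) := by
      intro σ hm
      have := smul_mem_sec (t := ε⁻¹) (by positivity) hm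
      rwa [smul_smul, inv_mul_cancel₀ hε0.ne', one_smul] at this
    rcases hnv (ε • D) hε2 with (h1 | h1) | h1
    · apply fin
      left
      obtain ⟨δ', hδ', h3⟩ := vertex_ev (e1 k) (inv _ h1)
      exact ⟨δ', hδ', fun s a b => by rw [hk]; exact h3 s a b⟩
    · apply fin
      right
      obtain ⟨δ', hδ', h3⟩ := vertex_ev (e2 k) (inv _ h1)
      exact ⟨δ', hδ', fun s a b => by rw [hk]; exact h3 s a b⟩
    · rw [← hk] at h1
      exact absurd h1 (hoff ε hε0 hε1)
  obtain ⟨l, hl⟩ := Set.mem_iUnion.mp hz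
  rw [edge_eq] at hl
  obtain ⟨a, ha0, ha1, hza⟩ := hl
  rcases ha0.eq_or_lt with h0 | h0
  · apply vert l
    rw [hza, ← h0, zero_smul, add_zero]
  rcases ha1.eq_or_lt with h1 | h1
  · apply vert (sc l)
    rw [hza, h1, one_smul]; unfold wd; abel
  rcases lt_trichotomy (cr (wd v l) D) 0 with hc | hc | hc
  · apply fin
    right
    obtain ⟨δ, hδ, hs⟩ := cross_ev h a2 (by norm_num) (e2 l) h0 h1 (z := D) (by linarith)
    exact ⟨δ, hδ, fun s a b => by rw [hza]; exact hs s a b⟩
  · exfalso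
    obtain ⟨c, hcD⟩ := parallel (wd_ne h l) hc
    set ε : ℝ := min (1 : ℝ) (min a (1 - a) / (|c| + 1)) with hε
    have hm0 : 0 < min a (1 - a) := lt_min h0 (by linarith)
    have hε0 : 0 < ε := lt_min one_pos (by positivity)
    have hε1 : ε ≤ 1 := min_le_left _ _
    have hε2 : |ε * c| ≤ min a (1 - a) := by
      rw [abs_mul, abs_of_pos hε0]
      have h1 : ε ≤ min a (1 - a) / (|c| + 1) := min_le_right _ _
      rw [le_div_iff₀ (by positivity)] at h1
      nlinarith [abs_nonneg c]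
    have h5 := abs_le.mp hε2
    have h6 : min a (1 - a) ≤ a := min_le_left _ _
    have h7 : min a (1 - a) ≤ 1 - a := min_le_right _ _
    apply hoff ε hε0 hε1
    refine Set.mem_iUnion.2 ⟨l, ?_⟩
    rw [edge_eq]
    refine ⟨a + ε * c, by linarith [h5.1], by linarith [h5.2], ?_⟩
    rw [hza, hcD, smul_smul, add_smul]; abel
  · apply fin
    left
    obtain ⟨δ, hδ, hs⟩ := cross_ev h a1 (by norm_num) (e1 l) h0 h1 (z := D) (by linarith)
    exact ⟨δ, hδ, fun s a b => by rw [hza]; exact hs s a b⟩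

/-- a version with the orientation -/
lemma reach' (h : IsSimplePolygon v P) {σ : ℝ} (hσ : σ = 1 ∨ σ = -1) {Q1 Q2 : Set (ℝ × ℝ)}
    (a1 : Absorbs v Q1)
    (a2 : Absorbs v Q2) (e1 : ∀ k, Ev v Q1 σ k) (e2 : ∀ k, Ev v Q2 (-σ) k) {x : ℝ × ℝ}
    (hx : x ∉ curve v) : x ∈ Q1 ∨ x ∈ Q2 := by
  rcases hσ with rfl | rfl
  · exact reach h a1 a2 e1 e2 hx
  · rw [neg_neg] at e2
    exact (reach h a2 a1 e2 e1 hx).symm

variable {ι : Type} {F : Finset ι} {s t : ι → ℝ × ℝ}

/-- a rightmost vertex is rightmost in the polygon -/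
lemma exists_rightmost (h : IsSimplePolygon v P) : ∃ k0, ∀ y ∈ P, y.1 ≤ (v k0).1 := by
  have hn := h.three_le
  have : Nonempty (Fin n) := ⟨⟨0, by omega⟩⟩
  obtain ⟨k0, hk0⟩ := Finite.exists_max fun k => (v k).1
  refine ⟨k0, ?_⟩
  have hPne : P.Nonempty := ⟨v k0, curve_subset h (Set.mem_iUnion.2 ⟨k0, vertex_mem_edge k0⟩)⟩
  obtain ⟨y, hy, hmax⟩ := h.compact.exists_isMaxOn hPne continuous_fst.continuousOn
  have hyc : y ∈ curve v := by
    rw [← h.boundary]
    by_contra hnf
    have hyi : y ∈ interior P := by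
      by_contra hni
      apply hnf
      rw [frontier, (isClosed_P h).closure_eq]
      exact ⟨hy, hni⟩
    obtain ⟨δ, hδ, hb⟩ := Metric.mem_nhds_iff.mp (mem_interior_iff_mem_nhds.mp hyi)
    have h1 : (y.1 + δ / 2, y.2) ∈ P := by
      apply hb
      rw [Metric.mem_ball, Prod.dist_eq]
      simp [abs_of_pos hδ, hδ]
    have h2 : y.1 + δ / 2 ≤ y.1 := hmax h1
    linarith
  have hyk : y.1 ≤ (v k0).1 := by
    obtain ⟨l, hl⟩ := Set.mem_iUnion.mp hyc
    obtain ⟨a, b, ha, hb, hab, rfl⟩ := hl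
    have h1 := hk0 l
    have h2 := hk0 (finRotate n l)
    simp only [Prod.fst_add, Prod.smul_fst, smul_eq_mul] at *
    have : (v k0).1 = a * (v k0).1 + b * (v k0).1 := by rw [← add_mul, hab, one_mul]
    rw [this]
    exact add_le_add (mul_le_mul_of_nonneg_left h1 ha) (mul_le_mul_of_nonneg_left h2 hb)
  intro q hq
  exact (hmax hq).trans hyk

/-- closed curves inside the polygon have winding number zero around points outside -/
theorem W_ext (h : IsSimplePolygon v P) (hc : IsCyc F s t)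
    (hP : ∀ i ∈ F, segment ℝ (s i) (t i) ⊆ P) {x : ℝ × ℝ} (hx : x ∉ P) : Wn F s t x = 0 := by
  obtain ⟨σ, hσ, hint, hext⟩ := oriented h
  obtain ⟨k0, hk0⟩ := exists_rightmost h
  have hσ2 : (-σ) ^ 2 = 1 := by rcases hσ with rfl | rfl <;> norm_num
  set Q : Set (ℝ × ℝ) := {x | x ∉ P ∧ Wn F s t x = 0} with hQ
  have hQa : Absorbs v Q := by
    intro S hS hd hne
    obtain ⟨y, hy1, hy2, hy3⟩ := hne
    rcases disj_or h S hS hd with h1 | h1
    · exact absurd (interior_subset (h1 hy1)) hy2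
    · intro z hz
      refine ⟨h1 hz, ?_⟩
      rw [← hy3]
      apply W_const hc hS _ hz hy1
      intro i hi
      rw [Set.disjoint_left]
      intro w hw hw2
      exact h1 hw (hP i hi hw2)
  have hs1 : ∀ i ∈ F, (s i).1 ≤ (v k0).1 := fun i hi => hk0 _ (hP i hi (left_mem_segment _ _ _))
  have ht1 : ∀ i ∈ F, (t i).1 ≤ (v k0).1 := fun i hi => hk0 _ (hP i hi (right_mem_segment _ _ _))
  have hbase : Ev v Q (-σ) k0 := by
    obtain ⟨δ1, hδ1, hss⟩ := small_sector h (-σ) k0
    obtain ⟨hc1, hd1⟩ := hss δ1 hδ1 le_rfl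
    obtain ⟨δ2, hδ2, hnv⟩ := near_vertex h k0
    obtain ⟨δ3, hδ3, hi3⟩ := hint k0
    set ε : ℝ := min δ1 (min δ2 δ3) / 2 with hε
    have hm : 0 < min δ1 (min δ2 δ3) := lt_min hδ1 (lt_min hδ2 hδ3)
    have hε0 : 0 < ε := by rw [hε]; linarith
    have hεm : ε < min δ1 (min δ2 δ3) := by rw [hε]; linarith
    have hn : ‖((ε, 0) : ℝ × ℝ)‖ = ε := by
      rw [Prod.norm_def]
      simp [abs_of_pos hε0, hε0.le]
    have hp : v k0 + (ε, 0) ∉ P := by
      intro hm
      have := hk0 _ hm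
      simp at this
      linarith
    have hQ1 : v k0 + (ε, 0) ∈ Q := by
      refine ⟨hp, W_right hc ?_ ?_⟩
      · intro i hi
        have := hs1 i hi
        simp only [Prod.fst_add]
        linarith
      · intro i hi
        have := ht1 i hi
        simp only [Prod.fst_add]
        linarith
    have hσs : ((ε, 0) : ℝ × ℝ) ∉ Sec σ (wd v k0) (ud v k0) := by
      intro hm
      apply hp
      apply interior_subset
      apply hi3 _ hm
      rw [hn]
      exact lt_of_lt_of_le hεm ((min_le_right _ _).trans (min_le_right _ _))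
    have hin : ((ε, 0) : ℝ × ℝ) ∈ Sec (-σ) (wd v k0) (ud v k0) := by
      rcases hnv (ε, 0) (by
        rw [hn]; exact lt_of_lt_of_le hεm ((min_le_right _ _).trans (min_le_left _ _)))
        with (h1 | h1) | h1
      · rcases hσ with rfl | rfl
        · exact absurd h1 hσs
        · rw [neg_neg]; exact h1
      · rcases hσ with rfl | rfl
        · exact h1
        · exact absurd h1 hσs
      · exact absurd (curve_subset h h1) hp
    have hsub := hQa _ hc1 hd1 ⟨_, ⟨_, ⟨hin, by
      rw [mem_ball_zero_iff, hn]; exact lt_of_lt_of_le hεm (min_le_left _ _)⟩, rfl⟩, hQ1⟩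
    exact ⟨δ1, hδ1, fun z hz hzn => hsub ⟨z, ⟨hz, by rwa [mem_ball_zero_iff]⟩, rfl⟩⟩
  have hall : ∀ k, Ev v Q (-σ) k :=
    cyc_induction hbase fun k hk => ev_next h hQa hσ2 hk
  rcases reach' h hσ (absorbs_int h) hQa hint hall (fun hm => hx (curve_subset h hm)) with h1 | h1
  · exact absurd (interior_subset h1) hx
  · exact h1.2

/-- the boundary curve as a cycle -/
lemma isCyc_bdry : IsCyc (univ : Finset (Fin n)) v (fun k => v (finRotate n k)) := by
  intro A _ g
  exact (Equiv.sum_comp (finRotate n) fun k => g (v k)).symm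

/-- the boundary curve winds once around the interior points -/
theorem W_bdry (h : IsSimplePolygon v P) {σ : ℝ} (hσ : σ = 1 ∨ σ = -1)
    (hint : ∀ k, Ev v (interior P) σ k) (hext : ∀ k, Ev v Pᶜ (-σ) k) {x : ℝ × ℝ}
    (hx : x ∈ interior P) :
    Wn (univ : Finset (Fin n)) v (fun k => v (finRotate n k)) x = σ * (2 * Real.pi) := by
  set w : ℝ × ℝ → ℝ := Wn (univ : Finset (Fin n)) v (fun k => v (finRotate n k)) with hw
  have hσ2 : σ ^ 2 = 1 := by rcases hσ with rfl | rfl <;> norm_num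
  have hσ2' : (-σ) ^ 2 = 1 := by rcases hσ with rfl | rfl <;> norm_num
  have hwc : ∀ S : Set (ℝ × ℝ), IsPreconnected S → Disjoint S (curve v) → ∀ x ∈ S, ∀ y ∈ S,
      w x = w y := by
    intro S hS hd x hx y hy
    apply W_const isCyc_bdry hS _ hx hy
    intro i _
    exact hd.mono_right (Set.subset_iUnion (edge v) i)
  have habs : ∀ R : ℝ → Prop, Absorbs v {x | x ∈ interior P ∧ R (w x)} := by
    intro R S hS hd hne
    obtain ⟨y, hy1, hy2, hy3⟩ := hne
    have h1 := absorbs_int h S hS hd ⟨y, hy1, hy2⟩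
    intro z hz
    refine ⟨h1 hz, ?_⟩
    rw [hwc S hS hd z hz y hy1]; exact hy3
  have hpe : ∀ y ∉ P, w y = 0 := fun y hy =>
    W_ext h isCyc_bdry (fun i _ => (Set.subset_iUnion (edge v) i).trans (curve_subset h)) hy
  have key : ∀ k, Ev v {x | x ∈ interior P ∧ w x = σ * (2 * Real.pi)} σ k := by
    intro k
    obtain ⟨δ1, hδ1, hss⟩ := small_sector h σ k
    obtain ⟨δ3, hδ3, hi3⟩ := hint k
    obtain ⟨hc1, hd1⟩ := hss (min δ1 δ3) (lt_min hδ1 hδ3) (min_le_left _ _)
    by_contra hcon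
    -- then the sector consists of bad points
    have hbad : Ev v {x | x ∈ interior P ∧ w x ≠ σ * (2 * Real.pi)} σ k := by
      refine ⟨min δ1 δ3, lt_min hδ1 hδ3, ?_⟩
      intro z hz hzn
      refine ⟨hi3 z hz (lt_of_lt_of_le hzn (min_le_right _ _)), ?_⟩
      intro heq
      apply hcon
      refine ⟨min δ1 δ3, lt_min hδ1 hδ3, ?_⟩
      intro z' hz' hzn'
      refine ⟨hi3 z' hz' (lt_of_lt_of_le hzn' (min_le_right _ _)), ?_⟩
      rw [← heq]
      exact hwc _ hc1 hd1 _ ⟨z', ⟨hz', by rwa [mem_ball_zero_iff]⟩, rfl⟩ _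
        ⟨z, ⟨hz, by rwa [mem_ball_zero_iff]⟩, rfl⟩
    have hn2 := norm2_pos (wd_ne h k)
    obtain ⟨d1, hd1', g1⟩ := cross_ev h (habs fun r => r ≠ σ * (2 * Real.pi)) hσ2 hbad
      (a := 1 / 2) (by norm_num) (by norm_num) (z := σ • rot (wd v k)) (by
        have : σ * cr (wd v k) (σ • rot (wd v k)) = σ ^ 2 * ((wd v k).1 ^ 2 + (wd v k).2 ^ 2) := by
          simp [cr, rot]; ring
        rw [this, hσ2, one_mul]; exact hn2)
    obtain ⟨d2, hd2', g2⟩ := cross_ev h (absorbs_ext h) hσ2' (hext k)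
      (a := 1 / 2) (by norm_num) (by norm_num) (z := (-σ) • rot (wd v k)) (by
        have : -σ * cr (wd v k) (-σ • rot (wd v k)) = σ ^ 2 * ((wd v k).1 ^ 2 + (wd v k).2 ^ 2) := by
          simp [cr, rot]; ring
        rw [this, hσ2, one_mul]; exact hn2)
    -- the jump at the midpoint
    have hvne : v k ≠ v (finRotate n k) := fun he => sc_ne h.three_le k (h.injective he).symm
    obtain ⟨δ, hδ, hj⟩ := W_jump (isCyc_bdry (v := v)) (mem_univ k)
      (z := v k + (1 / 2 : ℝ) • wd v k) (by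
        refine ⟨1 / 2, 1 / 2, by norm_num, by norm_num, by norm_num, ?_⟩
        unfold wd; module) hvne (by
        intro i _ hik hm
        have hmk : v k + (1 / 2 : ℝ) • wd v k ∈ edge v k := by
          rw [edge_eq]; exact ⟨1 / 2, by norm_num, by norm_num, rfl⟩
        have h3 := (h.simple k i (Ne.symm hik) ⟨hmk, hm⟩).1
        rcases h3 with h4 | h4
        · have h5 : (1 / 2 : ℝ) • wd v k = 0 := by simpa using h4
          rcases smul_eq_zero.1 h5 with h6 | h6
          · norm_num at h6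
          · exact wd_ne h k h6
        · have h4' : v k + (1 / 2 : ℝ) • wd v k = v (sc k) := h4
          have h5 : (1 / 2 : ℝ) • wd v k = 0 := by
            have : v (sc k) = v k + wd v k := by unfold wd; abel
            rw [this] at h4'
            have h6 := add_left_cancel h4'
            have h7 : (1 / 2 : ℝ) • wd v k = wd v k - (1 / 2 : ℝ) • wd v k := by module
            rw [h7, h6, sub_self]
          rcases smul_eq_zero.1 h5 with h6 | h6
          · norm_num at h6
          · exact wd_ne h k h6)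
    set r := ‖rot (wd v k)‖ + 1 with hr
    have hr0 : 0 < r := by positivity
    set ε : ℝ := min (min d1 d2) (δ / r) / 2 with hε
    have hm : 0 < min (min d1 d2) (δ / r) := lt_min (lt_min hd1' hd2') (by positivity)
    have hε0 : 0 < ε := by rw [hε]; linarith
    have hεm : ε < min (min d1 d2) (δ / r) := by rw [hε]; linarith
    have b1 : ε < d1 := lt_of_lt_of_le hεm ((min_le_left _ _).trans (min_le_left _ _))
    have b2 : ε < d2 := lt_of_lt_of_le hεm ((min_le_left _ _).trans (min_le_right _ _))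
    have b3 : ε < δ / r := lt_of_lt_of_le hεm (min_le_right _ _)
    rw [lt_div_iff₀ hr0] at b3
    have x1 := g1 ε hε0 b1
    have x2 := g2 ε hε0 b2
    have hσ1 : |σ| = 1 := by rcases hσ with rfl | rfl <;> simp
    have bb1 : v k + (1 / 2 : ℝ) • wd v k + ε • σ • rot (wd v k) ∈
        Metric.ball (v k + (1 / 2 : ℝ) • wd v k) δ := by
      rw [Metric.mem_ball, dist_eq_norm, add_sub_cancel_left, norm_smul, norm_smul,
        Real.norm_of_nonneg hε0.le, Real.norm_eq_abs, hσ1, one_mul]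
      nlinarith
    have bb2 : v k + (1 / 2 : ℝ) • wd v k + ε • (-σ) • rot (wd v k) ∈
        Metric.ball (v k + (1 / 2 : ℝ) • wd v k) δ := by
      rw [Metric.mem_ball, dist_eq_norm, add_sub_cancel_left, norm_smul, norm_smul,
        Real.norm_of_nonneg hε0.le, Real.norm_eq_abs, abs_neg, hσ1, one_mul]
      nlinarith
    have ecr : ∀ c : ℝ, cr (v (finRotate n k) - v k)
        (v k + (1 / 2 : ℝ) • wd v k + ε • c • rot (wd v k) - v k) =
        ε * c * ((wd v k).1 ^ 2 + (wd v k).2 ^ 2) := by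
      intro c
      have : v (finRotate n k) - v k = wd v k := rfl
      rw [this]
      simp [cr, rot]; ring
    have hx2 := hpe _ x2
    rcases hσ with rfl | rfl
    · have := hj _ bb1 _ bb2 (by rw [ecr]; positivity) (by
        rw [ecr]; have := mul_pos hε0 hn2; linarith)
      apply x1.2
      show w _ = _
      linarith
    · have := hj _ bb2 _ bb1 (by rw [ecr]; have := mul_pos hε0 hn2; linarith) (by
        rw [ecr]; have := mul_pos hε0 hn2; linarith)
      apply x1.2
      show w _ = _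
      linarith
  rcases reach' h hσ (habs fun r => r = σ * (2 * Real.pi)) (absorbs_ext h) key hext (x := x)
    (fun hm => by rw [← h.boundary] at hm; exact hm.2 hx) with h1 | h1
  · exact h1.2
  · exact absurd (interior_subset hx) h1

end Pool.Agent.TH695.BC
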