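import Pool.Agent.TH695.BC.Kernel

/-!
# The total weight
-/

namespace Pool.Agent.TH695.BC

open Finset

/-- one-dimensional kernel -/
noncomputable def K (m a b : ℕ) : ℝ := if m ≤ a + b then 1 / ((a : ℝ) + b - m + 1) else 0

lemma K_nonneg (m a b : ℕ) : 0 ≤ K m a b := by
  unfold K
  split_ifs with h
  · have h1 : (m : ℝ) ≤ a + b := by exact_mod_cast h
    have h3 : 0 < (a : ℝ) + b - m + 1 := by linarith
    positivity
  · exact le_refl _

lemma W_eq (m : ℕ) (p q : ℕ × ℕ) : W m p q = K m p.1 q.2 * K m p.2 q.1 := by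
  unfold W K rel
  by_cases h1 : m ≤ p.1 + q.2 <;> by_cases h2 : m ≤ p.2 + q.1 <;>
    simp [h1, h2, mul_comm]

lemma K_row (m a : ℕ) (ha : a < m) :
    Real.log ((a : ℝ) + 1) ≤ ∑ b ∈ range m, K m a b := by
  have h1 : ∑ b ∈ (range a).image (fun d => m - a + d), K m a b ≤ ∑ b ∈ range m, K m a b := by
    apply sum_le_sum_of_subset_of_nonneg
    · intro b hb
      rw [mem_image] at hb
      obtain ⟨d, hd, rfl⟩ := hb
      rw [mem_range] at hd ⊢
      omega
    · intro i _ _
      exact K_nonneg _ _ _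
  have h2 : ∑ b ∈ (range a).image (fun d => m - a + d), K m a b
      = ∑ d ∈ range a, (1 : ℝ) / ((d : ℝ) + 1) := by
    rw [sum_image (by intro x _ y _ h; simp only at h; omega)]
    refine sum_congr rfl fun d hd => ?_
    unfold K
    rw [if_pos (by omega)]
    have : ((m - a + d : ℕ) : ℝ) = (m : ℝ) - a + d := by
      rw [Nat.cast_add, Nat.cast_sub ha.le]
    rw [this]
    congr 1
    ring
  have h3 : ((harmonic a : ℚ) : ℝ) = ∑ d ∈ range a, (1 : ℝ) / ((d : ℝ) + 1) := by
    unfold harmonic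
    push_cast
    refine sum_congr rfl fun d _ => ?_
    rw [one_div]
  have h4 := log_add_one_le_harmonic a
  push_cast at h4
  rw [h3] at h4
  linarith

lemma log_factorial_ge (m : ℕ) (hm : 0 < m) :
    (m : ℝ) * (Real.log m - 1) ≤ Real.log (m.factorial) := by
  have h := Real.pow_div_factorial_le_exp (m : ℝ) (Nat.cast_nonneg m) m
  have hm' : (0 : ℝ) < m := by exact_mod_cast hm
  have hf : (0 : ℝ) < m.factorial := by exact_mod_cast Nat.factorial_pos m
  have h2 : Real.log ((m : ℝ) ^ m / m.factorial) ≤ Real.log (Real.exp m) :=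
    Real.log_le_log (by positivity) h
  rw [Real.log_exp, Real.log_div (by positivity) (by positivity), Real.log_pow] at h2
  linarith

lemma sum_K_ge (m : ℕ) (hm : 0 < m) :
    (m : ℝ) * (Real.log m - 1) ≤ ∑ a ∈ range m, ∑ b ∈ range m, K m a b := by
  have h1 : ∑ a ∈ range m, Real.log ((a : ℝ) + 1) ≤ ∑ a ∈ range m, ∑ b ∈ range m, K m a b :=
    sum_le_sum fun a ha => K_row m a (mem_range.mp ha)
  have h2 : ∑ a ∈ range m, Real.log ((a : ℝ) + 1) = Real.log (m.factorial) := by
    clear h1 hm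
    induction m with
    | zero => simp
    | succ k ih =>
      rw [sum_range_succ, ih, Nat.factorial_succ]
      push_cast
      rw [Real.log_mul (by positivity) (by positivity)]
      ring
  have h3 := log_factorial_ge m hm
  linarith

lemma total_weight (m : ℕ) :
    ∑ p ∈ range m ×ˢ range m, ∑ q ∈ range m ×ˢ range m, W m p q
      = (∑ a ∈ range m, ∑ b ∈ range m, K m a b) ^ 2 := by
  have h1 : ∀ p ∈ range m ×ˢ range m, ∑ q ∈ range m ×ˢ range m, W m p q
      = (∑ b ∈ range m, K m p.2 b) * (∑ b ∈ range m, K m p.1 b) := by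
    intro p _
    rw [sum_product, sum_mul_sum]
    refine sum_congr rfl fun i _ => sum_congr rfl fun j _ => ?_
    rw [W_eq]; ring
  rw [sum_congr rfl h1, sum_product, sq, sum_mul_sum]
  refine sum_congr rfl fun i _ => sum_congr rfl fun j _ => ?_
  ring

/-- the total weight is at least `m² (log m - 1)²` -/
lemma total_weight_ge (m : ℕ) (hm : 3 ≤ m) :
    ((m : ℝ) * (Real.log m - 1)) ^ 2
      ≤ ∑ p ∈ range m ×ˢ range m, ∑ q ∈ range m ×ˢ range m, W m p q := by
  rw [total_weight]
  have h1 := sum_K_ge m (by omega)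
  have h2 : 1 ≤ Real.log m := by
    rw [Real.le_log_iff_exp_le (by positivity)]
    have := Real.exp_one_lt_d9
    have h3 : (3 : ℝ) ≤ m := by exact_mod_cast hm
    linarith
  have h3 : 0 ≤ (m : ℝ) * (Real.log m - 1) := mul_nonneg (by positivity) (by linarith)
  exact pow_le_pow_left₀ h3 h1 2

end Pool.Agent.TH695.BC
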