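import Mathlib
import Pool.Agent.H124R2.Vis.Exit

/-!
# Winding sums of closed polygonal curves
-/

namespace Pool.Agent.TH695.BC

open Vis124 Finset Topology Filter
open scoped ComplexConjugate

noncomputable section

/-- the plane as the complex numbers -/
def toC (p : ℝ × ℝ) : ℂ := ⟨p.1, p.2⟩

lemma toC_sub_ne {p x : ℝ × ℝ} (h : p ≠ x) : toC p - toC x ≠ 0 := by
  intro h0
  apply h
  have h1 : toC p = toC x := sub_eq_zero.mp h0
  have h2 := congrArg Complex.re h1
  have h3 := congrArg Complex.im h1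
  exact Prod.ext h2 h3

/-- the complex number whose argument is the angle under which the segment from `p` to `q` is seen
from `x` -/
def cz (p q x : ℝ × ℝ) : ℂ :=
  ⟨(p.1 - x.1) * (q.1 - x.1) + (p.2 - x.2) * (q.2 - x.2),
    (p.1 - x.1) * (q.2 - x.2) - (p.2 - x.2) * (q.1 - x.1)⟩

lemma cz_eq (p q x : ℝ × ℝ) : cz p q x = conj (toC p - toC x) * (toC q - toC x) := by
  apply Complex.ext
  · simp [cz, toC, Complex.mul_re]; ring
  · simp [cz, toC, Complex.mul_im]; ring

/-- the angle under which the oriented segment `p q` is seen from `x` -/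
def ang (p q x : ℝ × ℝ) : ℝ := Complex.arg (cz p q x)

lemma cz_im (p q x : ℝ × ℝ) : (cz p q x).im = cr (q - p) (x - p) := by
  simp [cz, cr]; ring

lemma ang_coe {p q x : ℝ × ℝ} (hp : p ≠ x) (hq : q ≠ x) :
    ((ang p q x : ℝ) : Real.Angle) =
      (Complex.arg (toC q - toC x) : Real.Angle) - (Complex.arg (toC p - toC x) : Real.Angle) := by
  unfold ang
  rw [cz_eq, Complex.arg_mul_coe_angle
    ((map_ne_zero _).mpr (toC_sub_ne hp)) (toC_sub_ne hq), Complex.arg_conj_coe_angle]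
  abel

/-- off the segment, the number is in the slit plane -/
lemma cz_mem_slit {p q x : ℝ × ℝ} (h : x ∉ segment ℝ p q) : cz p q x ∈ Complex.slitPlane := by
  rw [Complex.mem_slitPlane_iff]
  by_contra hc
  push Not at hc
  obtain ⟨h1, h2⟩ := hc
  apply h
  by_cases hpq : p = q
  · subst hpq
    have h3 : (p.1 - x.1) * (p.1 - x.1) + (p.2 - x.2) * (p.2 - x.2) ≤ 0 := h1
    have h4 : p.1 - x.1 = 0 := by nlinarith [mul_self_nonneg (p.1 - x.1), mul_self_nonneg (p.2 - x.2)]
    have h5 : p.2 - x.2 = 0 := by nlinarith [mul_self_nonneg (p.1 - x.1), mul_self_nonneg (p.2 - x.2)]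
    have h6 : x = p := Prod.ext (by linarith) (by linarith)
    rw [h6]; exact left_mem_segment _ _ _
  · rw [seg_param]
    apply between hpq
    · rw [cz_im] at h2; exact h2
    · exact h1

lemma continuous_cz (p q : ℝ × ℝ) : Continuous (cz p q) := by
  have : cz p q = fun x => conj (toC p - toC x) * (toC q - toC x) := by
    funext x; exact cz_eq p q x
  have hC : Continuous toC := by
    have : toC = fun p : ℝ × ℝ => (p.1 : ℂ) + (p.2 : ℂ) * Complex.I := by
      funext p
      apply Complex.ext <;> simp [toC]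
    rw [this]; fun_prop
  rw [this]
  exact (Complex.continuous_conj.comp (continuous_const.sub hC)).mul (continuous_const.sub hC)

lemma continuousAt_ang {p q x : ℝ × ℝ} (h : x ∉ segment ℝ p q) : ContinuousAt (ang p q) x :=
  (Complex.continuousAt_arg (cz_mem_slit h)).comp (continuous_cz p q).continuousAt

lemma ang_swap {p q x : ℝ × ℝ} (h : x ∉ segment ℝ p q) : ang q p x = - ang p q x := by
  have h1 : cz q p x = conj (cz p q x) := by
    apply Complex.ext
    · simp [cz]; ring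
    · simp [cz]; ring
  have h2 := Complex.mem_slitPlane_iff_arg.mp (cz_mem_slit h)
  unfold ang
  rw [h1, Complex.arg_conj, if_neg h2.1]

lemma ang_pos {p q x : ℝ × ℝ} (h : 0 < cr (q - p) (x - p)) : 0 < ang p q x := by
  rw [← cz_im] at h
  unfold ang
  rcases (Complex.arg_nonneg_iff.mpr h.le).lt_or_eq with h1 | h1
  · exact h1
  · have := (Complex.arg_eq_zero_iff.mp h1.symm).2
    rw [this] at h; exact absurd h (lt_irrefl _)

lemma ang_neg {p q x : ℝ × ℝ} (h : cr (q - p) (x - p) < 0) : ang p q x < 0 := by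
  rw [← cz_im] at h
  exact Complex.arg_neg_iff.mpr h

variable {ι : Type} (F : Finset ι) (s t : ι → ℝ × ℝ)

/-- the winding sum of a family of oriented segments -/
def Wn (x : ℝ × ℝ) : ℝ := ∑ i ∈ F, ang (s i) (t i) x

/-- the family of oriented segments is a closed chain -/
def IsCyc : Prop := ∀ (A : Type) [AddCommGroup A] (g : ℝ × ℝ → A),
  ∑ i ∈ F, g (s i) = ∑ i ∈ F, g (t i)

variable {F s t}

lemma W_int (hc : IsCyc F s t) {x : ℝ × ℝ} (hs : ∀ i ∈ F, s i ≠ x) (ht : ∀ i ∈ F, t i ≠ x) :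
    ∃ k : ℤ, Wn F s t x = k * (2 * Real.pi) := by
  have h1 : ((Wn F s t x : ℝ) : Real.Angle) = 0 := by
    unfold Wn
    have h2 : ((∑ i ∈ F, ang (s i) (t i) x : ℝ) : Real.Angle)
        = ∑ i ∈ F, ((ang (s i) (t i) x : ℝ) : Real.Angle) := by
      exact map_sum Real.Angle.coeHom _ _
    rw [h2, sum_congr rfl fun i hi => ang_coe (hs i hi) (ht i hi), sum_sub_distrib,
      hc _ fun p => (Complex.arg (toC p - toC x) : Real.Angle), sub_self]
  obtain ⟨k, hk⟩ := Real.Angle.coe_eq_zero_iff.mp h1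
  refine ⟨k, ?_⟩
  rw [← hk, zsmul_eq_mul]

lemma W_continuousAt {x : ℝ × ℝ} (h : ∀ i ∈ F, x ∉ segment ℝ (s i) (t i)) :
    ContinuousAt (Wn F s t) x := by
  have : Wn F s t = fun x => ∑ i ∈ F, ang (s i) (t i) x := rfl
  rw [this]
  exact tendsto_finsetSum _ fun i hi => continuousAt_ang (h i hi)

/-- the winding sum is constant on connected sets off the curve -/
lemma W_const (hc : IsCyc F s t) {S : Set (ℝ × ℝ)} (hS : IsPreconnected S)
    (hd : ∀ i ∈ F, Disjoint S (segment ℝ (s i) (t i))) {x y : ℝ × ℝ} (hx : x ∈ S) (hy : y ∈ S) :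
    Wn F s t x = Wn F s t y := by
  have hcont : ContinuousOn (Wn F s t) S := fun z hz =>
    (W_continuousAt fun i hi => Set.disjoint_left.mp (hd i hi) hz).continuousWithinAt
  have hint : ∀ z ∈ S, ∃ k : ℤ, Wn F s t z = k * (2 * Real.pi) := by
    intro z hz
    apply W_int hc
    · intro i hi h; exact Set.disjoint_left.mp (hd i hi) hz (h ▸ left_mem_segment _ _ _)
    · intro i hi h; exact Set.disjoint_left.mp (hd i hi) hz (h ▸ right_mem_segment _ _ _)
  have hpi := Real.pi_pos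
  have key : ∀ x y, x ∈ S → y ∈ S → ¬ Wn F s t x < Wn F s t y := by
    intro x y hx hy hlt
    obtain ⟨k, hk⟩ := hint x hx
    obtain ⟨l, hl⟩ := hint y hy
    have hkl : k < l := by
      rw [hk, hl] at hlt
      exact_mod_cast lt_of_mul_lt_mul_right hlt (by positivity)
    have hkl' : (k : ℝ) + 1 ≤ l := by exact_mod_cast hkl
    have hmid : ((k : ℝ) + 1 / 2) * (2 * Real.pi) ∈ Set.Icc (Wn F s t x) (Wn F s t y) := by
      rw [hk, hl]
      constructor <;> nlinarith
    obtain ⟨z, hz, hzz⟩ := hS.intermediate_value hx hy hcont hmid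
    obtain ⟨m, hm⟩ := hint z hz
    rw [hm] at hzz
    have h1 : (m : ℝ) = k + 1 / 2 := mul_right_cancel₀ (by positivity) hzz
    have h2 : (2 * m : ℝ) = 2 * k + 1 := by rw [h1]; ring
    have h3 : (2 * m : ℤ) = 2 * k + 1 := by exact_mod_cast h2
    omega
  exact le_antisymm (not_lt.mp (key y x hy hx)) (not_lt.mp (key x y hx hy))

lemma exists_ball_disjoint {z : ℝ × ℝ} (h : ∀ i ∈ F, z ∉ segment ℝ (s i) (t i)) :
    ∃ δ > 0, ∀ i ∈ F, Disjoint (Metric.ball z δ) (segment ℝ (s i) (t i)) := by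
  have h1 : ∀ i ∈ F, (segment ℝ (s i) (t i))ᶜ ∈ 𝓝 z := by
    intro i hi
    apply IsOpen.mem_nhds _ (h i hi)
    rw [isOpen_compl_iff]
    rw [segment_eq_image']
    exact (isCompact_Icc.image (by fun_prop)).isClosed
  have h2 : (⋂ i ∈ F, (segment ℝ (s i) (t i))ᶜ) ∈ 𝓝 z := (Filter.biInter_finset_mem F).mpr h1
  obtain ⟨δ, hδ, hb⟩ := Metric.mem_nhds_iff.mp h2
  refine ⟨δ, hδ, fun i hi => ?_⟩
  rw [Set.disjoint_left]
  intro y hy
  exact Set.mem_iInter₂.mp (hb hy) i hi

/-- locally constant -/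
lemma W_local (hc : IsCyc F s t) {z : ℝ × ℝ} (h : ∀ i ∈ F, z ∉ segment ℝ (s i) (t i)) :
    ∃ δ > 0, ∀ x ∈ Metric.ball z δ, Wn F s t x = Wn F s t z := by
  obtain ⟨δ, hδ, hb⟩ := exists_ball_disjoint h
  exact ⟨δ, hδ, fun x hx =>
    W_const hc (convex_ball z δ).isPreconnected hb hx (Metric.mem_ball_self hδ)⟩

/-- far to the right of the curve the winding sum vanishes -/
lemma W_right (hc : IsCyc F s t) {x : ℝ × ℝ} (hs : ∀ i ∈ F, (s i).1 < x.1)
    (ht : ∀ i ∈ F, (t i).1 < x.1) : Wn F s t x = 0 := by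
  have key : ∀ p q : ℝ × ℝ, p.1 < x.1 → q.1 < x.1 →
      ang p q x = Complex.arg (toC x - toC q) - Complex.arg (toC x - toC p) := by
    intro p q hp hq
    have a1 : |Complex.arg (toC x - toC q)| < Real.pi / 2 := by
      rw [Complex.abs_arg_lt_pi_div_two_iff]; left; simp [toC]; exact hq
    have a2 : |Complex.arg (toC x - toC p)| < Real.pi / 2 := by
      rw [Complex.abs_arg_lt_pi_div_two_iff]; left; simp [toC]; exact hp
    have a1' := abs_lt.mp a1
    have a2' := abs_lt.mp a2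
    have hpi := Real.pi_pos
    have e1 : cz p q x = conj (toC x - toC p) * (toC x - toC q) := by
      rw [cz_eq]
      have : conj (toC x - toC p) = - conj (toC p - toC x) := by rw [← map_neg]; congr 1; ring
      rw [this]; ring
    have n1 : toC x - toC p ≠ 0 := toC_sub_ne fun h => by rw [h] at hp; exact lt_irrefl _ hp
    have n2 : toC x - toC q ≠ 0 := toC_sub_ne fun h => by rw [h] at hq; exact lt_irrefl _ hq
    have e2 : Complex.arg (conj (toC x - toC p)) = - Complex.arg (toC x - toC p) := by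
      rw [Complex.arg_conj, if_neg (by linarith [a2'.2])]
    unfold ang
    rw [e1, Complex.arg_mul ((map_ne_zero _).mpr n1) n2, e2]
    · ring
    · rw [e2]; constructor <;> linarith [a1'.1, a1'.2, a2'.1, a2'.2]
  unfold Wn
  rw [sum_congr rfl fun i hi => key _ _ (hs i hi) (ht i hi), sum_sub_distrib,
    hc ℝ fun p => Complex.arg (toC x - toC p), sub_self]

/-- crossing one of the segments from right to left raises the winding sum by a full turn -/
lemma W_jump [DecidableEq ι] (hc : IsCyc F s t) {i0 : ι} (hi0 : i0 ∈ F) {z : ℝ × ℝ}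
    (hz : z ∈ openSegment ℝ (s i0) (t i0)) (hne : s i0 ≠ t i0)
    (h : ∀ i ∈ F, i ≠ i0 → z ∉ segment ℝ (s i) (t i)) :
    ∃ δ > 0, ∀ x ∈ Metric.ball z δ, ∀ y ∈ Metric.ball z δ,
      0 < cr (t i0 - s i0) (x - s i0) → cr (t i0 - s i0) (y - s i0) < 0 →
      Wn F s t x - Wn F s t y = 2 * Real.pi := by
  set w : ℝ × ℝ → ℝ := Wn (F.erase i0) s t with hw
  have hcw : ContinuousAt w z := W_continuousAt fun i hi =>
    h i (mem_of_mem_erase hi) (ne_of_mem_erase hi)
  have hsplit : ∀ x, Wn F s t x = w x + ang (s i0) (t i0) x := by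
    intro x
    rw [hw]; unfold Wn
    rw [sum_erase_add _ _ hi0]
  obtain ⟨a, b, ha, hb, hab, hzz⟩ := hz
  have hpi := Real.pi_pos
  have hd : t i0 - s i0 ≠ 0 := sub_ne_zero.mpr hne.symm
  have hn := norm2_pos hd
  have hre : (cz (s i0) (t i0) z).re < 0 := by
    have e : (cz (s i0) (t i0) z).re
        = -(a * b) * ((t i0 - s i0).1 ^ 2 + (t i0 - s i0).2 ^ 2) := by
      rw [← hzz]
      have : a = 1 - b := by linarith
      subst this
      simp [cz]; ring
    rw [e]
    have := mul_pos (mul_pos ha hb) hn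
    linarith
  have him : (cz (s i0) (t i0) z).im = 0 := by
    rw [cz_im, ← hzz]
    have : a = 1 - b := by linarith
    subst this
    simp [cr]; ring
  have t1 : Tendsto (ang (s i0) (t i0)) (𝓝[{x | 0 < cr (t i0 - s i0) (x - s i0)}] z)
      (𝓝 Real.pi) := by
    apply (Complex.tendsto_arg_nhdsWithin_im_nonneg_of_re_neg_of_im_zero hre him).comp
    apply tendsto_nhdsWithin_iff.mpr
    refine ⟨((continuous_cz _ _).tendsto z).mono_left nhdsWithin_le_nhds, ?_⟩
    filter_upwards [self_mem_nhdsWithin] with x hx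
    have hx' : 0 < cr (t i0 - s i0) (x - s i0) := hx
    show 0 ≤ (cz (s i0) (t i0) x).im
    rw [cz_im]; exact hx'.le
  have t2 : Tendsto (ang (s i0) (t i0)) (𝓝[{x | cr (t i0 - s i0) (x - s i0) < 0}] z)
      (𝓝 (-Real.pi)) := by
    apply (Complex.tendsto_arg_nhdsWithin_im_neg_of_re_neg_of_im_zero hre him).comp
    apply tendsto_nhdsWithin_iff.mpr
    refine ⟨((continuous_cz _ _).tendsto z).mono_left nhdsWithin_le_nhds, ?_⟩
    filter_upwards [self_mem_nhdsWithin] with x hx
    have hx' : cr (t i0 - s i0) (x - s i0) < 0 := hx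
    show (cz (s i0) (t i0) x).im < 0
    rw [cz_im]; exact hx'
  obtain ⟨δ1, hδ1, b1⟩ := Metric.mem_nhdsWithin_iff.mp
    (t1 (Metric.ball_mem_nhds Real.pi (show (0 : ℝ) < 1 / 2 by norm_num)))
  obtain ⟨δ2, hδ2, b2⟩ := Metric.mem_nhdsWithin_iff.mp
    (t2 (Metric.ball_mem_nhds (-Real.pi) (show (0 : ℝ) < 1 / 2 by norm_num)))
  obtain ⟨δ3, hδ3, b3⟩ := Metric.mem_nhds_iff.mp
    (hcw (Metric.ball_mem_nhds (w z) (show (0 : ℝ) < 1 / 2 by norm_num)))
  obtain ⟨δ4, hδ4, b4⟩ := exists_ball_disjoint (F := F.erase i0) (s := s) (t := t) (z := z)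
    fun i hi => h i (mem_of_mem_erase hi) (ne_of_mem_erase hi)
  refine ⟨min (min δ1 δ4) (min δ2 δ3), lt_min (lt_min hδ1 hδ4) (lt_min hδ2 hδ3), ?_⟩
  have hne' : ∀ x ∈ Metric.ball z δ4, cr (t i0 - s i0) (x - s i0) ≠ 0 →
      ∃ k : ℤ, Wn F s t x = k * (2 * Real.pi) := by
    intro x hx hcr
    apply W_int hc
    · intro i hi he
      by_cases hii : i = i0
      · subst hii
        apply hcr; rw [← he]; simp [cr]
      · exact Set.disjoint_left.mp (b4 i (mem_erase.mpr ⟨hii, hi⟩)) hx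
          (he ▸ left_mem_segment _ _ _)
    · intro i hi he
      by_cases hii : i = i0
      · subst hii
        apply hcr; rw [← he]; exact cr_self _
      · exact Set.disjoint_left.mp (b4 i (mem_erase.mpr ⟨hii, hi⟩)) hx
          (he ▸ right_mem_segment _ _ _)
  intro x hx y hy hx1 hy1
  rw [Metric.mem_ball] at hx hy
  have hxa : dist x z < δ1 := lt_of_lt_of_le hx ((min_le_left _ _).trans (min_le_left _ _))
  have hxb : dist x z < δ4 := lt_of_lt_of_le hx ((min_le_left _ _).trans (min_le_right _ _))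
  have hxc : dist x z < δ3 := lt_of_lt_of_le hx ((min_le_right _ _).trans (min_le_right _ _))
  have hya : dist y z < δ2 := lt_of_lt_of_le hy ((min_le_right _ _).trans (min_le_left _ _))
  have hyb : dist y z < δ4 := lt_of_lt_of_le hy ((min_le_left _ _).trans (min_le_right _ _))
  have hyc : dist y z < δ3 := lt_of_lt_of_le hy ((min_le_right _ _).trans (min_le_right _ _))
  have c1 : |ang (s i0) (t i0) x - Real.pi| < 1 / 2 := b1 ⟨hxa, hx1⟩
  have c2 : |ang (s i0) (t i0) y - -Real.pi| < 1 / 2 := b2 ⟨hya, hy1⟩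
  have c3 : |w x - w z| < 1 / 2 := b3 hxc
  have c4 : |w y - w z| < 1 / 2 := b3 hyc
  obtain ⟨k, hk⟩ := hne' x hxb hx1.ne'
  obtain ⟨l, hl⟩ := hne' y hyb hy1.ne
  rw [abs_lt] at c1 c2 c3 c4
  have hp3 := Real.pi_gt_three
  have e : Wn F s t x - Wn F s t y - 2 * Real.pi = ((k - l - 1 : ℤ) : ℝ) * (2 * Real.pi) := by
    rw [hk, hl]; push_cast; ring
  have e2 : |Wn F s t x - Wn F s t y - 2 * Real.pi| < 2 * Real.pi := by
    rw [hsplit, hsplit, abs_lt]
    constructor <;> linarith [c1.1, c1.2, c2.1, c2.2, c3.1, c3.2, c4.1, c4.2]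
  rw [e, abs_mul, abs_of_pos (show (0 : ℝ) < 2 * Real.pi by positivity)] at e2
  have e3 : |((k - l - 1 : ℤ) : ℝ)| < 1 := by
    by_contra hcc
    have := mul_le_mul_of_nonneg_right (not_lt.mp hcc) (show (0 : ℝ) ≤ 2 * Real.pi by positivity)
    linarith
  have e4 : |(k - l - 1 : ℤ)| < 1 := by exact_mod_cast e3
  have e5 : (k - l - 1 : ℤ) = 0 := Int.abs_lt_one_iff.mp e4
  rw [e5] at e
  simp only [Int.cast_zero, zero_mul] at e
  linarith

end

end Pool.Agent.TH695.BC
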